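import Mathlib
import Pool.Agent.Lib.P0c8ca5C.EqA

/-!
# The weight conjecture for p-solvable groups: definitions

* `Tri p N K e`: `N ≤ K` is a p'-group normalized by `K`, `e` is a `K`-invariant block idempotent of
  `kN` (then `kNe` is a full matrix algebra).
* `Ln N e x`: the line of `x`, i.e. the `N`-invariant elements `u` of `k N x` with `e u = u`.
* `cm N e x y`: `x u x⁻¹ u⁻¹`, an element of the line of the commutator of `x` and `y`; `u` is an
  element of the line of `y` and `u⁻¹` its inverse in `kNe`.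
* `Zs p K e`: the elements `a` of `kA` that are supported on p-regular elements of `K`, `K`-invariant,
  with `e a = a`.  For `Tri p N K e` its dimension is the number of the irreducible representations
  of `K` in `e`.
-/

namespace Pool.Agent.Lib.P0c8ca5.Ps

open MonoidAlgebra

variable {p : ℕ} {k : Type*} [Field k] {A : Type*} [Group A]

/-- `N ≤ K` is a p'-group normalized by `K` and `e` is a `K`-invariant block of `N` -/
structure Tri (p : ℕ) (N K : Subgroup A) (e : MonoidAlgebra k A) : Prop where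
  le : N ≤ K
  nm : K ≤ Subgroup.normalizer (N : Set A)
  pp : ¬ p ∣ Nat.card N
  blk : IsBlock N e
  inv : InvBy K e

/-- the line of `x` -/
def Ln (N : Subgroup A) (e : MonoidAlgebra k A) (x : A) : Submodule k (MonoidAlgebra k A) where
  carrier := {u | (∀ z, u.coeff z ≠ 0 → z * x⁻¹ ∈ N) ∧ InvBy N u ∧ e * u = u}
  add_mem' := by
    rintro u v ⟨h1, h2, h3⟩ ⟨h1', h2', h3'⟩
    refine ⟨fun z hz => ?_, fun n hn z => ?_, by rw [mul_add, h3, h3']⟩
    · by_contra h
      apply hz
      have e1 : u.coeff z = 0 := by by_contra h4; exact h (h1 z h4)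
      have e2 : v.coeff z = 0 := by by_contra h4; exact h (h1' z h4)
      rw [coeff_add, Finsupp.add_apply, e1, e2, add_zero]
    · rw [coeff_add, Finsupp.add_apply, Finsupp.add_apply, h2 n hn, h2' n hn]
  zero_mem' := ⟨fun z hz => absurd rfl hz, fun _ _ _ => rfl, mul_zero _⟩
  smul_mem' := by
    rintro c u ⟨h1, h2, h3⟩
    refine ⟨fun z hz => h1 z ?_, fun n hn z => ?_, by rw [mul_smul_comm, h3]⟩
    · intro h4
      apply hz
      rw [coeff_smul_apply, h4, smul_zero]
    · rw [coeff_smul_apply, coeff_smul_apply, h2 n hn]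

theorem mem_Ln {N : Subgroup A} {e : MonoidAlgebra k A} {x : A} {u : MonoidAlgebra k A} :
    u ∈ Ln N e x ↔ (∀ z, u.coeff z ≠ 0 → z * x⁻¹ ∈ N) ∧ InvBy N u ∧ e * u = u := Iff.rfl

open Classical in
/-- a nonzero element of the line of `y` -/
noncomputable def lu (N : Subgroup A) (e : MonoidAlgebra k A) (y : A) : MonoidAlgebra k A :=
  if h : ∃ u ∈ Ln N e y, ∃ v ∈ Ln N e y⁻¹, u * v = e ∧ v * u = e then h.choose else 0

open Classical in
/-- the inverse of `lu N e y` -/
noncomputable def lv (N : Subgroup A) (e : MonoidAlgebra k A) (y : A) : MonoidAlgebra k A :=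
  if h : ∃ v ∈ Ln N e y⁻¹, lu N e y * v = e ∧ v * lu N e y = e then h.choose else 0

/-- the commutator of `x` and `y` (it does not depend on the choices) -/
noncomputable def cm (N : Subgroup A) (e : MonoidAlgebra k A) (x y : A) : MonoidAlgebra k A :=
  cj x (lu N e y) * lv N e y

/-- the elements supported on p-regular elements of `K`, `K`-invariant, with `e a = a` -/
def Zs (p : ℕ) (K : Subgroup A) (e : MonoidAlgebra k A) : Submodule k (MonoidAlgebra k A) where
  carrier := {a | (∀ z, a.coeff z ≠ 0 → z ∈ K ∧ Preg p z) ∧ InvBy K a ∧ e * a = a}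
  add_mem' := by
    rintro u v ⟨h1, h2, h3⟩ ⟨h1', h2', h3'⟩
    refine ⟨fun z hz => ?_, fun n hn z => ?_, by rw [mul_add, h3, h3']⟩
    · by_contra h
      apply hz
      have e1 : u.coeff z = 0 := by by_contra h4; exact h (h1 z h4)
      have e2 : v.coeff z = 0 := by by_contra h4; exact h (h1' z h4)
      rw [coeff_add, Finsupp.add_apply, e1, e2, add_zero]
    · rw [coeff_add, Finsupp.add_apply, Finsupp.add_apply, h2 n hn, h2' n hn]
  zero_mem' := ⟨fun z hz => absurd rfl hz, fun _ _ _ => rfl, mul_zero _⟩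
  smul_mem' := by
    rintro c u ⟨h1, h2, h3⟩
    refine ⟨fun z hz => h1 z ?_, fun n hn z => ?_, by rw [mul_smul_comm, h3]⟩
    · intro h4
      apply hz
      rw [coeff_smul_apply, h4, smul_zero]
    · rw [coeff_smul_apply, coeff_smul_apply, h2 n hn]

theorem mem_Zs {K : Subgroup A} {e : MonoidAlgebra k A} {a : MonoidAlgebra k A} :
    a ∈ Zs p K e ↔ (∀ z, a.coeff z ≠ 0 → z ∈ K ∧ Preg p z) ∧ InvBy K a ∧ e * a = a := Iff.rfl

end Pool.Agent.Lib.P0c8ca5.Ps
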