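import Mathlib
import Pool.Agent.Lib.P0c8ca5S.Defs
import Pool.Agent.Lib.P0c8ca5C.Eig
import Pool.Agent.Lib.P0c8ca5C.DzA

/-!
# Module LnA: the lines are one-dimensional and their elements are invertible

`N` is a p'-group, so every block of `N` is of defect zero (`tri_isDZ`), see below.

1. (`coeff_nilp`) If `z` is supported on the p'-group `N` and nilpotent then `z.coeff 1 = 0`:
   `ChC.Fl_nilpotent` with `G := A` and `f x = if pr p x = 1 then 1 else 0` (a class function, constant
   under the power `p ^ r` of `uexp p A`): the sum is `z.coeff 1`, because an element `x` of `N` with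
   `pr p x = 1` is `1`.
2. (`central_nilp`) `z` supported on `N`, `N`-invariant and nilpotent: `z = 0`, since `z * single y 1`
   (`y ∈ N`) is nilpotent (it commutes) and `(z * single y 1).coeff 1 = z.coeff y⁻¹`.
3. (`Tri.scalar`) `w` supported on `N`, `N`-invariant, `e * w = w`: `w = c • e`.  With the commutative
   algebra `fixAlg k N N` and its primitive idempotent `e` (`IsBlock.primIdem`), `l` a character with
   `l e = 1` (`PrimIdem.exists_char`), `c = l w`: `w - c • e` is not a unit times `e` (`l` of it is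
   `0`), so nilpotent by `PrimIdem.nilp_or_unit`, so `0` by 2.
4. `e.coeff 1 ≠ 0`: there is `w` supported on `N` with `(e * w).coeff 1 ≠ 0` (`w = single y 1` with
   `e.coeff y⁻¹ ≠ 0`).  `trK N (e * w) = e * trK N w` is `N`-invariant, so `c • e`; its coefficient at
   `1` is `|N| (e * w).coeff 1 ≠ 0`.
-/

namespace Pool.Agent.Lib.P0c8ca5.Ps

open MonoidAlgebra

variable {p : ℕ} {k : Type*} [Field k] {A : Type*} [Group A]

theorem supp_sg {L : Subgroup A} {h : A} (hh : h ∈ L) :
    SuppIn L (single h (1 : k)) := by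
  intro x hx
  rw [coeff_single] at hx
  have : h = x := by
    by_contra hne
    exact hx (Finsupp.single_eq_of_ne (Ne.symm hne))
  rwa [← this]

theorem exists_coeff {z : MonoidAlgebra k A} (hne : z ≠ 0) : ∃ y, z.coeff y ≠ 0 := by
  by_contra h
  push Not at h
  apply hne
  ext y
  exact h y

theorem coeff_nilp [Fact p.Prime] [CharP k p] [Fintype A] {N : Subgroup A}
    (hN : ¬ p ∣ Nat.card N) {z : MonoidAlgebra k A} (hz : SuppIn N z) (hn : IsNilpotent z) :
    z.coeff 1 = 0 := by
  classical
  set f : A → k := fun x => if pr p x = 1 then 1 else 0 with hf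
  have hf1 : ∀ x y, f (x * y) = f (y * x) := by
    intro x y
    have h1 : y * x = x⁻¹ * (x * y) * x⁻¹⁻¹ := by group
    have h2 : pr p (y * x) = x⁻¹ * pr p (x * y) * x⁻¹⁻¹ := by rw [h1, pr_conj]
    have h3 : pr p (x * y) = 1 ↔ pr p (y * x) = 1 := by
      rw [h2]
      constructor
      · intro h; rw [h]; group
      · intro h
        have : pr p (x * y) = x * (x⁻¹ * pr p (x * y) * x⁻¹⁻¹) * x⁻¹ := by group
        rw [this, h]; group
    simp only [hf]
    by_cases h : pr p (x * y) = 1
    · rw [if_pos h, if_pos (h3.1 h)]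
    · rw [if_neg h, if_neg (fun h' => h (h3.2 h'))]
  set r : ℕ := Nat.card A * Nat.totient (ordCompl[p] (Nat.card A)) with hr
  have hur : uexp p A = p ^ r := rfl
  have hr0 : 0 < r := by
    apply Nat.mul_pos Nat.card_pos
    exact Nat.totient_pos.2 (Nat.ordCompl_pos p Nat.card_pos.ne')
  have hfr : ∀ x, f (x ^ p ^ r) = f x := by
    intro x
    have h1 : x ^ p ^ r = pr p x := by rw [pr, hur]
    simp only [hf]
    rw [h1, pr_pr]
  have h0 := ChC.Fl_nilpotent f hf1 r hr0 hfr z hn
  rw [ChC.Fl_apply, Finset.sum_eq_single (1 : A)] at h0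
  · have h1 : f 1 = 1 := by
      simp only [hf]
      rw [if_pos]
      rw [pr, one_pow]
    rwa [h1, mul_one] at h0
  · intro x _ hx
    by_cases hc : z.coeff x = 0
    · rw [hc, zero_mul]
    have hxN := hz x hc
    have hpx : Preg p x := fun h => hN (h.trans (by
      have := orderOf_dvd_natCard (⟨x, hxN⟩ : N)
      rwa [Subgroup.orderOf_mk] at this))
    have : f x = 0 := by
      simp only [hf]
      rw [pr_eq_self hpx, if_neg hx]
    rw [this, mul_zero]
  · intro h; exact absurd (Finset.mem_univ _) h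

theorem central_nilp [Fact p.Prime] [CharP k p] [Fintype A] {N : Subgroup A}
    (hN : ¬ p ∣ Nat.card N) {z : MonoidAlgebra k A} (hz : SuppIn N z) (hi : InvBy N z)
    (hn : IsNilpotent z) : z = 0 := by
  classical
  by_contra hne
  obtain ⟨y, hy⟩ := exists_coeff hne
  have hyN := hz y hy
  have hs : SuppIn N (single y⁻¹ (1 : k)) := supp_sg (N.inv_mem hyN)
  have hcomm : Commute z (single y⁻¹ (1 : k)) :=
    ((invBy_iff_commute.1 hi) y⁻¹ (N.inv_mem hyN)).symm
  have h1 : IsNilpotent (z * single y⁻¹ (1 : k)) := hcomm.isNilpotent_mul_right hn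
  have h2 := coeff_nilp hN (hz.mul hs) h1
  rw [MonoidAlgebra.coeff_mul_single_apply] at h2
  apply hy
  simpa using h2

theorem Tri.scalar [Fact p.Prime] [CharP k p] [IsAlgClosed k] [Fintype A] {N K : Subgroup A}
    {e : MonoidAlgebra k A} (h : Tri p N K e) {w : MonoidAlgebra k A} (hw : SuppIn N w)
    (hi : InvBy N w) (he : e * w = w) : ∃ c : k, w = c • e := by
  obtain ⟨l, hl⟩ := h.blk.primIdem.exists_char (k := k)
  set W : fixAlg k N N := ⟨w, mem_fixAlg.2 ⟨hw, hi⟩⟩ with hW
  set E : fixAlg k N N := ⟨e, h.blk.mem⟩ with hE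
  refine ⟨l W, ?_⟩
  have hEW : E * W = W := Subtype.ext he
  have hEE : E * E = E := Subtype.ext h.blk.idem
  set Y : fixAlg k N N := W - l W • E with hY
  have hYE : Y * E = Y := by
    rw [hY, sub_mul, smul_mul_assoc, hEE, mul_comm W E, hEW]
  have hlY : l Y = 0 := by
    rw [hY, map_sub, map_smul, hl, smul_eq_mul, mul_one, sub_self]
  have hA : IsArtinianRing (fixAlg k N N) := IsArtinianRing.of_finite k _
  have hnil : IsNilpotent Y := by
    rcases h.blk.primIdem.nilp_or_unit Y with h1 | ⟨w', h1⟩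
    · rwa [hYE] at h1
    · exfalso
      have h2 : l (Y * w' * E) = l E := by rw [h1]
      rw [map_mul, map_mul, hlY, zero_mul, zero_mul, hl] at h2
      exact zero_ne_one h2
  have h3 : IsNilpotent (Y : MonoidAlgebra k A) := by
    obtain ⟨n, hn⟩ := hnil
    exact ⟨n, by rw [← SubmonoidClass.coe_pow, hn]; rfl⟩
  have h4 : (Y : MonoidAlgebra k A) = 0 :=
    central_nilp h.pp (mem_fixAlg.1 Y.2).1 (mem_fixAlg.1 Y.2).2 h3
  have h5 : (Y : MonoidAlgebra k A) = w - l W • e := rfl
  rw [h5] at h4
  exact sub_eq_zero.1 h4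

theorem Tri.coeff_one [Fact p.Prime] [CharP k p] [IsAlgClosed k] [Fintype A] {N K : Subgroup A}
    {e : MonoidAlgebra k A} (h : Tri p N K e) : e.coeff 1 ≠ 0 := by
  classical
  obtain ⟨y, hy⟩ := exists_coeff h.blk.ne_zero
  have hyN := h.blk.suppIn y hy
  set s : MonoidAlgebra k A := single y⁻¹ (1 : k) with hs
  have hsN : SuppIn N s := supp_sg (N.inv_mem hyN)
  have h1 : (e * s).coeff 1 ≠ 0 := by
    rw [hs, MonoidAlgebra.coeff_mul_single_apply]
    simpa using hy
  have h2 : trK N (e * s) = e * trK N s := mul_trK s h.blk.invBy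
  have h3 : ∃ c : k, e * trK N s = c • e := by
    apply h.scalar
    · exact h.blk.suppIn.mul (trK_suppIn Subgroup.le_normalizer hsN)
    · rw [← h2]; exact trK_invBy _ _
    · rw [← mul_assoc, h.blk.idem]
  obtain ⟨c, hc⟩ := h3
  have h4 : (trK N (e * s)).coeff 1 = (Nat.card N : k) * (e * s).coeff 1 := by
    rw [coeff_trK]
    simp only [mul_one, inv_mul_cancel]
    rw [Finset.sum_ite, Finset.sum_const_zero, add_zero, Finset.sum_const, nsmul_eq_mul]
    congr 2
    rw [Nat.card_eq_fintype_card, Fintype.card_subtype]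
  have h5 : (Nat.card N : k) ≠ 0 := by
    intro h6
    exact h.pp ((CharP.cast_eq_zero_iff k p _).1 h6)
  intro h6
  rw [h2, hc, coeff_smul_apply, h6, smul_zero] at h4
  exact (mul_ne_zero h5 h1) h4.symm

/-- the blocks of a p'-group have defect zero -/
theorem Tri.isDZ [Fact p.Prime] [Fintype A] {N K : Subgroup A}
    {e : MonoidAlgebra k A} (h : Tri p N K e) : IsDZ p N e := by
  refine ⟨h.blk, fun P hPN hP _ => ?_⟩
  obtain ⟨n, hn⟩ := IsPGroup.iff_card.1 hP
  rcases Nat.eq_zero_or_pos n with h0 | h0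
  · rw [h0, pow_zero] at hn
    exact Subgroup.eq_bot_of_card_eq P hn
  · exfalso
    apply h.pp
    refine Dvd.dvd.trans ?_ (Subgroup.card_dvd_of_le hPN)
    rw [hn]
    exact dvd_pow_self p h0.ne'

end Pool.Agent.Lib.P0c8ca5.Ps
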