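import Mathlib
import Pool.Agent.Lib.P0c8ca5S.LnA
import Pool.Agent.Lib.P0c8ca5C.DzOver
import Pool.Agent.Lib.P0c8ca5C.Ext

/-!
# Module LnB: elements of the lines

1. `Ln_mul`, `Ln_cj`, `Ln_congr`, `e_mem_Ln`, `Ln_mul_e`, `Ln_supp`: easy closure properties.
2. `exists_ln`: let `T = N ⊔ zpowers x`, `δ` the irreducible representation of `N` in `e`, `τ` irreducible
   of `T` over `δ`; its restriction to `N` is `δ` (`iso_restrict`).  By the density theorem there is `a`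
   in the group algebra of `N` with `τ a = τ x⁻¹`, so `w = a x` acts as `1`, and
   `u = trK N (e * w)` is in the line of `x` and acts as `|N|`; the same for `x⁻¹`; `u v` is a nonzero
   multiple of `e` by `Tri.scalar`.
3. `ln_line`, `ln_inv`: the lines are one-dimensional, nonzero elements are invertible.
4. `ln_conj`: `u b u⁻¹ = x b x⁻¹` for all `N`-invariant `b` in `k K e` (`x⁻¹ u` is supported on `N`, so
   it commutes with `b`).
-/

namespace Pool.Agent.Lib.P0c8ca5.Ps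

open MonoidAlgebra

variable {p : ℕ} {k : Type*} [Field k] {A : Type*} [Group A] {N K : Subgroup A}
  {e : MonoidAlgebra k A}

theorem Ln_congr {x y : A} (hxy : x * y⁻¹ ∈ N) : Ln N e x = Ln N e y := by
  ext u
  rw [mem_Ln, mem_Ln]
  have h1 : ∀ z : A, z * x⁻¹ ∈ N ↔ z * y⁻¹ ∈ N := by
    intro z
    constructor
    · intro h
      have := N.mul_mem h hxy
      have h2 : z * x⁻¹ * (x * y⁻¹) = z * y⁻¹ := by group
      rwa [h2] at this
    · intro h
      have := N.mul_mem h (N.inv_mem hxy)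
      have h2 : z * y⁻¹ * (x * y⁻¹)⁻¹ = z * x⁻¹ := by group
      rwa [h2] at this
  simp only [h1]

theorem InvBy.mul' {M : Subgroup A} {a b : MonoidAlgebra k A} (ha : InvBy M a)
    (hb : InvBy M b) : InvBy M (a * b) := by
  rw [invBy_iff_commute] at ha hb ⊢
  exact fun g hg => (ha g hg).mul_right (hb g hg)

theorem InvBy.cj' {g : A} (hg : g ∈ Subgroup.normalizer (N : Set A)) {a : MonoidAlgebra k A}
    (ha : InvBy N a) : InvBy N (cj g a) := by
  rw [invBy_iff_cj] at ha ⊢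
  intro n hn
  have h1 : g⁻¹ * n * g ∈ N := by
    have := (Subgroup.mem_normalizer_iff.1 (Subgroup.inv_mem _ hg) n).1 hn
    rwa [inv_inv] at this
  have h2 : n * g = g * (g⁻¹ * n * g) := by group
  rw [cj_cj, h2, ← cj_cj, ha _ h1]

theorem Ln_mul (h : Tri p N K e) {x y : A} (hx : x ∈ K) {u v : MonoidAlgebra k A}
    (hu : u ∈ Ln N e x) (hv : v ∈ Ln N e y) : u * v ∈ Ln N e (x * y) := by
  obtain ⟨h1, h2, h3⟩ := mem_Ln.1 hu
  obtain ⟨h1', h2', h3'⟩ := mem_Ln.1 hv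
  refine mem_Ln.2 ⟨fun z hz => ?_, InvBy.mul' h2 h2', by rw [← mul_assoc, h3]⟩
  rw [coeff_mul_apply_left] at hz
  obtain ⟨a, _, ha⟩ := Finset.exists_ne_zero_of_sum_ne_zero hz
  have e1 := h1 a (left_ne_zero_of_mul ha)
  have e2 := h1' _ (right_ne_zero_of_mul ha)
  have e3 := (Subgroup.mem_normalizer_iff.1 (h.nm hx) _).1 e2
  have e4 := N.mul_mem e1 e3
  have e5 : a * x⁻¹ * (x * (a⁻¹ * z * y⁻¹) * x⁻¹) = z * (x * y)⁻¹ := by group
  rwa [e5] at e4

theorem Ln_cj (h : Tri p N K e) {g : A} (hg : g ∈ K) {x : A} {u : MonoidAlgebra k A}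
    (hu : u ∈ Ln N e x) : cj g u ∈ Ln N e (g * x * g⁻¹) := by
  obtain ⟨h1, h2, h3⟩ := mem_Ln.1 hu
  refine mem_Ln.2 ⟨fun z hz => ?_, InvBy.cj' (h.nm hg) h2, ?_⟩
  · rw [coeff_cj] at hz
    have e1 := h1 _ hz
    have e2 := (Subgroup.mem_normalizer_iff.1 (h.nm hg) _).1 e1
    have e3 : g * (g⁻¹ * z * g * x⁻¹) * g⁻¹ = z * (g * x * g⁻¹)⁻¹ := by group
    rwa [e3] at e2
  · have e1 : cj g e = e := invBy_iff_cj.1 h.inv g hg
    conv_lhs => rw [← e1]
    rw [← cj_mul, h3]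

theorem e_mem_Ln (h : Tri p N K e) : e ∈ Ln N e 1 := by
  refine mem_Ln.2 ⟨fun z hz => ?_, h.blk.invBy, h.blk.idem⟩
  rw [inv_one, mul_one]
  exact h.blk.suppIn z hz

theorem Ln_supp (h : Tri p N K e) {x : A} (hx : x ∈ K) {u : MonoidAlgebra k A}
    (hu : u ∈ Ln N e x) : SuppIn K u := by
  intro z hz
  have h1 := h.le ((mem_Ln.1 hu).1 z hz)
  have h2 := K.mul_mem h1 hx
  have h3 : z * x⁻¹ * x = z := by group
  rwa [h3] at h2

theorem Ln_mul_e (h : Tri p N K e) {x : A} (hx : x ∈ K) {u : MonoidAlgebra k A}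
    (hu : u ∈ Ln N e x) : u * e = u := by
  rw [commute_of (Ln_supp h hx hu) h.inv]
  exact (mem_Ln.1 hu).2.2

namespace LnBAux

theorem act_cj_one [Finite A] {T : Subgroup A} {V : Type*} [AddCommGroup V] [Module k V]
    (ρ : Representation k T V) {g : A} (hg : g ∈ T) {a : MonoidAlgebra k A}
    (h1 : act ρ a = 1) : act ρ (cj g a) = 1 := by
  have : Fintype T := Fintype.ofFinite T
  ext v
  have h2 : ∀ v, act ρ a v = v := fun v => by rw [h1]; rfl
  have h3 : act ρ (cj g a) v = ρ ⟨g, hg⟩ (act ρ a (ρ ⟨g, hg⟩⁻¹ v)) := by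
    rw [act_apply, act_apply, map_sum]
    refine Fintype.sum_equiv (MulAut.conj (⟨g, hg⟩ : T)⁻¹).toEquiv _ _ (fun x => ?_)
    change (cj g a).coeff (x : A) • ρ x v
      = ρ ⟨g, hg⟩ (a.coeff (((⟨g, hg⟩ : T)⁻¹ * x * (⟨g, hg⟩ : T)⁻¹⁻¹ : T) : A)
        • ρ ((⟨g, hg⟩ : T)⁻¹ * x * (⟨g, hg⟩ : T)⁻¹⁻¹) (ρ (⟨g, hg⟩ : T)⁻¹ v))
    rw [map_smul, coeff_cj]
    congr 1
    · congr 1
      simp
    · rw [← Module.End.mul_apply, ← Module.End.mul_apply, ← map_mul, ← map_mul]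
      congr 2
      group
  rw [h3, h2, ← Module.End.mul_apply, ← map_mul, mul_inv_cancel, map_one]

theorem act_sg [Finite A] {T : Subgroup A} {V : Type*} [AddCommGroup V] [Module k V]
    (ρ : Representation k T V) {g : A} (hg : g ∈ T) :
    act ρ (single g (1 : k)) = ρ ⟨g, hg⟩ := by
  classical
  have : Fintype T := Fintype.ofFinite T
  ext v
  rw [act_apply, Finset.sum_eq_single (⟨g, hg⟩ : T)]
  · rw [coeff_single, Finsupp.single_eq_same, one_smul]
  · intro x _ hx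
    rw [coeff_single, Finsupp.single_eq_of_ne, zero_smul]
    intro h
    exact hx (Subtype.ext h)
  · intro h
    exact absurd (Finset.mem_univ _) h

/-- the main construction -/
theorem exists_u [Fact p.Prime] [CharP k p] [IsAlgClosed k] [Fintype A] (h : Tri p N K e)
    {T : Subgroup A} (hNT : N ≤ T) (hTK : T ≤ K) {m : ℕ} {τ : Rp k T m}
    {σ : Rp k N m} (hσ : ∀ (g : N) (v : Fin m → k), τ (Subgroup.inclusion hNT g) v = σ g v)
    (hτN : Irr' σ) (hτe : act τ e = 1) {y : A} (hy : y ∈ T) :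
    ∃ u ∈ Ln N e y, ∃ c : k, c ≠ 0 ∧ act τ u = c • 1 := by
  classical
  have hirr : σ.IsIrreducible := irr_iff.2 hτN
  obtain ⟨a, -, ha⟩ := ChBAux.density (k := k) (H := N) (ι := Unit) (fun _ => m)
    (fun _ => σ) (fun _ => hirr)
    (fun i j hij => absurd (Subsingleton.elim i j) hij) () (τ ⟨y⁻¹, T.inv_mem hy⟩)
  have hsup : SuppIn N (Rk.CardDZAux.up N a) := Rk.CardDZAux.up_suppIn N a
  have hact : ∀ b : MonoidAlgebra k A, SuppIn N b → act τ b = act σ b := by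
    intro b hb
    exact LinearMap.ext fun v => act_over hNT (LinearMap.id) (fun g w => hσ g w) hb v
  have hupT : act τ (Rk.CardDZAux.up N a) = τ ⟨y⁻¹, T.inv_mem hy⟩ := by
    rw [hact _ hsup, Rk.CardDZAux.act_up]
    exact ha
  set w : MonoidAlgebra k A := Rk.CardDZAux.up N a * single y 1 with hw
  have hactw : act τ w = 1 := by
    rw [hw, act_mul _ (hsup.mono hNT), hupT, act_sg τ hy, ← map_mul]
    have : (⟨y⁻¹, T.inv_mem hy⟩ : T) * ⟨y, hy⟩ = 1 := Subtype.ext (inv_mul_cancel y)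
    rw [this, map_one]
  have hactew : act τ (e * w) = 1 := by
    rw [act_mul _ (h.blk.suppIn.mono hNT), hτe, hactw, mul_one]
  have hew : ∀ t : A, (e * w).coeff t ≠ 0 → t * y⁻¹ ∈ N := by
    intro t ht
    rw [hw, ← mul_assoc, coeff_mul_single_apply, mul_one] at ht
    exact (h.blk.suppIn.mul hsup) _ ht
  refine ⟨trK N (e * w), mem_Ln.2 ⟨?_, trK_invBy _ _, ?_⟩, (Nat.card N : k), ?_, ?_⟩
  · intro z hz
    rw [coeff_trK] at hz
    obtain ⟨x, _, hx⟩ := Finset.exists_ne_zero_of_sum_ne_zero hz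
    by_cases hxN : x ∈ N
    · rw [if_pos hxN] at hx
      have e1 := hew _ hx
      have e2 := (Subgroup.mem_normalizer_iff.1 (h.nm (hTK hy)) _).1 (N.inv_mem hxN)
      have e3 := N.mul_mem (N.mul_mem hxN e1) e2
      have e4 : x * (x⁻¹ * z * x * y⁻¹) * (y * x⁻¹ * y⁻¹) = z * y⁻¹ := by group
      rwa [e4] at e3
    · rw [if_neg hxN] at hx
      exact absurd rfl hx
  · rw [← mul_trK _ h.blk.invBy]
    congr 1
    rw [← mul_assoc, h.blk.idem]
  · intro h6
    exact h.pp ((CharP.cast_eq_zero_iff k p _).1 h6)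
  · rw [trK, WSumAux.act_sum]
    have h7 : ∀ x ∈ Finset.univ.filter (fun x => x ∈ N), act τ (cj x (e * w)) = 1 :=
      fun x hx => act_cj_one τ (hNT (Finset.mem_filter.1 hx).2) hactew
    rw [Finset.sum_congr rfl h7, Finset.sum_const, ← Nat.cast_smul_eq_nsmul k]
    congr 2
    rw [Nat.card_eq_fintype_card, Fintype.card_subtype]

theorem act_smul' [Finite A] {T : Subgroup A} {V : Type*} [AddCommGroup V] [Module k V]
    (ρ : Representation k T V) (c : k) (a : MonoidAlgebra k A) :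
    act ρ (c • a) = c • act ρ a := by
  have : Fintype T := Fintype.ofFinite T
  ext v
  rw [LinearMap.smul_apply, act_apply, act_apply, Finset.smul_sum]
  refine Finset.sum_congr rfl (fun x _ => ?_)
  rw [coeff_smul_apply, smul_eq_mul, mul_smul]

/-- the lines of the elements of `K` contain invertible elements -/
theorem exists_tau [Fact p.Prime] [CharP k p] [IsAlgClosed k] [Fintype A] (h : Tri p N K e)
    {x : A} (hx : x ∈ K) :
    ∃ (T : Subgroup A) (hNT : N ≤ T), T ≤ K ∧ x ∈ T ∧ ∃ (m : ℕ) (τ : Rp k T m) (σ : Rp k N m),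
      (∀ (g : N) (v : Fin m → k), τ (Subgroup.inclusion hNT g) v = σ g v) ∧ Irr' σ ∧
      act τ e = 1 := by
  classical
  have hNT : N ≤ N ⊔ Subgroup.zpowers x := le_sup_left
  have hxT : x ∈ N ⊔ Subgroup.zpowers x :=
    (le_sup_right : Subgroup.zpowers x ≤ _) (Subgroup.mem_zpowers x)
  have hTK : N ⊔ Subgroup.zpowers x ≤ K := sup_le h.le (Subgroup.zpowers_le.2 hx)
  obtain ⟨n, δ, hδ, hδe⟩ := Rk.CardDZAux.exists_rep h.blk
  obtain ⟨m, τ, hτ, hov⟩ := exists_over hNT hδ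
  have hn := hTK.trans h.nm
  have hst : ∀ (t : A) (ht : t ∈ N ⊔ Subgroup.zpowers x), Iso (tw (hn ht) δ) δ := by
    intro t ht
    refine Rk.CardDZAux.unique_rep h.isDZ (hδ.tw (hn ht)) hδ ?_ hδe
    have h1 : cj t e = e := invBy_iff_cj.1 h.inv t (hTK ht)
    conv_lhs => rw [← h1]
    rw [Cy.DzOverAux.act_tw_cj, hδe]
  have hiso := Cy.iso_restrict hNT hn ⟨x, hxT, rfl⟩ hδ hst hτ hov
  refine ⟨_, hNT, hTK, hxT, m, τ, τ.comp (Subgroup.inclusion hNT), fun _ _ => rfl,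
    Cy.ExtAux.irr_of_iso hiso hδ, ?_⟩
  rw [over_blk hτ hδ hov h.blk.suppIn (h.inv.mono hTK) h.blk.idem]
  exact hδe

end LnBAux
theorem exists_ln [Fact p.Prime] [CharP k p] [IsAlgClosed k] [Fintype A] (h : Tri p N K e)
    {x : A} (hx : x ∈ K) :
    ∃ u ∈ Ln N e x, ∃ v ∈ Ln N e x⁻¹, u * v = e ∧ v * u = e := by
  obtain ⟨T, hNT, hTK, hxT, m, τ, σ, hσ, hirr, hτe⟩ := LnBAux.exists_tau h hx
  obtain ⟨u, hu, c, hc, huc⟩ := LnBAux.exists_u h hNT hTK hσ hirr hτe hxT
  obtain ⟨v, hv, d, hd, hvd⟩ := LnBAux.exists_u h hNT hTK hσ hirr hτe (T.inv_mem hxT)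
  have hxi : x⁻¹ ∈ K := K.inv_mem hx
  have huT : SuppIn T u := by
    intro z hz
    have h1 := T.mul_mem (hNT ((mem_Ln.1 hu).1 z hz)) hxT
    rwa [inv_mul_cancel_right] at h1
  have hvT : SuppIn T v := by
    intro z hz
    have h1 := T.mul_mem (hNT ((mem_Ln.1 hv).1 z hz)) (T.inv_mem hxT)
    rwa [inv_mul_cancel_right] at h1
  have huv : u * v ∈ Ln N e 1 := by
    have := Ln_mul h hx hu hv
    rwa [mul_inv_cancel] at this
  have hvu : v * u ∈ Ln N e 1 := by
    have := Ln_mul h hxi hv hu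
    rwa [inv_mul_cancel] at this
  have hone : ∀ w ∈ Ln N e 1, ∃ μ : k, w = μ • e := by
    intro w hw
    refine h.scalar (fun z hz => ?_) (mem_Ln.1 hw).2.1 (mem_Ln.1 hw).2.2
    have := (mem_Ln.1 hw).1 z hz
    rwa [inv_one, mul_one] at this
  have := hirr.nontriv
  have hval : ∀ w ∈ Ln N e 1, act τ w = (c * d) • 1 → w = (c * d) • e := by
    intro w hw hact
    obtain ⟨μ, hμ⟩ := hone w hw
    have h1 : act τ w = μ • 1 := by
      rw [hμ, LnBAux.act_smul', hτe]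
    rw [h1] at hact
    obtain ⟨v₀, hv₀⟩ := exists_ne (0 : Fin m → k)
    have h2 := LinearMap.congr_fun hact v₀
    change μ • v₀ = (c * d) • v₀ at h2
    rw [hμ, smul_left_injective k hv₀ h2]
  have h1 : u * v = (c * d) • e := by
    apply hval _ huv
    rw [act_mul _ huT, huc, hvd, smul_mul_smul_comm, mul_one]
  have h2 : v * u = (c * d) • e := by
    apply hval _ hvu
    rw [act_mul _ hvT, huc, hvd, smul_mul_smul_comm, mul_one, mul_comm]
  have hcd : c * d ≠ 0 := mul_ne_zero hc hd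
  refine ⟨u, hu, (c * d)⁻¹ • v, Submodule.smul_mem _ _ hv, ?_, ?_⟩
  · rw [mul_smul_comm, h1, smul_smul, inv_mul_cancel₀ hcd, one_smul]
  · rw [smul_mul_assoc, h2, smul_smul, inv_mul_cancel₀ hcd, one_smul]

namespace LnBAux

theorem lu_spec [Fact p.Prime] [CharP k p] [IsAlgClosed k] [Fintype A] (h : Tri p N K e)
    {x : A} (hx : x ∈ K) :
    lu N e x ∈ Ln N e x ∧ ∃ v ∈ Ln N e x⁻¹, lu N e x * v = e ∧ v * lu N e x = e := by
  have h1 := exists_ln h hx
  have h2 : lu N e x = h1.choose := dif_pos h1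
  rw [h2]
  exact h1.choose_spec

theorem lv_spec [Fact p.Prime] [CharP k p] [IsAlgClosed k] [Fintype A] (h : Tri p N K e)
    {x : A} (hx : x ∈ K) :
    lv N e x ∈ Ln N e x⁻¹ ∧ lu N e x * lv N e x = e ∧ lv N e x * lu N e x = e := by
  have h1 := (lu_spec h hx).2
  have h2 : lv N e x = h1.choose := dif_pos h1
  rw [h2]
  exact h1.choose_spec

end LnBAux

theorem lu_mem [Fact p.Prime] [CharP k p] [IsAlgClosed k] [Fintype A] (h : Tri p N K e)
    {x : A} (hx : x ∈ K) : lu N e x ∈ Ln N e x := (LnBAux.lu_spec h hx).1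

theorem lv_mem [Fact p.Prime] [CharP k p] [IsAlgClosed k] [Fintype A] (h : Tri p N K e)
    {x : A} (hx : x ∈ K) : lv N e x ∈ Ln N e x⁻¹ := (LnBAux.lv_spec h hx).1

theorem lu_mul_lv [Fact p.Prime] [CharP k p] [IsAlgClosed k] [Fintype A] (h : Tri p N K e)
    {x : A} (hx : x ∈ K) : lu N e x * lv N e x = e := (LnBAux.lv_spec h hx).2.1

theorem lv_mul_lu [Fact p.Prime] [CharP k p] [IsAlgClosed k] [Fintype A] (h : Tri p N K e)
    {x : A} (hx : x ∈ K) : lv N e x * lu N e x = e := (LnBAux.lv_spec h hx).2.2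

namespace LnBAux

theorem line_lu [Fact p.Prime] [CharP k p] [IsAlgClosed k] [Fintype A] (h : Tri p N K e)
    {x : A} (hx : x ∈ K) {u : MonoidAlgebra k A} (hu : u ∈ Ln N e x) :
    ∃ c : k, u = c • lu N e x := by
  have h1 : lv N e x * u ∈ Ln N e 1 := by
    have := Ln_mul h (K.inv_mem hx) (lv_mem h hx) hu
    rwa [inv_mul_cancel] at this
  obtain ⟨c, hc⟩ := h.scalar (fun z hz => by
    have := (mem_Ln.1 h1).1 z hz
    rwa [inv_one, mul_one] at this) (mem_Ln.1 h1).2.1 (mem_Ln.1 h1).2.2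
  refine ⟨c, ?_⟩
  calc u = e * u := (mem_Ln.1 hu).2.2.symm
    _ = lu N e x * (lv N e x * u) := by rw [← mul_assoc, lu_mul_lv h hx]
    _ = c • (lu N e x * e) := by rw [hc, mul_smul_comm]
    _ = c • lu N e x := by rw [Ln_mul_e h hx (lu_mem h hx)]

end LnBAux

theorem ln_line [Fact p.Prime] [CharP k p] [IsAlgClosed k] [Fintype A] (h : Tri p N K e)
    {x : A} (hx : x ∈ K) {u u' : MonoidAlgebra k A} (hu : u ∈ Ln N e x) (hne : u ≠ 0)
    (hu' : u' ∈ Ln N e x) : ∃ c : k, u' = c • u := by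
  obtain ⟨a, ha⟩ := LnBAux.line_lu h hx hu
  obtain ⟨b, hb⟩ := LnBAux.line_lu h hx hu'
  have ha0 : a ≠ 0 := by
    intro h0
    rw [h0, zero_smul] at ha
    exact hne ha
  refine ⟨b * a⁻¹, ?_⟩
  rw [ha, hb, smul_smul, mul_assoc, inv_mul_cancel₀ ha0, mul_one]

theorem ln_inv [Fact p.Prime] [CharP k p] [IsAlgClosed k] [Fintype A] (h : Tri p N K e)
    {x : A} (hx : x ∈ K) {u : MonoidAlgebra k A} (hu : u ∈ Ln N e x) (hne : u ≠ 0) :
    ∃ v ∈ Ln N e x⁻¹, u * v = e ∧ v * u = e := by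
  obtain ⟨a, ha⟩ := LnBAux.line_lu h hx hu
  have ha0 : a ≠ 0 := by
    intro h0
    rw [h0, zero_smul] at ha
    exact hne ha
  refine ⟨a⁻¹ • lv N e x, Submodule.smul_mem _ _ (lv_mem h hx), ?_, ?_⟩
  · rw [ha, smul_mul_smul_comm, mul_inv_cancel₀ ha0, one_smul, lu_mul_lv h hx]
  · rw [ha, smul_mul_smul_comm, inv_mul_cancel₀ ha0, one_smul, lv_mul_lu h hx]

theorem ln_conj (h : Tri p N K e) {x : A} (hx : x ∈ K) {u v b : MonoidAlgebra k A}
    (hu : u ∈ Ln N e x) (huv : u * v = e) (hb : InvBy N b) (hbe : b * e = b) :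
    u * b * v = cj x b := by
  have h1 : single x (1 : k) * (single x⁻¹ (1 : k) * u) = u := by
    rw [← mul_assoc, single_mul_single, mul_inv_cancel, mul_one, ← MonoidAlgebra.one_def, one_mul]
  have h2 : SuppIn N (single x⁻¹ (1 : k) * u) := by
    intro z hz
    rw [coeff_single_mul_apply, one_mul, inv_inv] at hz
    have e1 := (mem_Ln.1 hu).1 _ hz
    have e2 := (Subgroup.mem_normalizer_iff.1 (h.nm (K.inv_mem hx)) _).1 e1
    have e3 : x⁻¹ * (x * z * x⁻¹) * x⁻¹⁻¹ = z := by group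
    rwa [e3] at e2
  have h3 : single x⁻¹ (1 : k) * u * b = b * (single x⁻¹ (1 : k) * u) := commute_of h2 hb
  have h4 : single x (1 : k) * b = cj x b * single x (1 : k) := by
    ext z
    rw [coeff_single_mul_apply, coeff_mul_single_apply, coeff_cj, one_mul, mul_one]
    congr 1
    group
  calc u * b * v = single x (1 : k) * (single x⁻¹ (1 : k) * u * b) * v := by
        conv_lhs => rw [← h1]
        simp only [mul_assoc]
    _ = single x (1 : k) * b * (single x⁻¹ (1 : k) * u) * v := by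
        rw [h3]; simp only [mul_assoc]
    _ = cj x b * (single x (1 : k) * (single x⁻¹ (1 : k) * u)) * v := by
        rw [h4]; simp only [mul_assoc]
    _ = cj x b * (u * v) := by rw [h1, mul_assoc]
    _ = cj x b := by
        have e1 : cj x e = e := invBy_iff_cj.1 h.inv x hx
        rw [huv]
        conv_lhs => rw [← e1]
        rw [← cj_mul, hbe]

end Pool.Agent.Lib.P0c8ca5.Ps
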