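import Mathlib
import Pool.Agent.Lib.P0c8ca5S.LnB

/-!
# Module Cm: the commutators

`cm N e x y = cj x (lu N e y) * lv N e y`, and by `ln_conj` this is
`lu x * lu y * lv x * lv y` (`cm_four`).

1. `cm_eq`: the choice of `u`, `v` in the lines of `y`, `y⁻¹` with `u v = e` does not matter: by `ln_line`
   `u = c • lu y`, `v = d • lv y` and `c * d = 1` as `c d • e = e ≠ 0`.
2. `cm_mem`: `Ln_cj`, `Ln_mul`.
3. `cm_mul_left`: `cj (x x') u * v = cj x (cj x' u * v * u) * v` (`v * u = e`, `cj x' u * e = cj x' u` by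
   `Ln_mul_e`) `= cj x (cj x' u * v) * (cj x u * v)`.
4. `cm_mul_right`: use `u_y u_y'` and `v_y' v_y` for `y y'` (`cm_eq`), and `ln_conj` for
   `u_y * cm x y' * v_y = cj y (cm x y')`.
5. `cm_self`: `cj x u = u * u * v = u` for `u = lu x` (`ln_conj` with `b = u`).
6. `cm_swap`: with `cm_four`.
7. `cm_pow`: `cj r u = u` for `u = lu r` (5.), so `cj (r ^ i) (u ^ m) = u ^ m`, and `r ^ j = r ^ m` with
   `m : ℕ` (finite group); `u ^ m`, `v ^ m` are in the lines of `r ^ m`, `(r ^ m)⁻¹` for `m ≠ 0`.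
8. `cm_cj`: `cj g u`, `cj g v` are in the lines of `g y g⁻¹`, `(g y g⁻¹)⁻¹`.
-/

namespace Pool.Agent.Lib.P0c8ca5.Ps

open MonoidAlgebra

variable {p : ℕ} {k : Type*} [Field k] {A : Type*} [Group A] {N K : Subgroup A}
  {e : MonoidAlgebra k A}

namespace CmAux

theorem inv_assoc (y : A) (g : A) : g * y⁻¹ * g⁻¹ = (g * y * g⁻¹)⁻¹ := by group

theorem cj_e (h : Tri p N K e) {x : A} (hx : x ∈ K) : cj x e = e := invBy_iff_cj.1 h.inv x hx

theorem e_mul {x : A} {u : MonoidAlgebra k A} (hu : u ∈ Ln N e x) : e * u = u :=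
  (mem_Ln.1 hu).2.2

theorem lu_ne [Fact p.Prime] [CharP k p] [IsAlgClosed k] [Fintype A] (h : Tri p N K e)
    {y : A} (hy : y ∈ K) : lu N e y ≠ 0 := by
  intro h0
  have h1 := lu_mul_lv h hy
  rw [h0, zero_mul] at h1
  exact h.blk.ne_zero h1.symm

theorem lv_ne [Fact p.Prime] [CharP k p] [IsAlgClosed k] [Fintype A] (h : Tri p N K e)
    {y : A} (hy : y ∈ K) : lv N e y ≠ 0 := by
  intro h0
  have h1 := lu_mul_lv h hy
  rw [h0, mul_zero] at h1
  exact h.blk.ne_zero h1.symm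

end CmAux

open CmAux

theorem cm_eq [Fact p.Prime] [CharP k p] [IsAlgClosed k] [Fintype A] (h : Tri p N K e)
    {x y : A} (hx : x ∈ K) (hy : y ∈ K) {u v : MonoidAlgebra k A} (hu : u ∈ Ln N e y)
    (hv : v ∈ Ln N e y⁻¹) (huv : u * v = e) : cj x u * v = cm N e x y := by
  obtain ⟨c, hc⟩ := ln_line h hy (lu_mem h hy) (lu_ne h hy) hu
  obtain ⟨d, hd⟩ := ln_line h (K.inv_mem hy) (lv_mem h hy) (lv_ne h hy) hv
  have h0 : u * v = (c * d) • e := by
    rw [hc, hd, smul_mul_smul_comm, lu_mul_lv h hy]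
  have h1 : (c * d) • e = e := by rw [← h0, huv]
  have h2 : c * d = 1 := by
    have h3 : (c * d - 1) • e = 0 := by rw [sub_smul, h1, one_smul, sub_self]
    rcases smul_eq_zero.1 h3 with h4 | h4
    · exact sub_eq_zero.1 h4
    · exact (h.blk.ne_zero h4).elim
  rw [hc, hd, cj_smul, smul_mul_smul_comm, h2, one_smul, cm]

theorem cm_mem [Fact p.Prime] [CharP k p] [IsAlgClosed k] [Fintype A] (h : Tri p N K e)
    {x y : A} (hx : x ∈ K) (hy : y ∈ K) : cm N e x y ∈ Ln N e (x * y * x⁻¹ * y⁻¹) := by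
  rw [cm]
  exact Ln_mul h (K.mul_mem (K.mul_mem hx hy) (K.inv_mem hx)) (Ln_cj h hx (lu_mem h hy))
    (lv_mem h hy)

theorem cm_ne_zero [Fact p.Prime] [CharP k p] [IsAlgClosed k] [Fintype A] (h : Tri p N K e)
    {x y : A} (hx : x ∈ K) (hy : y ∈ K) : cm N e x y ≠ 0 := by
  intro h0
  have h1 : cm N e x y * (lu N e y * cj x (lv N e y)) = e := by
    calc cm N e x y * (lu N e y * cj x (lv N e y))
        = cj x (lu N e y) * (lv N e y * lu N e y) * cj x (lv N e y) := by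
          rw [cm]; simp only [mul_assoc]
      _ = cj x (lu N e y) * cj x e * cj x (lv N e y) := by rw [lv_mul_lu h hy, cj_e h hx]
      _ = cj x (lu N e y * e * lv N e y) := by rw [cj_mul, cj_mul]
      _ = e := by rw [Ln_mul_e h hy (lu_mem h hy), lu_mul_lv h hy, cj_e h hx]
  rw [h0, zero_mul] at h1
  exact h.blk.ne_zero h1.symm

theorem cm_four [Fact p.Prime] [CharP k p] [IsAlgClosed k] [Fintype A] (h : Tri p N K e)
    {x y : A} (hx : x ∈ K) (hy : y ∈ K) :
    cm N e x y = lu N e x * lu N e y * lv N e x * lv N e y := by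
  rw [cm, ln_conj h hx (lu_mem h hx) (lu_mul_lv h hx) (mem_Ln.1 (lu_mem h hy)).2.1
    (Ln_mul_e h hy (lu_mem h hy))]

theorem cm_mul_left [Fact p.Prime] [CharP k p] [IsAlgClosed k] [Fintype A] (h : Tri p N K e)
    {x x' y : A} (hx : x ∈ K) (hx' : x' ∈ K) (hy : y ∈ K) :
    cm N e (x * x') y = cj x (cm N e x' y) * cm N e x y := by
  calc cm N e (x * x') y = cj x (cj x' (lu N e y)) * (e * lv N e y) := by
        rw [cm, cj_cj, e_mul (lv_mem h hy)]
    _ = cj x (cj x' (lu N e y)) * (cj x (lv N e y * lu N e y) * lv N e y) := by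
        rw [lv_mul_lu h hy, cj_e h hx]
    _ = cj x (cm N e x' y) * cm N e x y := by
        rw [cm, cm, cj_mul, cj_mul]; simp only [mul_assoc]

theorem cm_mul_right [Fact p.Prime] [CharP k p] [IsAlgClosed k] [Fintype A] (h : Tri p N K e)
    {x y y' : A} (hx : x ∈ K) (hy : y ∈ K) (hy' : y' ∈ K) :
    cm N e x (y * y') = cm N e x y * cj y (cm N e x y') := by
  have hm : lv N e y' * lv N e y ∈ Ln N e (y * y')⁻¹ := by
    rw [mul_inv_rev]
    exact Ln_mul h (K.inv_mem hy') (lv_mem h hy') (lv_mem h hy)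
  have h1 : lu N e y * lu N e y' * (lv N e y' * lv N e y) = e := by
    calc lu N e y * lu N e y' * (lv N e y' * lv N e y)
        = lu N e y * (lu N e y' * lv N e y') * lv N e y := by simp only [mul_assoc]
      _ = e := by rw [lu_mul_lv h hy', Ln_mul_e h hy (lu_mem h hy), lu_mul_lv h hy]
  have h2 := cm_eq h hx (K.mul_mem hy hy') (Ln_mul h hy (lu_mem h hy) (lu_mem h hy')) hm h1
  have hmm := cm_mem h hx hy'
  have hcK : x * y' * x⁻¹ * y'⁻¹ ∈ K :=
    K.mul_mem (K.mul_mem (K.mul_mem hx hy') (K.inv_mem hx)) (K.inv_mem hy')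
  have h3 := ln_conj h hy (lu_mem h hy) (lu_mul_lv h hy) (mem_Ln.1 hmm).2.1
    (Ln_mul_e h hcK hmm)
  have hyK : x * y * x⁻¹ ∈ K := K.mul_mem (K.mul_mem hx hy) (K.inv_mem hx)
  rw [← h2, ← h3, cj_mul]
  calc cj x (lu N e y) * cj x (lu N e y') * (lv N e y' * lv N e y)
      = cj x (lu N e y) * (cj x (lu N e y') * lv N e y') * lv N e y := by
        simp only [mul_assoc]
    _ = cj x (lu N e y) * e * cm N e x y' * lv N e y := by
        rw [Ln_mul_e h hyK (Ln_cj h hx (lu_mem h hy)), cm]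
    _ = cj x (lu N e y) * (lv N e y * lu N e y) * cm N e x y' * lv N e y := by
        rw [lv_mul_lu h hy]
    _ = cm N e x y * (lu N e y * cm N e x y' * lv N e y) := by
        conv_rhs => rw [cm]
        simp only [mul_assoc]

theorem cm_self [Fact p.Prime] [CharP k p] [IsAlgClosed k] [Fintype A] (h : Tri p N K e)
    {x : A} (hx : x ∈ K) : cm N e x x = e := by
  have h1 := ln_conj h hx (lu_mem h hx) (lu_mul_lv h hx) (mem_Ln.1 (lu_mem h hx)).2.1
    (Ln_mul_e h hx (lu_mem h hx))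
  rw [cm, ← h1, mul_assoc (lu N e x) (lu N e x) (lv N e x), lu_mul_lv h hx,
    Ln_mul_e h hx (lu_mem h hx), lu_mul_lv h hx]

theorem cm_swap [Fact p.Prime] [CharP k p] [IsAlgClosed k] [Fintype A] (h : Tri p N K e)
    {x y : A} (hx : x ∈ K) (hy : y ∈ K) : cm N e x y * cm N e y x = e := by
  rw [cm_four h hx hy, cm_four h hy hx]
  calc lu N e x * lu N e y * lv N e x * lv N e y * (lu N e y * lu N e x * lv N e y * lv N e x)
      = lu N e x * lu N e y * (lv N e x * (lv N e y * lu N e y)) * lu N e x * lv N e y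
        * lv N e x := by simp only [mul_assoc]
    _ = lu N e x * (lu N e y * (lv N e x * lu N e x)) * lv N e y * lv N e x := by
        rw [lv_mul_lu h hy, Ln_mul_e h (K.inv_mem hx) (lv_mem h hx)]; simp only [mul_assoc]
    _ = lu N e x * (lu N e y * lv N e y) * lv N e x := by
        rw [lv_mul_lu h hx, Ln_mul_e h hy (lu_mem h hy)]; simp only [mul_assoc]
    _ = e := by rw [lu_mul_lv h hy, Ln_mul_e h hx (lu_mem h hx), lu_mul_lv h hx]

theorem cm_one_left [Fact p.Prime] [CharP k p] [IsAlgClosed k] [Fintype A] (h : Tri p N K e)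
    {y : A} (hy : y ∈ K) : cm N e 1 y = e := by
  rw [cm, cj_one_left, lu_mul_lv h hy]

namespace CmAux

theorem cm_mul_e [Fact p.Prime] [CharP k p] [IsAlgClosed k] [Fintype A] (h : Tri p N K e)
    {x y : A} (hx : x ∈ K) (hy : y ∈ K) : cm N e x y * e = cm N e x y :=
  Ln_mul_e h (K.mul_mem (K.mul_mem (K.mul_mem hx hy) (K.inv_mem hx)) (K.inv_mem hy))
    (cm_mem h hx hy)

theorem cm_one_right [Fact p.Prime] [CharP k p] [IsAlgClosed k] [Fintype A] (h : Tri p N K e)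
    {x : A} (hx : x ∈ K) : cm N e x 1 = e := by
  have h1 : e ∈ Ln N e (1 : A)⁻¹ := by rw [inv_one]; exact e_mem_Ln h
  rw [← cm_eq h hx K.one_mem (e_mem_Ln h) h1 h.blk.idem, cj_e h hx, h.blk.idem]

theorem cm_npow [Fact p.Prime] [CharP k p] [IsAlgClosed k] [Fintype A] (h : Tri p N K e)
    {x r : A} (hx : x ∈ K) (hr : r ∈ K) (hxr : cm N e x r = e) (n : ℕ) :
    cm N e x (r ^ n) = e := by
  induction n with
  | zero => rw [pow_zero]; exact cm_one_right h hx
  | succ n ih =>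
    rw [pow_succ, cm_mul_right h hx (K.pow_mem hr n) hr, ih, hxr, cj_e h (K.pow_mem hr n),
      h.blk.idem]

theorem cm_inv_right [Fact p.Prime] [CharP k p] [IsAlgClosed k] [Fintype A] (h : Tri p N K e)
    {x y : A} (hx : x ∈ K) (hy : y ∈ K) (hxy : cm N e x y = e) : cm N e x y⁻¹ = e := by
  have h1 := cm_mul_right h hx hy (K.inv_mem hy)
  rw [mul_inv_cancel, cm_one_right h hx, hxy] at h1
  have h2 : e * cj y (cm N e x y⁻¹) = cj y (cm N e x y⁻¹) := by
    have h3 := cj_mul y e (cm N e x y⁻¹)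
    rw [e_mul (cm_mem h hx (K.inv_mem hy)), cj_e h hy] at h3
    exact h3.symm
  rw [h2] at h1
  have h4 := congrArg (cj y⁻¹) h1
  rw [cj_cj, inv_mul_cancel, cj_one_left, cj_e h (K.inv_mem hy)] at h4
  exact h4.symm

theorem cm_zpow [Fact p.Prime] [CharP k p] [IsAlgClosed k] [Fintype A] (h : Tri p N K e)
    {x r : A} (hx : x ∈ K) (hr : r ∈ K) (hxr : cm N e x r = e) (j : ℤ) :
    cm N e x (r ^ j) = e := by
  obtain ⟨n, rfl | rfl⟩ := j.eq_nat_or_neg
  · rw [zpow_natCast]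
    exact cm_npow h hx hr hxr n
  · rw [zpow_neg, zpow_natCast]
    exact cm_inv_right h hx (K.pow_mem hr n) (cm_npow h hx hr hxr n)

end CmAux

theorem cm_pow [Fact p.Prime] [CharP k p] [IsAlgClosed k] [Fintype A] (h : Tri p N K e)
    {r : A} (hr : r ∈ K) (i j : ℤ) : cm N e (r ^ i) (r ^ j) = e := by
  have hi : r ^ i ∈ K := K.zpow_mem hr i
  have h1 : cm N e r (r ^ i) = e := cm_zpow h hr hr (cm_self h hr) i
  have h2 := cm_swap h hi hr
  rw [h1, cm_mul_e h hi hr] at h2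
  exact cm_zpow h hi hr h2 j

theorem cm_cj [Fact p.Prime] [CharP k p] [IsAlgClosed k] [Fintype A] (h : Tri p N K e)
    {g x y : A} (hg : g ∈ K) (hx : x ∈ K) (hy : y ∈ K) :
    cj g (cm N e x y) = cm N e (g * x * g⁻¹) (g * y * g⁻¹) := by
  have hgx : g * x * g⁻¹ ∈ K := K.mul_mem (K.mul_mem hg hx) (K.inv_mem hg)
  have hgy : g * y * g⁻¹ ∈ K := K.mul_mem (K.mul_mem hg hy) (K.inv_mem hg)
  have h1 : cj g (lv N e y) ∈ Ln N e (g * y * g⁻¹)⁻¹ := by
    rw [← inv_assoc]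
    exact Ln_cj h hg (lv_mem h hy)
  have h2 : cj g (lu N e y) * cj g (lv N e y) = e := by
    rw [← cj_mul, lu_mul_lv h hy, cj_e h hg]
  rw [← cm_eq h hgx hgy (Ln_cj h hg (lu_mem h hy)) h1 h2, cj_cj, cm, cj_mul, cj_cj]
  congr 2
  group

end Pool.Agent.Lib.P0c8ca5.Ps
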