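import Mathlib
import Pool.Agent.Lib.P0c8ca5S.Cm
import Pool.Agent.Lib.P0c8ca5.DGN

/-!
# Module Tra: the Brauer map and the lines

`P ≤ K` a p-group, `br P a = resS C(P) a`.

1. `tri_br`: `(C_N(P), N_K(P), Br_P(e))` is again a triple.  `IsBlock` is `dgn_a` with `L = N`, `D = P`
   (`Tri.isDZ`, `N ⊓ P = ⊥` because `N` is a p'-group, `HasBr P e` because `e.coeff 1 ≠ 0`,
   `Tri.coeff_one`), the others: `resS_invBy`, `N_K(P)` normalizes `C(P)` and `N`.
2. `ln_invBy`: for `c ∈ K ⊓ C(P)` the elements of the line of `c` are fixed by `P`: for `g ∈ P`, `cj g u`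
   is in the line of `g c g⁻¹ = c`, so `cj g u = l • u` (`ln_line`) and `l ^ p ^ n = 1` as
   `g ^ p ^ n = 1`; so `l = 1` in characteristic `p` (`(l - 1) ^ p ^ n = 0`).
3. `br_Ln`: `Br_P(u)` is in the line of `c` for the new triple: if its coefficient at `z` is not zero then
   `z ∈ C(P)`, `z * c⁻¹ ∈ N ⊓ C(P)`; `Br_P(e) * Br_P(u) = Br_P(e * u)` (`resS_mul`).  It is not zero:
   with `v` from `ln_inv`, `Br_P(u) Br_P(v) = Br_P(e) ≠ 0`.
4. `br_cm`: `cm_eq` for the new triple with `Br_P(lu c)`, `Br_P(lv c)`; `Br_P (cj x u) = cj x (Br_P u)` for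
   `x ∈ N(P)` (`br_cj`).
-/

namespace Pool.Agent.Lib.P0c8ca5.Ps

open MonoidAlgebra

variable {p : ℕ} {k : Type*} [Field k] {A : Type*} [Group A] {N K : Subgroup A}
  {e : MonoidAlgebra k A}

/-- the Brauer map -/
noncomputable def br (P : Subgroup A) (a : MonoidAlgebra k A) : MonoidAlgebra k A :=
  resS (Subgroup.centralizer (P : Set A) : Set A) a

private theorem mem_cent_conj {P : Subgroup A} {g : A} (hg : g ∈ Subgroup.normalizer (P : Set A))
    {c : A} (hc : c ∈ Subgroup.centralizer (P : Set A)) :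
    g * c * g⁻¹ ∈ Subgroup.centralizer (P : Set A) := by
  rw [Subgroup.mem_centralizer_iff] at hc ⊢
  intro d hd
  have h1 : g⁻¹ * d * g ∈ P := by
    have := (Subgroup.mem_normalizer_iff.1 ((Subgroup.normalizer (P : Set A)).inv_mem hg) d).1 hd
    simpa using this
  have h2 := hc _ h1
  calc d * (g * c * g⁻¹) = g * ((g⁻¹ * d * g) * c) * g⁻¹ := by group
    _ = g * (c * (g⁻¹ * d * g)) * g⁻¹ := by rw [h2]
    _ = g * c * g⁻¹ * d := by group

private theorem norm_le_norm_cent (P : Subgroup A) : Subgroup.normalizer (P : Set A) ≤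
    Subgroup.normalizer ((Subgroup.centralizer (P : Set A) : Subgroup A) : Set A) := by
  intro g hg
  rw [Subgroup.mem_normalizer_iff]
  intro c
  constructor
  · intro h
    exact mem_cent_conj hg h
  · intro h
    have h1 := mem_cent_conj ((Subgroup.normalizer (P : Set A)).inv_mem hg) h
    have e1 : g⁻¹ * (g * c * g⁻¹) * g⁻¹⁻¹ = c := by group
    rwa [e1] at h1

theorem br_cj {P : Subgroup A} {x : A} (hx : x ∈ Subgroup.normalizer (P : Set A))
    (a : MonoidAlgebra k A) : br P (cj x a) = cj x (br P a) := by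
  ext y
  rw [coeff_cj]
  unfold br
  have h1 : y ∈ (Subgroup.centralizer (P : Set A) : Set A) ↔
      x⁻¹ * y * x ∈ (Subgroup.centralizer (P : Set A) : Set A) := by
    have h := Subgroup.mem_normalizer_iff.1 (norm_le_norm_cent P hx) (x⁻¹ * y * x)
    have e1 : x * (x⁻¹ * y * x) * x⁻¹ = y := by group
    rw [e1] at h
    exact h.symm
  by_cases hy : y ∈ (Subgroup.centralizer (P : Set A) : Set A)
  · rw [coeff_resS_of_mem _ hy, coeff_resS_of_mem _ (h1.1 hy), coeff_cj]
  · rw [coeff_resS_of_notMem _ hy, coeff_resS_of_notMem _ (fun h => hy (h1.2 h))]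

theorem tri_br [Fact p.Prime] [CharP k p] [IsAlgClosed k] [Fintype A] (h : Tri p N K e)
    {P : Subgroup A} (hPK : P ≤ K) (hP : IsPGroup p P) :
    Tri p (N ⊓ Subgroup.centralizer (P : Set A)) (K ⊓ Subgroup.normalizer (P : Set A))
      (br P e) := by
  have hNP : N ⊓ P = ⊥ := by
    rw [eq_bot_iff]
    intro x hx
    rw [Subgroup.mem_bot]
    have hxN : x ∈ N := (Subgroup.mem_inf.1 hx).1
    have hxP : x ∈ P := (Subgroup.mem_inf.1 hx).2
    obtain ⟨n, hn⟩ := hP ⟨x, hxP⟩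
    have hn' : x ^ p ^ n = 1 := congrArg Subtype.val hn
    have h1 : orderOf x ∣ p ^ n := orderOf_dvd_of_pow_eq_one hn'
    have h2 : orderOf x ∣ Nat.card N := by
      have := orderOf_dvd_natCard (⟨x, hxN⟩ : N)
      rwa [Subgroup.orderOf_mk] at this
    have h3 : Nat.Coprime (p ^ n) (Nat.card N) :=
      ((Nat.Prime.coprime_iff_not_dvd (Fact.out : p.Prime)).2 h.pp).pow_left n
    have h4 : orderOf x = 1 := Nat.eq_one_of_dvd_coprimes h3 h1 h2
    exact orderOf_eq_one_iff.1 h4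
  refine ⟨?_, ?_, ?_, ?_, ?_⟩
  · exact le_inf (inf_le_left.trans h.le)
      (inf_le_right.trans (Subgroup.centralizer_le_normalizer _))
  · intro g hg
    obtain ⟨hgK, hgP⟩ := Subgroup.mem_inf.1 hg
    have h1 := Subgroup.mem_normalizer_iff.1 (h.nm hgK)
    have h2 := Subgroup.mem_normalizer_iff.1 (norm_le_norm_cent P hgP)
    rw [Subgroup.mem_normalizer_iff]
    intro x
    rw [Subgroup.mem_inf, Subgroup.mem_inf]
    exact and_congr (h1 x) (h2 x)
  · intro h1
    exact h.pp (h1.trans (Subgroup.card_dvd_of_le inf_le_left))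
  · exact (dgn_a hP (hPK.trans h.nm) hNP h.isDZ (h.inv.mono hPK)
      ⟨1, Subgroup.one_mem _, h.coeff_one⟩).blk
  · exact resS_invBy (inf_le_right.trans (norm_le_norm_cent P)) (h.inv.mono inf_le_left)

theorem ln_invBy [Fact p.Prime] [CharP k p] [IsAlgClosed k] [Fintype A] (h : Tri p N K e)
    {P : Subgroup A} (hPK : P ≤ K) (hP : IsPGroup p P) {c : A} (hc : c ∈ K)
    (hcP : c ∈ Subgroup.centralizer (P : Set A)) {u : MonoidAlgebra k A} (hu : u ∈ Ln N e c) :
    InvBy P u := by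
  by_cases hu0 : u = 0
  · rw [hu0]
    intro g _ x
    rfl
  rw [invBy_iff_cj]
  intro g hg
  have hgc : g * c * g⁻¹ = c := by
    have := Subgroup.mem_centralizer_iff.1 hcP g hg
    rw [this]; group
  have h1 := Ln_cj h (hPK hg) hu
  rw [hgc] at h1
  obtain ⟨l, hl⟩ := ln_line h hc hu hu0 h1
  have h2 : ∀ m : ℕ, cj (g ^ m) u = l ^ m • u := by
    intro m
    induction m with
    | zero => rw [pow_zero, pow_zero, cj_one_left, one_smul]
    | succ m ih =>
      rw [pow_succ, ← cj_cj, hl, cj_smul, ih, smul_smul, pow_succ, mul_comm]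
  obtain ⟨n, hn⟩ := hP ⟨g, hg⟩
  have hn' : g ^ p ^ n = 1 := congrArg Subtype.val hn
  have h3 := h2 (p ^ n)
  rw [hn', cj_one_left] at h3
  have h4 : (1 - l ^ p ^ n) • u = 0 := by
    rw [sub_smul, one_smul, ← h3, sub_self]
  have h5 : 1 - l ^ p ^ n = 0 := (smul_eq_zero.1 h4).resolve_right hu0
  have h6 : (1 - l) ^ p ^ n = 0 := by
    rw [sub_pow_char_pow, one_pow, h5]
  have h7 : 1 - l = 0 := by
    by_contra hne
    exact (pow_ne_zero _ hne) h6
  have h8 : l = 1 := (sub_eq_zero.1 h7).symm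
  rw [hl, h8, one_smul]

theorem br_Ln [Fact p.Prime] [CharP k p] [IsAlgClosed k] [Fintype A] (h : Tri p N K e)
    {P : Subgroup A} (hPK : P ≤ K) (hP : IsPGroup p P) {c : A} (hc : c ∈ K)
    (hcP : c ∈ Subgroup.centralizer (P : Set A)) {u : MonoidAlgebra k A} (hu : u ∈ Ln N e c) :
    br P u ∈ Ln (N ⊓ Subgroup.centralizer (P : Set A)) (br P e) c := by
  have hui := ln_invBy h hPK hP hc hcP hu
  rw [mem_Ln] at hu ⊢
  refine ⟨fun z hz => ?_, ?_, ?_⟩
  · by_cases hzC : z ∈ (Subgroup.centralizer (P : Set A) : Set A)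
    · unfold br at hz
      rw [coeff_resS_of_mem _ hzC] at hz
      exact Subgroup.mem_inf.2 ⟨hu.1 z hz,
        (Subgroup.centralizer (P : Set A)).mul_mem hzC ((Subgroup.centralizer (P : Set A)).inv_mem hcP)⟩
    · exact absurd (coeff_resS_of_notMem _ hzC) hz
  · exact resS_invBy (inf_le_right.trans Subgroup.le_normalizer) (hu.2.1.mono inf_le_left)
  · unfold br
    rw [← resS_mul hP (h.inv.mono hPK) hui, hu.2.2]

theorem br_ne_zero [Fact p.Prime] [CharP k p] [IsAlgClosed k] [Fintype A] (h : Tri p N K e)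
    {P : Subgroup A} (hPK : P ≤ K) (hP : IsPGroup p P) {c : A} (hc : c ∈ K)
    (hcP : c ∈ Subgroup.centralizer (P : Set A)) {u : MonoidAlgebra k A} (hu : u ∈ Ln N e c)
    (hne : u ≠ 0) : br P u ≠ 0 := by
  obtain ⟨v, hv, huv, -⟩ := ln_inv h hc hu hne
  have hui := ln_invBy h hPK hP hc hcP hu
  have hvi := ln_invBy h hPK hP (K.inv_mem hc)
    ((Subgroup.centralizer (P : Set A)).inv_mem hcP) hv
  intro h0
  have h1 : br P e = br P u * br P v := by
    unfold br
    rw [← resS_mul hP hui hvi, huv]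
  rw [h0, zero_mul] at h1
  exact (tri_br h hPK hP).blk.ne_zero h1

theorem br_cm [Fact p.Prime] [CharP k p] [IsAlgClosed k] [Fintype A] (h : Tri p N K e)
    {P : Subgroup A} (hPK : P ≤ K) (hP : IsPGroup p P) {x c : A} (hx : x ∈ K)
    (hxP : x ∈ Subgroup.normalizer (P : Set A)) (hc : c ∈ K)
    (hcP : c ∈ Subgroup.centralizer (P : Set A)) :
    br P (cm N e x c) = cm (N ⊓ Subgroup.centralizer (P : Set A)) (br P e) x c := by
  have hlu := lu_mem h hc
  have hlv := lv_mem h hc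
  have huv := lu_mul_lv h hc
  have hciP := (Subgroup.centralizer (P : Set A)).inv_mem hcP
  have hui := ln_invBy h hPK hP hc hcP hlu
  have hvi := ln_invBy h hPK hP (K.inv_mem hc) hciP hlv
  have hxu := Ln_cj h hx hlu
  have hxui := ln_invBy h hPK hP (K.mul_mem (K.mul_mem hx hc) (K.inv_mem hx))
    (mem_cent_conj hxP hcP) hxu
  have h1 : br P (lu N e c) * br P (lv N e c) = br P e := by
    unfold br
    rw [← resS_mul hP hui hvi, huv]
  have h2 : br P (cm N e x c) = cj x (br P (lu N e c)) * br P (lv N e c) := by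
    rw [← br_cj hxP]
    unfold br cm
    rw [resS_mul hP hxui hvi]
  rw [h2]
  exact cm_eq (tri_br h hPK hP) (Subgroup.mem_inf.2 ⟨hx, hxP⟩)
    (Subgroup.mem_inf.2 ⟨hc, Subgroup.centralizer_le_normalizer _ hcP⟩)
    (br_Ln h hPK hP hc hcP hlu) (br_Ln h hPK hP (K.inv_mem hc) hciP hlv) h1

end Pool.Agent.Lib.P0c8ca5.Ps
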