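import Mathlib
import Pool.Agent.Lib.P0c8ca5S.LnA
import Pool.Agent.Lib.P0c8ca5C.DzDown
import Pool.Agent.Lib.P0c8ca5C.InflW

/-!
# Module Wgt: the weights of `(K, e)` and of `(N_K(P), Br_P(e))`

`N` is a normal p'-subgroup of `K`, `e` a `K`-invariant block of `N`, `P ≤ K` a p-group with `N P` normal
in `K`, `H = N_K(P)`, `e_P = Br_P(e)`.

PROOF.  Let `Q ≤ K` be a p-group with `dz(N_K(Q)/Q, e) ≠ ∅`.  Then `Q ∩ N P` is a Sylow subgroup of
`N P`, so a conjugate of `P` under `N`: let `P' ≥ Q ∩ N P` be a Sylow subgroup of `N P` normalized by `Q`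
(intersection with `N P` of a Sylow subgroup of `Q N P` containing `Q`).  If `Q ∩ P' < P'` then `Q < Q P'`
and there is `z ∈ N_(P')(Q)`, `z ∉ Q`.  Let `f` be in `dz(N_K(Q)/Q, e)`, `M` the image of `N_(NP)(Q)` in
`N_K(Q)/Q`, `g` a block of `M` with `f g ≠ 0`: `g` has defect zero (`dz_down`).  `ē = proj Q e`
(`= proj Q (Br_Q e)`) is a block idempotent of the image of `C_N(Q) = N_N(Q)` (`dgn_a`, `Tri.isDZ`, and
`N ∩ Q = 1`), it is a block of `M` as well (p-group quotient, `isBlock_up'`), `g = ē`, and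
`ē.coeff 1 ≠ 0` (`Tri.coeff_one` for the image of `C_N(Q)`) shows `HasBr V ē` for all subgroups `V`:
contradiction to defect zero for the p-group `V` generated by the image of `z`.
So `Ws p K e` is the sum over the `Q` such that `Q ∩ N P` is a conjugate of `P`; all these conjugates are
conjugate under `K`, there are `|K : H|` of them, and `Ws p K e = |K : H| ∑ |N_K(Q)| |dz(N_K(Q)/Q, e)|`,
the sum over the `Q` with `Q ∩ N P = P`.  For these `Q`: `N_K(Q) = N_H(Q)` and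
`proj Q e = proj Q (Br_P e)`.  In `H` the weights of `e_P` have `Q ≥ P` (`radical`), and then
`Q ∩ N P = P` (`P` is a Sylow subgroup of `N P`).
-/

namespace Pool.Agent.Lib.P0c8ca5.Ps

open MonoidAlgebra

variable {p : ℕ} {k : Type*} [Field k] {A : Type*} [Group A]

namespace WgtAux

theorem inf_bot [Fact p.Prime] [Finite A] {N D : Subgroup A} (hN : ¬ p ∣ Nat.card N)
    (hD : IsPGroup p D) : N ⊓ D = ⊥ := by
  rw [eq_bot_iff]
  intro x hx
  obtain ⟨hxN, hxD⟩ := Subgroup.mem_inf.1 hx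
  obtain ⟨n, hn⟩ := hD ⟨x, hxD⟩
  have h1 : x ^ p ^ n = 1 := congrArg Subtype.val hn
  have h2 : x ^ Nat.card N = 1 := by
    have h3 : (⟨x, hxN⟩ : N) ^ Nat.card N = 1 := pow_card_eq_one'
    exact congrArg Subtype.val h3
  have hcop : Nat.Coprime (p ^ n) (Nat.card N) :=
    Nat.Coprime.pow_left n (((Fact.out : p.Prime).coprime_iff_not_dvd).2 hN)
  rw [Subgroup.mem_bot, ← orderOf_eq_one_iff]
  exact Nat.eq_one_of_dvd_coprimes hcop (orderOf_dvd_of_pow_eq_one h1)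
    (orderOf_dvd_of_pow_eq_one h2)

/-- an element of `N` normalizing `Q` centralizes `Q` -/
theorem mem_cent {N Q : Subgroup A} (hQN : Q ≤ Subgroup.normalizer (N : Set A))
    (hNQ : N ⊓ Q = ⊥) {x : A} (hx : x ∈ N) (hxQ : x ∈ Subgroup.normalizer (Q : Set A)) :
    x ∈ Subgroup.centralizer (Q : Set A) := by
  rw [Subgroup.mem_centralizer_iff]
  intro q hq
  have h1 : x * q * x⁻¹ ∈ Q := (Subgroup.mem_normalizer_iff.1 hxQ q).1 hq
  have h2 : q * x⁻¹ * q⁻¹ ∈ N := (Subgroup.mem_normalizer_iff.1 (hQN hq) x⁻¹).1 (N.inv_mem hx)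
  have h3 : x * q * x⁻¹ * q⁻¹ ∈ N ⊓ Q := by
    refine Subgroup.mem_inf.2 ⟨?_, Q.mul_mem h1 (Q.inv_mem hq)⟩
    have h4 := N.mul_mem hx h2
    have e1 : x * (q * x⁻¹ * q⁻¹) = x * q * x⁻¹ * q⁻¹ := by group
    rwa [e1] at h4
  rw [hNQ, Subgroup.mem_bot] at h3
  have h5 : x * q = q * x := by
    calc x * q = x * q * x⁻¹ * q⁻¹ * (q * x) := by group
      _ = q * x := by rw [h3, one_mul]
  exact h5.symm

theorem exists_isoN {N Q : Subgroup A} (hQN : Q ≤ Subgroup.normalizer (N : Set A))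
    (hNQ : N ⊓ Q = ⊥) :
    ∃ ψ : ↥(N ⊓ Subgroup.centralizer (Q : Set A)) ≃* ↥(sec N Q),
      ∀ (x : A) (hx : x ∈ N ⊓ Subgroup.centralizer (Q : Set A))
        (hxQ : x ∈ Subgroup.normalizer (Q : Set A)),
        ((ψ ⟨x, hx⟩ : ↥(sec N Q)) : NQ Q) = qm Q x hxQ := by
  have hle : N ⊓ Subgroup.centralizer (Q : Set A) ≤ Subgroup.normalizer (Q : Set A) :=
    inf_le_right.trans (Subgroup.centralizer_le_normalizer _)
  let α : ↥(N ⊓ Subgroup.centralizer (Q : Set A)) →* A := Subgroup.subtype _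
  let β : ↥(N ⊓ Subgroup.centralizer (Q : Set A)) →* NQ Q :=
    (QuotientGroup.mk' _).comp (Subgroup.inclusion hle)
  have hβ : ∀ x, β x = qm Q x (hle x.2) := fun x => rfl
  obtain ⟨ψ, hψ⟩ := exists_iso_of_ker (C₁ := N ⊓ Subgroup.centralizer (Q : Set A))
    (C₂ := sec N Q) α β
    (fun x => by
      rw [hβ, qm_eq_one_iff]
      constructor
      · intro h
        have h1 : (x : A) = 1 := h
        rw [h1]
        exact Q.one_mem
      · intro h
        have h1 : (x : A) ∈ N ⊓ Q := Subgroup.mem_inf.2 ⟨(Subgroup.mem_inf.1 x.2).1, h⟩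
        rw [hNQ, Subgroup.mem_bot] at h1
        exact h1)
    (Subgroup.range_subtype _)
    (by
      ext w
      rw [MonoidHom.mem_range, mem_sec]
      constructor
      · rintro ⟨x, rfl⟩
        exact ⟨x, (Subgroup.mem_inf.1 x.2).1, hle x.2, rfl⟩
      · rintro ⟨g, hg, hg', rfl⟩
        exact ⟨⟨g, Subgroup.mem_inf.2 ⟨hg, mem_cent hQN hNQ hg hg'⟩⟩, rfl⟩)
  exact ⟨ψ, fun x hx hxQ => hψ ⟨x, hx⟩ ⟨x, hx⟩ rfl⟩

/-- the coefficients of `proj Q e` -/
theorem coeff_proj_N [Fintype A] {N Q : Subgroup A} (hNQ : N ⊓ Q = ⊥) {e : MonoidAlgebra k A}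
    (he : SuppIn N e) {x : A} (hx : x ∈ N) (hxQ : x ∈ Subgroup.normalizer (Q : Set A)) :
    (proj Q e).coeff (qm Q x hxQ) = e.coeff x := by
  classical
  rw [coeff_proj, Finset.sum_eq_single x]
  · rw [if_pos]
    rw [inv_mul_cancel]
    exact Q.one_mem
  · intro y _ hy
    split_ifs with h
    · by_contra h0
      have h1 : x⁻¹ * y ∈ N ⊓ Q :=
        Subgroup.mem_inf.2 ⟨N.mul_mem (N.inv_mem hx) (he y h0), h⟩
      rw [hNQ, Subgroup.mem_bot] at h1
      exact hy (inv_mul_eq_one.1 h1).symm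
    · rfl
  · intro h
    exact absurd (Finset.mem_univ _) h

theorem coeff_proj_one [Fintype A] {N Q : Subgroup A} (hNQ : N ⊓ Q = ⊥)
    {e : MonoidAlgebra k A} (he : SuppIn N e) : (proj Q e).coeff 1 = e.coeff 1 :=
  coeff_proj_N hNQ he N.one_mem (Subgroup.one_mem _)

theorem tr_proj_N [Fintype A] {N Q : Subgroup A} (hQN : Q ≤ Subgroup.normalizer (N : Set A))
    (hNQ : N ⊓ Q = ⊥) {e : MonoidAlgebra k A} (he : SuppIn N e)
    {ψ : ↥(N ⊓ Subgroup.centralizer (Q : Set A)) ≃* ↥(sec N Q)}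
    (hψ : ∀ (x : A) (hx : x ∈ N ⊓ Subgroup.centralizer (Q : Set A))
        (hxQ : x ∈ Subgroup.normalizer (Q : Set A)),
        ((ψ ⟨x, hx⟩ : ↥(sec N Q)) : NQ Q) = qm Q x hxQ) :
    tr ψ (resS (Subgroup.centralizer (Q : Set A) : Set A) e) = proj Q e := by
  ext y
  by_cases hy : y ∈ sec N Q
  · obtain ⟨n, hn, hn', rfl⟩ := mem_sec.1 hy
    have hc : n ∈ N ⊓ Subgroup.centralizer (Q : Set A) :=
      Subgroup.mem_inf.2 ⟨hn, mem_cent hQN hNQ hn hn'⟩
    rw [coeff_proj_N hNQ he hn hn', ← hψ n hc hn', coeff_tr,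
      coeff_resS_of_mem _ (Subgroup.mem_inf.1 hc).2]
  · rw [coeff_tr_of_notMem _ _ hy]
    by_contra h
    exact hy (proj_suppIn he Q y (Ne.symm h))

/-- `proj Q e` is a block of the image of `N` -/
theorem isBlock_proj [Fact p.Prime] [CharP k p] [IsAlgClosed k] [Fintype A]
    {N K Q : Subgroup A} {e : MonoidAlgebra k A} (h : Tri p N K e) (hQK : Q ≤ K)
    (hQ : IsPGroup p Q) : IsBlock (sec N Q) (proj Q e) := by
  have hNQ : N ⊓ Q = ⊥ := inf_bot h.pp hQ
  have hQN : Q ≤ Subgroup.normalizer (N : Set A) := hQK.trans h.nm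
  obtain ⟨ψ, hψ⟩ := exists_isoN hQN hNQ
  rw [← tr_proj_N hQN hNQ h.blk.suppIn hψ]
  apply tr_isBlock
  exact (dgn_a hQ hQN hNQ h.isDZ (h.inv.mono hQK)
    ⟨1, Subgroup.one_mem _, h.coeff_one⟩).blk

/-- every p-subgroup of `N P` has at most the order of `P` -/
theorem card_le_of_sup [Fact p.Prime] [Finite A] {N P D : Subgroup A}
    (hN : ¬ p ∣ Nat.card N) (hP : IsPGroup p P) (hPN : P ≤ Subgroup.normalizer (N : Set A))
    (hD : IsPGroup p D) (hDP : D ≤ N ⊔ P) : Nat.card D ≤ Nat.card P := by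
  have hDN : D ≤ Subgroup.normalizer (N : Set A) := hDP.trans (sup_le_normalizer hPN)
  have h1 := card_sup_disj hDN (inf_bot hN hD)
  have h2 := card_sup_disj hPN (inf_bot hN hP)
  have h3 : Nat.card ↥(N ⊔ D) ≤ Nat.card ↥(N ⊔ P) :=
    Nat.le_of_dvd Nat.card_pos (Subgroup.card_dvd_of_le (sup_le le_sup_left hDP))
  rw [h1, h2] at h3
  exact Nat.le_of_mul_le_mul_left h3 Nat.card_pos

theorem isPGroup_sup [Fact p.Prime] {Q R : Subgroup A} (hRQ : R ≤ Subgroup.normalizer (Q : Set A))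
    (hQ : IsPGroup p Q) (hpR : IsPGroup p R) : IsPGroup p (Q ⊔ R : Subgroup A) := by
  intro x
  obtain ⟨n, hn⟩ := pquot_sup hRQ hpR x x.2
  obtain ⟨m, hm⟩ := hQ ⟨(x : A) ^ p ^ n, hn⟩
  refine ⟨n + m, Subtype.ext ?_⟩
  have h2 : ((x : A) ^ p ^ n) ^ p ^ m = 1 := congrArg Subtype.val hm
  change (x : A) ^ p ^ (n + m) = 1
  rw [pow_add, pow_mul, h2]

/-- the intersection of a normal subgroup with a Sylow subgroup -/
theorem exists_syl [Fact p.Prime] [Finite A] {N P K Q : Subgroup A}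
    (hN : ¬ p ∣ Nat.card N) (hNK : N ≤ K) (hKN : K ≤ Subgroup.normalizer (N : Set A))
    (hPK : P ≤ K) (hP : IsPGroup p P)
    (hNP : K ≤ Subgroup.normalizer ((N ⊔ P : Subgroup A) : Set A)) (hQK : Q ≤ K)
    (hQ : IsPGroup p Q) :
    ∃ P' : Subgroup A, IsPGroup p P' ∧ Q ⊓ (N ⊔ P) ≤ P' ∧ P' ≤ N ⊔ P ∧
      Q ≤ Subgroup.normalizer (P' : Set A) ∧ ∃ g ∈ K, P' = cg g P := by
  have hPN := hPK.trans hKN
  have hMK : (N ⊔ P) ⊔ Q ≤ K := sup_le (sup_le hNK hPK) hQK
  obtain ⟨S₀, hS₀⟩ := exists_isSyl (p := p) ((N ⊔ P) ⊔ Q)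
  obtain ⟨g₀, hg₀, hQS⟩ := hS₀.conj Q le_sup_right hQ
  have hSle : cg g₀ S₀ ≤ (N ⊔ P) ⊔ Q := by
    have h1 := cg_le_cg (g := g₀) hS₀.le
    rwa [cg_of_mem hg₀] at h1
  have hSp : IsPGroup p (cg g₀ S₀) := isPGroup_cg hS₀.isPGroup
  set S := cg g₀ S₀ with hS
  refine ⟨S ⊓ (N ⊔ P), hSp.to_le inf_le_left, inf_le_inf_right _ hQS, inf_le_right, ?_, ?_⟩
  · intro q hq
    rw [← cg_eq_self_iff, cg_inf, cg_of_mem (hQS hq), cg_eq_self_iff.2 (hNP (hQK hq))]
  · obtain ⟨g, hg, hgP⟩ := hS₀.conj P (le_sup_right.trans le_sup_left) hP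
    -- `P ≤ cg g S₀ = cg (g * g₀⁻¹) S`
    have h1 : cg (g * g₀⁻¹) S = cg g S₀ := by
      rw [hS, cg_cg, inv_mul_cancel_right]
    have hxK : g * g₀⁻¹ ∈ K := hMK (Subgroup.mul_mem _ hg (Subgroup.inv_mem _ hg₀))
    have h2 : P ≤ cg (g * g₀⁻¹) (S ⊓ (N ⊔ P)) := by
      rw [cg_inf, h1, cg_eq_self_iff.2 (hNP hxK)]
      exact le_inf hgP le_sup_right
    have h3 : P = cg (g * g₀⁻¹) (S ⊓ (N ⊔ P)) := by
      apply eq_of_le_of_card h2
      rw [card_cg]
      exact card_le_of_sup hN hP hPN (hSp.to_le inf_le_left) inf_le_right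
    refine ⟨(g * g₀⁻¹)⁻¹, K.inv_mem hxK, ?_⟩
    conv_rhs => rw [h3]
    rw [cg_cg, inv_mul_cancel, cg_one]

/-- the subgroups with a weight of `e` contain a Sylow subgroup of `N P` -/
theorem weight_inf [Fact p.Prime] [CharP k p] [IsAlgClosed k] [Fintype A]
    {N K P Q : Subgroup A} {e : MonoidAlgebra k A} (h : Tri p N K e) (hPK : P ≤ K)
    (hP : IsPGroup p P) (hNP : K ≤ Subgroup.normalizer ((N ⊔ P : Subgroup A) : Set A))
    (hQK : Q ≤ K) (hQ : IsPGroup p Q) {f : MonoidAlgebra k (NQ Q)}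
    (hf : IsDZ p (sec K Q) f) (hfe : f * proj Q e = f) :
    ∃ g ∈ K, Q ⊓ (N ⊔ P) = cg g P := by
  have : Fintype (NQ Q) := Fintype.ofFinite _
  obtain ⟨P', hP', hQP', hP'le, hQn, g, hg, hgP⟩ :=
    exists_syl h.pp h.le h.nm hPK hP hNP hQK hQ
  refine ⟨g, hg, ?_⟩
  by_cases hcon : P' ≤ Q
  · rw [← hgP]
    exact le_antisymm hQP' (le_inf hcon hP'le)
  exfalso
  have hSp : IsPGroup p (P' ⊔ Q : Subgroup A) := isPGroup_sup hQn hP' hQ
  have hne : Q ≠ P' ⊔ Q := by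
    intro h1
    apply hcon
    rw [h1]
    exact le_sup_left
  obtain ⟨x, hx, hxN, hxQ⟩ := exists_norm_growth hSp le_sup_right hne
  obtain ⟨z, hz, q, hq, rfl⟩ := (mem_sup_norm hQn).1 hx
  have hzN : z ∈ Subgroup.normalizer (Q : Set A) := by
    have h1 := (Subgroup.normalizer (Q : Set A)).mul_mem hxN
      ((Subgroup.normalizer (Q : Set A)).inv_mem (Subgroup.le_normalizer hq))
    have e1 : z * q * q⁻¹ = z := by group
    rwa [e1] at h1
  have hzQ : z ∉ Q := fun h1 => hxQ (Q.mul_mem h1 hq)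
  -- the block of the image of `N P`
  have hNPK : N ⊔ P ≤ K := sup_le h.le hPK
  have hb0 : IsBlock (sec N Q) (proj Q e) := isBlock_proj h hQK hQ
  have hinvK : InvBy (sec K Q) (proj Q e) := proj_invBy' h.inv
  have hb1 : IsBlock (sec (N ⊔ P) Q) (proj Q e) := by
    refine isBlock_up' (p := p) (sec_mono le_sup_left)
      (Cy.HypAux.sec_norm (hNPK.trans h.nm) Q) ?_ hb0 (hinvK.mono (sec_mono hNPK))
    intro w hw
    obtain ⟨y, hy, hy', rfl⟩ := mem_sec.1 hw
    obtain ⟨n, hn⟩ := pquot_sup (hPK.trans h.nm) hP y hy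
    refine ⟨n, ?_⟩
    rw [← qm_pow hy' _ ((Subgroup.normalizer (Q : Set A)).pow_mem hy' _)]
    exact qm_mem_sec _ hn
  have hd : IsDZ p (sec (N ⊔ P) Q) (proj Q e) := by
    refine Cy.dz_down (sec_mono hNPK) (Cy.HypAux.sec_norm hNP Q) hf hb1 ?_
    rw [hfe]
    exact hf.blk.ne_zero
  -- the p-group generated by the image of `z`
  have hVle : Subgroup.zpowers (qm Q z hzN) ≤ sec (N ⊔ P) Q := by
    rw [Subgroup.zpowers_le]
    exact qm_mem_sec hzN (hP'le hz)
  have hVp : IsPGroup p (Subgroup.zpowers (qm Q z hzN)) := by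
    have h1 : Subgroup.zpowers (qm Q z hzN) ≤ sec P' Q := by
      rw [Subgroup.zpowers_le]
      exact qm_mem_sec hzN hz
    exact (isPGroup_sec hP').to_le h1
  have hbr : HasBr (Subgroup.zpowers (qm Q z hzN)) (proj Q e) := by
    refine ⟨1, Subgroup.one_mem _, ?_⟩
    rw [coeff_proj_one (inf_bot h.pp hQ) h.blk.suppIn]
    exact h.coeff_one
  have hbot := hd.dz _ hVle hVp hbr
  rw [Subgroup.zpowers_eq_bot, qm_eq_one_iff] at hbot
  exact hzQ hbot

/-- the projections of `c` and of `Br_P(c)` -/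
theorem proj_resS [Fact p.Prime] [CharP k p] [Fintype A] {P Q : Subgroup A} (hP : IsPGroup p P)
    {c : MonoidAlgebra k A} (hc : InvBy P c) (hPQ : P ≤ Q) :
    proj Q (resS (Subgroup.centralizer (P : Set A) : Set A) c) = proj Q c := by
  classical
  ext w
  obtain ⟨n, hn, rfl⟩ := qm_surj w
  rw [coeff_proj, coeff_proj]
  rw [sum_conj_eq (p := p) hP (fun x => if n⁻¹ * x ∈ Q then c.coeff x else 0) ?_
    (Finset.univ.filter (fun x => x ∈ Subgroup.centralizer (P : Set A))) (fun x => by simp)]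
  · rw [Finset.sum_filter]
    refine Finset.sum_congr rfl (fun x _ => ?_)
    by_cases hx : x ∈ Subgroup.centralizer (P : Set A)
    · rw [if_pos hx, coeff_resS_of_mem _ hx]
    · rw [if_neg hx, coeff_resS_of_notMem _ hx]
      split_ifs <;> rfl
  · intro d hd x
    have hdQ : d ∈ Q := hPQ hd
    have h2 : n⁻¹ * d * n ∈ Q := by
      have h3 := (Subgroup.mem_normalizer_iff.1
        ((Subgroup.normalizer (Q : Set A)).inv_mem hn) d).1 hdQ
      rwa [inv_inv] at h3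
    have hcond : n⁻¹ * (d * x * d⁻¹) ∈ Q ↔ n⁻¹ * x ∈ Q := by
      have e1 : n⁻¹ * (d * x * d⁻¹) = (n⁻¹ * d * n) * (n⁻¹ * x) * d⁻¹ := by group
      rw [e1, Q.mul_mem_cancel_right (Q.inv_mem hdQ), Q.mul_mem_cancel_left h2]
    simp only [hcond]
    rw [hc d hd x]

/-- the number of the `x` in `K` with `cg g P = cg x P` -/
theorem card_conj [Fintype A] {K P : Subgroup A} {g : A} (hg : g ∈ K) (X : Finset A)
    (hX : ∀ x, x ∈ X ↔ x ∈ K ∧ cg g P = cg x P) :
    X.card = Nat.card ↥(K ⊓ Subgroup.normalizer (P : Set A)) := by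
  classical
  have hiff : ∀ x, cg g P = cg x P ↔ g⁻¹ * x ∈ Subgroup.normalizer (P : Set A) := by
    intro x
    rw [← cg_eq_self_iff, ← cg_cg]
    constructor
    · intro h1
      rw [← h1, cg_cg, inv_mul_cancel, cg_one]
    · intro h1
      have h2 := congrArg (cg g) h1
      rw [cg_cg, mul_inv_cancel, cg_one] at h2
      exact h2.symm
  rw [← Fintype.card_coe, ← Nat.card_eq_fintype_card]
  refine Nat.card_congr
    { toFun := fun x => ⟨g⁻¹ * x.1, ?_⟩
      invFun := fun y => ⟨g * y.1, ?_⟩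
      left_inv := ?_
      right_inv := ?_ }
  · obtain ⟨h1, h2⟩ := (hX _).1 x.2
    exact Subgroup.mem_inf.2 ⟨K.mul_mem (K.inv_mem hg) h1, (hiff _).1 h2⟩
  · obtain ⟨h1, h2⟩ := Subgroup.mem_inf.1 y.2
    refine (hX _).2 ⟨K.mul_mem hg h1, (hiff _).2 ?_⟩
    rwa [inv_mul_cancel_left]
  · intro x
    exact Subtype.ext (mul_inv_cancel_left _ _)
  · intro y
    exact Subtype.ext (inv_mul_cancel_left _ _)

end WgtAux

open WgtAux

/-- the weights of an idempotent `c` of `Z(kK)` under `e` -/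
theorem ws_eq_of [Fact p.Prime] [CharP k p] [IsAlgClosed k] [Fintype A] {N K : Subgroup A}
    {e c : MonoidAlgebra k A} (h : Tri p N K e) (hc : SuppIn K c) (hci : InvBy K c)
    (_hcc : c * c = c) (hec : e * c = c) {P : Subgroup A} (hPK : P ≤ K) (hP : IsPGroup p P)
    (hNP : K ≤ Subgroup.normalizer ((N ⊔ P : Subgroup A) : Set A)) :
    Fr.Ws p K c * Nat.card ↥(K ⊓ Subgroup.normalizer (P : Set A))
      = Nat.card K * Fr.Ws p (K ⊓ Subgroup.normalizer (P : Set A))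
          (resS (Subgroup.centralizer (P : Set A) : Set A) c) := by
  classical
  have hPN : P ≤ Subgroup.normalizer (N : Set A) := hPK.trans h.nm
  let T : Subgroup A → ℕ := fun Q => Nat.card ↥(K ⊓ Subgroup.normalizer (Q : Set A))
      * Nat.card {f : MonoidAlgebra k (NQ Q) | IsDZ p (sec K Q) f ∧ f * proj Q c = f}
  let S : Finset (Subgroup A) := Finset.univ.filter (fun Q => Q ≤ K ∧ IsPGroup p Q)
  have hS : ∀ Q, Q ∈ S ↔ Q ≤ K ∧ IsPGroup p Q := by
    intro Q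
    rw [Finset.mem_filter]
    exact ⟨fun h => h.2, fun h => ⟨Finset.mem_univ _, h⟩⟩
  have hWs : Fr.Ws p K c = ∑ Q ∈ S, T Q := rfl
  have hT : ∀ x ∈ K, ∀ Q, T (cg x Q) = T Q := by
    intro x hx Q
    change _ * _ = _ * _
    rw [card_cg_eq hc hci hx, ← cg_normalizer]
    congr 1
    have h1 : K ⊓ cg x (Subgroup.normalizer (Q : Set A))
        = cg x (K ⊓ Subgroup.normalizer (Q : Set A)) := by
      rw [cg_inf, cg_of_mem hx]
    rw [h1, card_cg]
  -- the number of pairs, first way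
  have hA : ∀ x ∈ K, ∑ Q ∈ S, (if Q ⊓ (N ⊔ P) = cg x P then T Q else 0)
      = ∑ Q ∈ S, (if Q ⊓ (N ⊔ P) = P then T Q else 0) := by
    intro x hx
    have hxn : ∀ y ∈ K, cg y (N ⊔ P) = N ⊔ P := fun y hy => cg_eq_self_iff.2 (hNP hy)
    have hmem : ∀ y ∈ K, ∀ Q ∈ S, cg y Q ∈ S := by
      intro y hy Q hQ
      obtain ⟨h1, h2⟩ := (hS Q).1 hQ
      refine (hS _).2 ⟨?_, isPGroup_cg h2⟩
      have h3 := cg_le_cg (g := y) h1
      rwa [cg_of_mem hy] at h3
    refine Finset.sum_bij' (fun Q _ => cg x⁻¹ Q) (fun Q _ => cg x Q)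
      (fun Q hQ => hmem _ (K.inv_mem hx) Q hQ) (fun Q hQ => hmem x hx Q hQ) ?_ ?_ ?_
    · intro Q _
      rw [cg_cg, mul_inv_cancel, cg_one]
    · intro Q _
      rw [cg_cg, inv_mul_cancel, cg_one]
    · intro Q _
      have h1 : Q ⊓ (N ⊔ P) = cg x P ↔ cg x⁻¹ Q ⊓ (N ⊔ P) = P := by
        have h2 : cg x⁻¹ Q ⊓ (N ⊔ P) = cg x⁻¹ (Q ⊓ (N ⊔ P)) := by
          rw [cg_inf, hxn _ (K.inv_mem hx)]
        rw [h2]
        constructor
        · intro h3
          rw [h3, cg_cg, inv_mul_cancel, cg_one]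
        · intro h3
          have h4 := congrArg (cg x) h3
          rwa [cg_cg, mul_inv_cancel, cg_one] at h4
      simp only [h1]
      rw [hT x⁻¹ (K.inv_mem hx) Q]
  let X : Finset A := Finset.univ.filter (fun x => x ∈ K)
  have hX : ∀ x, x ∈ X ↔ x ∈ K := by
    intro x
    rw [Finset.mem_filter]
    exact ⟨fun h => h.2, fun h => ⟨Finset.mem_univ _, h⟩⟩
  have hXcard : X.card = Nat.card K := by
    rw [← Fintype.card_coe, ← Nat.card_eq_fintype_card]
    exact Nat.card_congr (Equiv.subtypeEquivRight hX)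
  have hB : ∑ x ∈ X, ∑ Q ∈ S, (if Q ⊓ (N ⊔ P) = cg x P then T Q else 0)
      = Nat.card K * ∑ Q ∈ S, (if Q ⊓ (N ⊔ P) = P then T Q else 0) := by
    rw [Finset.sum_congr rfl (fun x hx => hA x ((hX x).1 hx)), Finset.sum_const, hXcard,
      smul_eq_mul]
  -- second way
  have hC : ∑ x ∈ X, ∑ Q ∈ S, (if Q ⊓ (N ⊔ P) = cg x P then T Q else 0)
      = Fr.Ws p K c * Nat.card ↥(K ⊓ Subgroup.normalizer (P : Set A)) := by
    rw [Finset.sum_comm, hWs, Finset.sum_mul]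
    refine Finset.sum_congr rfl (fun Q hQ => ?_)
    obtain ⟨hQK, hQp⟩ := (hS Q).1 hQ
    by_cases h0 : Nat.card {f : MonoidAlgebra k (NQ Q) |
        IsDZ p (sec K Q) f ∧ f * proj Q c = f} = 0
    · have h1 : T Q = 0 := by
        change _ * _ = _
        rw [h0, mul_zero]
      rw [h1, zero_mul]
      apply Finset.sum_eq_zero
      intro x _
      split_ifs <;> rfl
    · have h1 : ∃ f : MonoidAlgebra k (NQ Q), IsDZ p (sec K Q) f ∧ f * proj Q c = f := by
        by_contra hcon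
        push Not at hcon
        apply h0
        rw [Nat.card_eq_zero]
        left
        exact ⟨fun f => hcon f.1 f.2.1 f.2.2⟩
      obtain ⟨f, hf, hfc⟩ := h1
      have hfe : f * proj Q e = f := by
        have h2 : c * e = c := by rw [commute_of hc h.inv, hec]
        calc f * proj Q e = f * proj Q c * proj Q e := by rw [hfc]
          _ = f * proj Q (c * e) := by
            rw [proj_mul hQp (hci.mono hQK) (h.inv.mono hQK), mul_assoc]
          _ = f := by rw [h2, hfc]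
      obtain ⟨g, hg, hgP⟩ := weight_inf h hPK hP hNP hQK hQp hf hfe
      rw [hgP, ← Finset.sum_filter, Finset.sum_const, smul_eq_mul, mul_comm]
      congr 1
      apply card_conj hg
      intro x
      rw [Finset.mem_filter, hX]
  rw [← hC, hB]
  congr 1
  -- the weights of the normalizer
  have hH : P ≤ K ⊓ Subgroup.normalizer (P : Set A) := le_inf hPK Subgroup.le_normalizer
  rw [← Finset.sum_filter, Fr.Ws]
  symm
  have hsub : ∀ Q ∈ Finset.univ.filter (fun Q : Subgroup A =>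
      Q ≤ K ⊓ Subgroup.normalizer (P : Set A) ∧ IsPGroup p Q),
      Q ∉ S.filter (fun Q => Q ⊓ (N ⊔ P) = P) →
      Nat.card ↥((K ⊓ Subgroup.normalizer (P : Set A)) ⊓ Subgroup.normalizer (Q : Set A))
      * Nat.card {f : MonoidAlgebra k (NQ Q) |
        IsDZ p (sec (K ⊓ Subgroup.normalizer (P : Set A)) Q) f ∧
        f * proj Q (resS (Subgroup.centralizer (P : Set A) : Set A) c) = f} = 0 := by
    intro Q hQ hQ'
    rw [Finset.mem_filter] at hQ
    obtain ⟨-, hQH, hQp⟩ := hQ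
    have h1 : Nat.card {f : MonoidAlgebra k (NQ Q) |
        IsDZ p (sec (K ⊓ Subgroup.normalizer (P : Set A)) Q) f ∧
        f * proj Q (resS (Subgroup.centralizer (P : Set A) : Set A) c) = f} = 0 := by
      rw [Nat.card_eq_zero]
      left
      refine ⟨fun f => hQ' ?_⟩
      have hPQ : P ≤ Q := radical hH inf_le_right hP hQH hQp f.2.1
      rw [Finset.mem_filter, hS]
      refine ⟨⟨hQH.trans inf_le_left, hQp⟩, ?_⟩
      symm
      apply eq_of_le_of_card (le_inf hPQ le_sup_right)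
      exact card_le_of_sup h.pp hP hPN (hQp.to_le inf_le_left) inf_le_right
    rw [h1, mul_zero]
  have hle : S.filter (fun Q => Q ⊓ (N ⊔ P) = P) ⊆ Finset.univ.filter (fun Q : Subgroup A =>
      Q ≤ K ⊓ Subgroup.normalizer (P : Set A) ∧ IsPGroup p Q) := by
    intro Q hQ
    rw [Finset.mem_filter, hS] at hQ
    obtain ⟨⟨hQK, hQp⟩, hQP⟩ := hQ
    rw [Finset.mem_filter]
    refine ⟨Finset.mem_univ _, le_inf hQK ?_, hQp⟩
    intro q hq
    rw [← cg_eq_self_iff]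
    calc cg q P = cg q (Q ⊓ (N ⊔ P)) := by rw [hQP]
      _ = P := by rw [cg_inf, cg_of_mem hq, cg_eq_self_iff.2 (hNP (hQK hq)), hQP]
  rw [← Finset.sum_subset hle hsub]
  refine Finset.sum_congr rfl (fun Q hQ => ?_)
  rw [Finset.mem_filter, hS] at hQ
  obtain ⟨⟨hQK, hQp⟩, hQP⟩ := hQ
  -- the normalizers of `Q`
  have hnle : K ⊓ Subgroup.normalizer (Q : Set A) ≤ Subgroup.normalizer (P : Set A) := by
    intro x hx
    obtain ⟨hxK, hxQ⟩ := Subgroup.mem_inf.1 hx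
    rw [← cg_eq_self_iff]
    calc cg x P = cg x (Q ⊓ (N ⊔ P)) := by rw [hQP]
      _ = P := by rw [cg_inf, cg_eq_self_iff.2 hxQ, cg_eq_self_iff.2 (hNP hxK), hQP]
  have h1 : (K ⊓ Subgroup.normalizer (P : Set A)) ⊓ Subgroup.normalizer (Q : Set A)
      = K ⊓ Subgroup.normalizer (Q : Set A) := by
    apply le_antisymm
    · exact inf_le_inf_right _ inf_le_left
    · exact le_inf (le_inf inf_le_left hnle) inf_le_right
  have h2 : sec (K ⊓ Subgroup.normalizer (P : Set A)) Q = sec K Q := by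
    apply le_antisymm (sec_mono inf_le_left)
    intro w hw
    obtain ⟨x, hx, hx', rfl⟩ := mem_sec.1 hw
    exact qm_mem_sec _ (Subgroup.mem_inf.2 ⟨hx, hnle (Subgroup.mem_inf.2 ⟨hx, hx'⟩)⟩)
  have hPQ : P ≤ Q := by
    rw [← hQP]
    exact inf_le_left
  rw [h1, h2, proj_resS hP (hci.mono hPK) hPQ]

theorem ws_eq [Fact p.Prime] [CharP k p] [IsAlgClosed k] [Fintype A] {N K : Subgroup A}
    {e : MonoidAlgebra k A} (h : Tri p N K e) {P : Subgroup A} (hPK : P ≤ K) (hP : IsPGroup p P)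
    (hNP : K ≤ Subgroup.normalizer ((N ⊔ P : Subgroup A) : Set A)) :
    Fr.Ws p K e * Nat.card ↥(K ⊓ Subgroup.normalizer (P : Set A))
      = Nat.card K * Fr.Ws p (K ⊓ Subgroup.normalizer (P : Set A))
          (resS (Subgroup.centralizer (P : Set A) : Set A) e) :=
  ws_eq_of h (h.blk.suppIn.mono h.le) h.inv h.blk.idem h.blk.idem hPK hP hNP

end Pool.Agent.Lib.P0c8ca5.Ps
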