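import Mathlib
import Pool.Agent.Lib.P0c8ca5N.CopA
import Pool.Agent.Lib.P0c8ca5C.AxB

/-!
# Module Grp: the group theory of the chain argument

`P ≠ 1` is a p-group normalized by `R`, the commutators of elements of `R` centralize `P`, the
elements of `R` are p-regular modulo `C(P)`.

PROOF.  Let `P₁` be maximal among the proper subgroups of `P` that are normalized by `P` and `R`
(`⊥` is one).  `P / P₁` is elementary abelian (`Φ(P) P₁` is proper and normalized), `P` acts trivially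
on it and `R` irreducibly, through an abelian group.  Let `V = Additive (P / P₁)`, `E = AddMonoid.End V`,
`𝓔` the subring generated by the image of `R`: commutative (`Subring.closureCommRingOfComm`), and the
kernel of a nonzero element of `𝓔` is an `R`-invariant proper subgroup, so `0`; hence `𝓔` is a domain
and the image of `R` in its units is cyclic (`isCyclic_of_subgroup_isDomain`), say generated by the
image of `r`.  So every `s ∈ R` is `r ^ i * c` with `c ∈ R` acting trivially on `P / P₁`.  For such a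
`c`: `P = P₁ C_P(c)` by coprime action (`coprime_fix` in CopA, for the group `P ⋊ ⟨c⟩` or inside `A`; a
power of `c` that is the p-regular part of `c` modulo `C(P)` acts on `P` as `c`).
-/

namespace Pool.Agent.Lib.P0c8ca5.Ps

open scoped commutatorElement

namespace GrpAux

/-- a finite commutative group acting irreducibly on an abelian group acts as a cyclic group -/
theorem cyc {V G : Type*} [AddCommGroup V] [Nontrivial V] [Group G] [Finite G]
    (F : G →* AddMonoid.End V) (hcomm : ∀ g h, F g * F h = F h * F g)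
    (hirr : ∀ W : AddSubgroup V, (∀ g, ∀ v ∈ W, F g v ∈ W) → W = ⊥ ∨ W = ⊤) :
    ∃ g₀ : G, ∀ g, ∃ i : ℤ, F g = F (g₀ ^ i) := by
  classical
  set S : Set (AddMonoid.End V) := Set.range F with hS
  have hSc : ∀ a ∈ S, ∀ b ∈ S, a * b = b * a := by
    rintro _ ⟨a, rfl⟩ _ ⟨b, rfl⟩
    exact hcomm a b
  have hle : Subring.closure S ≤ Subring.centralizer S := by
    rw [Subring.closure_le]
    intro a ha
    exact Subring.mem_centralizer_iff.2 (fun b hb => hSc b hb a ha)
  have hc0 := Subring.isMulCommutative_closure hSc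
  let _ : CommRing (Subring.closure S) :=
    { (inferInstance : Ring (Subring.closure S)) with
      mul_comm := fun a b => hc0.is_comm.comm a b }
  have hker : ∀ e ∈ Subring.closure S, e ≠ 0 → ∀ v, e v = 0 → v = 0 := by
    intro e he hne v hv
    rcases hirr (AddMonoidHom.ker e) (by
      intro g w hw
      have hc : F g * e = e * F g := Subring.mem_centralizer_iff.1 (hle he) (F g) ⟨g, rfl⟩
      have hw' : e w = 0 := hw
      change e (F g w) = 0
      have h1 : (e * F g) w = (F g * e) w := by rw [hc]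
      have h2 : (F g * e) w = F g (e w) := rfl
      have h3 : (e * F g) w = e (F g w) := rfl
      rw [← h3, h1, h2, hw', map_zero]) with h | h
    · have h1 : v ∈ AddMonoidHom.ker e := hv
      rw [h] at h1
      exact (AddSubgroup.mem_bot).1 h1
    · exfalso
      apply hne
      ext w
      have h1 : w ∈ AddMonoidHom.ker e := by rw [h]; exact AddSubgroup.mem_top w
      exact h1
  have hnz : NoZeroDivisors (Subring.closure S) := by
    refine ⟨fun {a b} hab => ?_⟩
    by_contra hcon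
    rw [not_or] at hcon
    apply hcon.2
    apply Subtype.ext
    ext w
    refine hker a.1 a.2 (fun h => hcon.1 (Subtype.ext h)) _ ?_
    have h1 : (a.1 * b.1) w = 0 := by
      have h2 : a.1 * b.1 = 0 := congrArg Subtype.val hab
      rw [h2]
      rfl
    exact h1
  have hnt : Nontrivial (Subring.closure S) := by
    refine ⟨⟨0, 1, fun h => ?_⟩⟩
    obtain ⟨v, hv⟩ := exists_ne (0 : V)
    apply hv
    have h1 : (0 : AddMonoid.End V) = 1 := congrArg Subtype.val h
    have h2 : (1 : AddMonoid.End V) v = 0 := by rw [← h1]; rfl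
    exact h2
  have hdom : IsDomain (Subring.closure S) := NoZeroDivisors.to_isDomain _
  set U : Subgroup (AddMonoid.End V)ˣ := (MonoidHom.toHomUnits F).range with hU
  have hmemU : ∀ u : U, ((u : (AddMonoid.End V)ˣ) : AddMonoid.End V) ∈ Subring.closure S := by
    rintro ⟨_, ⟨g, rfl⟩⟩
    exact Subring.subset_closure ⟨g, rfl⟩
  let f : U →* Subring.closure S :=
    { toFun := fun u => ⟨((u : (AddMonoid.End V)ˣ) : AddMonoid.End V), hmemU u⟩
      map_one' := rfl
      map_mul' := fun a b => rfl }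
  have hf : Function.Injective f := by
    intro a b hab
    have h1 : ((a : (AddMonoid.End V)ˣ) : AddMonoid.End V) = ((b : (AddMonoid.End V)ˣ) : AddMonoid.End V) :=
      congrArg Subtype.val hab
    exact Subtype.ext (Units.ext h1)
  have hfin : Finite U := by
    rw [hU]
    exact Finite.of_surjective (MonoidHom.rangeRestrict (MonoidHom.toHomUnits F))
      (MonoidHom.rangeRestrict_surjective _)
  have hcyc : IsCyclic U := isCyclic_of_injective_ringHom f hf
  obtain ⟨⟨_, ⟨g₀, rfl⟩⟩, hg₀⟩ := hcyc.exists_generator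
  refine ⟨g₀, fun g => ?_⟩
  obtain ⟨i, hi⟩ := Subgroup.mem_zpowers_iff.1 (hg₀ ⟨MonoidHom.toHomUnits F g, ⟨g, rfl⟩⟩)
  refine ⟨i, ?_⟩
  have h1 : (MonoidHom.toHomUnits F g₀) ^ i = MonoidHom.toHomUnits F g := congrArg Subtype.val hi
  rw [← map_zpow] at h1
  have h2 := congrArg (fun u : (AddMonoid.End V)ˣ => (u : AddMonoid.End V)) h1
  exact h2.symm

/-- coprime action: an element acting trivially on `P / P₁` -/
theorem fix_step {p : ℕ} [Fact p.Prime] {A : Type*} [Group A] [Finite A] {P P₁ : Subgroup A}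
    (hP : IsPGroup p P) (hle : P₁ ≤ P) (hn : P ≤ Subgroup.normalizer (P₁ : Set A)) {c : A}
    (hcP : c ∈ Subgroup.normalizer (P : Set A)) (hcn : c ∈ Subgroup.normalizer (P₁ : Set A))
    (htriv : ∀ q ∈ P, q⁻¹ * (c⁻¹ * q * c) ∈ P₁)
    (hreg : ∃ m : ℕ, ¬ p ∣ m ∧ c ^ m ∈ Subgroup.centralizer (P : Set A)) :
    P ≤ P₁ ⊔ (P ⊓ Subgroup.centralizer ({c} : Set A)) := by
  obtain ⟨m, hm, hcm⟩ := hreg
  have hp : p.Prime := Fact.out
  have hn0 : orderOf c ≠ 0 := (orderOf_pos c).ne'
  have hcop : Nat.Coprime m (ordProj[p] (orderOf c)) :=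
    Nat.Coprime.pow_right _ ((Nat.Prime.coprime_iff_not_dvd hp).2 hm).symm
  obtain ⟨k, hk1, hk0⟩ := Nat.chineseRemainder hcop 1 0
  -- the p-regular part
  have hxp : Preg p (c ^ k) := by
    intro hd
    have h1 : (c ^ k) ^ (ordCompl[p] (orderOf c)) = 1 := by
      rw [← pow_mul, ← orderOf_dvd_iff_pow_eq_one]
      obtain ⟨j, hj⟩ := (Nat.modEq_zero_iff_dvd).1 hk0
      refine ⟨j, ?_⟩
      rw [hj]
      calc ordProj[p] (orderOf c) * j * ordCompl[p] (orderOf c)
          = ordProj[p] (orderOf c) * ordCompl[p] (orderOf c) * j := by ring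
        _ = orderOf c * j := by rw [Nat.ordProj_mul_ordCompl_eq_self]
    exact Nat.not_dvd_ordCompl hp hn0 (hd.trans (orderOf_dvd_of_pow_eq_one h1))
  obtain ⟨z, hz, hxz⟩ : ∃ z ∈ Subgroup.centralizer (P : Set A), c ^ k = c * z := by
    obtain ⟨j, hj⟩ := (Nat.modEq_iff_dvd.1 hk1)
    refine ⟨(c ^ m) ^ (-j), Subgroup.zpow_mem _ hcm _, ?_⟩
    rw [← zpow_natCast c m, ← zpow_mul, ← zpow_one_add, ← zpow_natCast c k]
    congr 1
    push_cast at hj
    linarith
  have hzc : ∀ q ∈ P, q * z = z * q := fun q hq => Subgroup.mem_centralizer_iff.1 hz q hq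
  have hxn : c ^ k ∈ Subgroup.normalizer (P₁ : Set A) := Subgroup.pow_mem _ hcn _
  intro q hq
  have hcq : c⁻¹ * q * c ∈ P := by
    have h1 := (Subgroup.mem_normalizer_iff.1 (Subgroup.inv_mem _ hcP) q).1 hq
    rwa [inv_inv] at h1
  have hxq : (c ^ k)⁻¹ * q * c ^ k = c⁻¹ * q * c := by
    rw [hxz]
    calc (c * z)⁻¹ * q * (c * z) = z⁻¹ * ((c⁻¹ * q * c) * z) := by group
      _ = z⁻¹ * (z * (c⁻¹ * q * c)) := by rw [hzc _ hcq]
      _ = c⁻¹ * q * c := by group
  set B : Subgroup A := Subgroup.normalizer (P₁ : Set A) with hB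
  have hPB : P₁ ≤ B := Subgroup.le_normalizer
  have hnorm : (P₁.subgroupOf B).Normal :=
    (Subgroup.normal_subgroupOf_iff_le_normalizer hPB).2 le_rfl
  have hPp : IsPGroup p (P₁.subgroupOf B) :=
    (hP.to_le hle).comap_of_injective _ B.subtype_injective
  have hqB : q ∈ B := hn hq
  have hxp' : Preg p (⟨c ^ k, hxn⟩ : B) := by
    unfold Preg
    rw [Subgroup.orderOf_mk]
    exact hxp
  have hmem : (⟨q, hqB⟩ : B)⁻¹ * ((⟨c ^ k, hxn⟩ : B)⁻¹ * ⟨q, hqB⟩ * ⟨c ^ k, hxn⟩)
      ∈ P₁.subgroupOf B := by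
    rw [Subgroup.mem_subgroupOf]
    change q⁻¹ * ((c ^ k)⁻¹ * q * c ^ k) ∈ P₁
    rw [hxq]
    exact htriv q hq
  obtain ⟨r, hr, hcr⟩ := coprime_fix (P₁.subgroupOf B) hPp hxp' hmem
  rw [Subgroup.mem_subgroupOf] at hr
  have hcr' : q * (r : A) * c ^ k = c ^ k * (q * (r : A)) := congrArg Subtype.val hcr
  have hqr : q * (r : A) ∈ P := P.mul_mem hq (hle hr)
  have h1 : q * (r : A) * c = c * (q * (r : A)) := by
    rw [hxz] at hcr'
    have h2 : q * (r : A) * c * z = c * (q * (r : A)) * z := by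
      calc q * (r : A) * c * z = q * (r : A) * (c * z) := by group
        _ = c * z * (q * (r : A)) := hcr'
        _ = c * (z * (q * (r : A))) := by group
        _ = c * ((q * (r : A)) * z) := by rw [hzc _ hqr]
        _ = c * (q * (r : A)) * z := by group
    exact mul_right_cancel h2
  have h3 : q * (r : A) ∈ P ⊓ Subgroup.centralizer ({c} : Set A) :=
    ⟨hqr, CopB46.mem_cent.2 h1.symm⟩
  have h4 : q = (q * (r : A)) * (r : A)⁻¹ := by group
  rw [h4]
  exact Subgroup.mul_mem _ (Subgroup.mem_sup_right h3)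
    (Subgroup.mem_sup_left (P₁.inv_mem hr))

end GrpAux

open GrpAux

theorem grp_step {p : ℕ} [Fact p.Prime] {A : Type*} [Group A] [Finite A] {P R : Subgroup A}
    (hP : IsPGroup p P) (hPne : P ≠ ⊥) (hRP : R ≤ Subgroup.normalizer (P : Set A))
    (hcomm : ∀ r ∈ R, ∀ s ∈ R, r * s * r⁻¹ * s⁻¹ ∈ Subgroup.centralizer (P : Set A))
    (hreg : ∀ r ∈ R, ∃ m : ℕ, ¬ p ∣ m ∧ r ^ m ∈ Subgroup.centralizer (P : Set A)) :
    ∃ P₁ : Subgroup A, P₁ < P ∧ P ≤ Subgroup.normalizer (P₁ : Set A) ∧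
      R ≤ Subgroup.normalizer (P₁ : Set A) ∧
      ∃ r ∈ R, ∀ s ∈ R, ∃ (i : ℤ) (c : A), c ∈ R ∧ s = r ^ i * c ∧
        P ≤ P₁ ⊔ (P ⊓ Subgroup.centralizer ({c} : Set A)) := by
  classical
  obtain ⟨P₁, ⟨hlt, hn, hRn⟩, hmax0⟩ := (Set.toFinite {Q : Subgroup A | Q < P ∧
    P ≤ Subgroup.normalizer (Q : Set A) ∧ R ≤ Subgroup.normalizer (Q : Set A)}).exists_maximal
    ⟨⊥, bot_lt_iff_ne_bot.2 hPne, by rw [Subgroup.normalizer_eq_top]; exact le_top,
      by rw [Subgroup.normalizer_eq_top]; exact le_top⟩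
  have hle : P₁ ≤ P := hlt.le
  have hmax : ∀ Q : Subgroup A, P₁ ≤ Q → Q ≤ P → P ≤ Subgroup.normalizer (Q : Set A) →
      R ≤ Subgroup.normalizer (Q : Set A) → Q = P₁ ∨ Q = P := by
    intro Q h1 h2 h3 h4
    by_cases hQ : Q = P
    · exact Or.inr hQ
    · exact Or.inl (le_antisymm (hmax0 ⟨lt_of_le_of_ne h2 hQ, h3, h4⟩ h1) h1)
  set N₁ : Subgroup P := P₁.subgroupOf P with hN₁
  have hnorm : N₁.Normal := (Subgroup.normal_subgroupOf_iff_le_normalizer hle).2 hn
  -- the action
  let φ : R → (P →* P) := fun r => (Subgroup.normalizerMonoidHom P ⟨r, hRP r.2⟩).toMonoidHom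
  have hφ : ∀ (r : R) (q : P), ((φ r q : P) : A) = r * q * (r : A)⁻¹ := fun r q => rfl
  have hφN : ∀ r : R, N₁ ≤ N₁.comap (φ r) := by
    intro r q hq
    rw [Subgroup.mem_comap, Subgroup.mem_subgroupOf, hφ]
    exact (Subgroup.mem_normalizer_iff.1 (hRn r.2) q).1 hq
  let Fm : R → (P ⧸ N₁ →* P ⧸ N₁) := fun r => QuotientGroup.map N₁ N₁ (φ r) (hφN r)
  have hFm : ∀ (r : R) (q : P), Fm r (q : P ⧸ N₁) = ((φ r q : P) : P ⧸ N₁) := fun r q => rfl
  have hone : ∀ q : P, φ 1 q = q := by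
    intro q
    apply Subtype.ext
    rw [hφ]
    simp
  have hmul : ∀ (r s : R) (q : P), φ (r * s) q = φ r (φ s q) := by
    intro r s q
    apply Subtype.ext
    rw [hφ, hφ, hφ, Subgroup.coe_mul]
    group
  have hcm : ∀ (r s : R) (q : P), φ r (φ s q) = φ s (φ r q) := by
    intro r s q
    apply Subtype.ext
    rw [hφ, hφ, hφ, hφ]
    have h1 := hcomm r r.2 s s.2
    have h2 : (s : A) * (r * q * (r : A)⁻¹) * (s : A)⁻¹ ∈ P := (φ s (φ r q)).2
    have h3 := Subgroup.mem_centralizer_iff.1 h1 _ h2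
    calc (r : A) * (s * q * (s : A)⁻¹) * (r : A)⁻¹
        = (r * s * (r : A)⁻¹ * (s : A)⁻¹) * ((s : A) * (r * q * (r : A)⁻¹) * (s : A)⁻¹) *
            (r * s * (r : A)⁻¹ * (s : A)⁻¹)⁻¹ := by group
      _ = ((s : A) * (r * q * (r : A)⁻¹) * (s : A)⁻¹) * (r * s * (r : A)⁻¹ * (s : A)⁻¹) *
            (r * s * (r : A)⁻¹ * (s : A)⁻¹)⁻¹ := by rw [h3]
      _ = (s : A) * (r * q * (r : A)⁻¹) * (s : A)⁻¹ := by group
  have hnt : Nontrivial (P ⧸ N₁) := by
    obtain ⟨q, hq, hq1⟩ := SetLike.exists_of_lt hlt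
    refine ⟨⟨((⟨q, hq⟩ : P) : P ⧸ N₁), 1, fun h => hq1 ?_⟩⟩
    have h1 : (⟨q, hq⟩ : P) ∈ N₁ := (QuotientGroup.eq_one_iff _).1 h
    exact h1
  -- the correspondence
  have corr : ∀ W : Subgroup (P ⧸ N₁), W.Normal → (∀ r, ∀ v ∈ W, Fm r v ∈ W) → W = ⊥ ∨ W = ⊤ := by
    intro W hW hinv
    set T' : Subgroup P := W.comap (QuotientGroup.mk' N₁) with hT'
    set T : Subgroup A := T'.map P.subtype with hT
    have hT'n : T'.Normal := hW.comap _
    have hTP : T ≤ P := Subgroup.map_subtype_le T'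
    have hTT : T.subgroupOf P = T' :=
      Subgroup.comap_map_eq_self_of_injective P.subtype_injective T'
    have hmemT : ∀ q : P, (q : A) ∈ T ↔ (q : P ⧸ N₁) ∈ W := by
      intro q
      rw [← Subgroup.mem_subgroupOf, hTT]
      rfl
    have h1 : P₁ ≤ T := by
      intro q hq
      have h2 : ((⟨q, hle hq⟩ : P) : A) ∈ T := by
        rw [hmemT]
        have h3 : ((⟨q, hle hq⟩ : P) : P ⧸ N₁) = 1 := (QuotientGroup.eq_one_iff _).2 hq
        rw [h3]
        exact W.one_mem
      exact h2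
    have h3 : P ≤ Subgroup.normalizer (T : Set A) := by
      rw [← Subgroup.normal_subgroupOf_iff_le_normalizer hTP, hTT]
      exact hT'n
    have h4' : ∀ r : R, ∀ t ∈ T, (r : A) * t * (r : A)⁻¹ ∈ T := by
      intro r t ht
      have h5 : ((⟨t, hTP ht⟩ : P) : P ⧸ N₁) ∈ W := (hmemT _).1 ht
      have h6 := hinv r _ h5
      rw [hFm] at h6
      exact (hmemT _).2 h6
    have h4 : R ≤ Subgroup.normalizer (T : Set A) := by
      intro r hr
      rw [Subgroup.mem_normalizer_iff]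
      intro t
      refine ⟨fun ht => h4' ⟨r, hr⟩ t ht, fun ht => ?_⟩
      have h5 := h4' ⟨r⁻¹, R.inv_mem hr⟩ _ ht
      have h6 : (r⁻¹ : A) * (r * t * r⁻¹) * (r⁻¹)⁻¹ = t := by group
      rwa [h6] at h5
    rcases hmax T h1 hTP h3 h4 with h | h
    · left
      rw [eq_bot_iff]
      intro w hw
      induction w using QuotientGroup.induction_on with
      | H q =>
        have h5 : (q : A) ∈ T := (hmemT q).2 hw
        rw [h] at h5
        rw [Subgroup.mem_bot]
        exact (QuotientGroup.eq_one_iff _).2 h5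
    · right
      rw [eq_top_iff]
      intro w _
      induction w using QuotientGroup.induction_on with
      | H q =>
        have h5 : (q : A) ∈ T := by rw [h]; exact q.2
        exact (hmemT q).1 h5
  -- the quotient is commutative
  have hVp : IsPGroup p (P ⧸ N₁) := hP.to_quotient N₁
  have hnil : Group.IsNilpotent (P ⧸ N₁) := hVp.isNilpotent
  have hcV : commutator (P ⧸ N₁) = ⊥ := by
    rcases corr (commutator (P ⧸ N₁)) inferInstance (by
      intro r v hv
      have h1 : (commutator (P ⧸ N₁)).map (Fm r) ≤ commutator (P ⧸ N₁) := by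
        rw [commutator_def, Subgroup.map_commutator]
        exact Subgroup.commutator_mono le_top le_top
      exact h1 (Subgroup.mem_map_of_mem _ hv)) with h | h
    · exact h
    · exact absurd h (Group.IsSolvable.commutator_lt_top_of_nontrivial (P ⧸ N₁)).ne
  have hVc : ∀ v w : P ⧸ N₁, v * w = w * v := by
    intro v w
    have h1 : ⁅v, w⁆ ∈ commutator (P ⧸ N₁) :=
      Subgroup.commutator_mem_commutator (Subgroup.mem_top v) (Subgroup.mem_top w)
    rw [hcV, Subgroup.mem_bot] at h1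
    exact commutatorElement_eq_one_iff_mul_comm.1 h1
  let _ : CommGroup (P ⧸ N₁) := { (inferInstance : Group (P ⧸ N₁)) with mul_comm := hVc }
  let F0 : R →* Monoid.End (P ⧸ N₁) :=
    { toFun := fun r => Fm r
      map_one' := by
        ext v
        induction v using QuotientGroup.induction_on with
        | H q =>
          change Fm 1 (q : P ⧸ N₁) = (q : P ⧸ N₁)
          rw [hFm, hone]
      map_mul' := by
        intro r s
        ext v
        induction v using QuotientGroup.induction_on with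
        | H q =>
          change Fm (r * s) (q : P ⧸ N₁) = Fm r (Fm s (q : P ⧸ N₁))
          rw [hFm, hFm, hFm, hmul] }
  let F : R →* AddMonoid.End (Additive (P ⧸ N₁)) :=
    (monoidEndToAdditive (P ⧸ N₁)).toMonoidHom.comp F0
  have hF : ∀ (r : R) (q : P), F r (Additive.ofMul (q : P ⧸ N₁)) =
    Additive.ofMul ((φ r q : P) : P ⧸ N₁) := fun r q => rfl
  obtain ⟨r₀, hr₀⟩ := cyc F (by
    intro r s
    rw [← map_mul, ← map_mul]
    ext v
    induction v using Additive.rec with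
    | ofMul v =>
    induction v using QuotientGroup.induction_on with
    | H q => rw [hF, hF, hmul, hmul, hcm]) (by
    intro W hW
    let W' : Subgroup (P ⧸ N₁) :=
      { carrier := {v | Additive.ofMul v ∈ W}
        one_mem' := W.zero_mem
        mul_mem' := fun {a b} ha hb => W.add_mem ha hb
        inv_mem' := fun {a} ha => W.neg_mem ha }
    rcases corr W' ⟨fun a ha b => by rw [mul_comm b a, mul_inv_cancel_right]; exact ha⟩
      (fun r v hv => hW r _ hv) with h | h
    · left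
      rw [eq_bot_iff]
      intro v hv
      have h1 : Additive.toMul v ∈ W' := hv
      rw [h] at h1
      exact h1
    · right
      rw [eq_top_iff]
      intro v _
      have h1 : Additive.toMul v ∈ W' := by rw [h]; exact Subgroup.mem_top _
      exact h1)
  refine ⟨P₁, hlt, hn, hRn, r₀, r₀.2, fun s hs => ?_⟩
  obtain ⟨i, hi⟩ := hr₀ ⟨s, hs⟩
  have hcR : ((r₀ : A) ^ i)⁻¹ * s ∈ R := R.mul_mem (R.inv_mem (R.zpow_mem r₀.2 i)) hs
  refine ⟨i, ((r₀ : A) ^ i)⁻¹ * s, hcR, by group, ?_⟩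
  have hF1 : F (⟨((r₀ : A) ^ i)⁻¹ * s, hcR⟩ : R) = 1 := by
    have h1 : (⟨((r₀ : A) ^ i)⁻¹ * s, hcR⟩ : R) = (r₀ ^ i)⁻¹ * ⟨s, hs⟩ := by
      apply Subtype.ext
      simp
    rw [h1, map_mul, hi, ← map_mul, inv_mul_cancel, map_one]
  set c : A := ((r₀ : A) ^ i)⁻¹ * s with hc
  have hcP : c ∈ Subgroup.normalizer (P : Set A) := hRP hcR
  refine fix_step hP hle hn hcP (hRn hcR) (fun q hq => ?_) (hreg c hcR)
  have hcq : c⁻¹ * q * c ∈ P := by
    have h1 := (Subgroup.mem_normalizer_iff.1 (Subgroup.inv_mem _ hcP) q).1 hq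
    rwa [inv_inv] at h1
  have h1 := hF ⟨c, hcR⟩ ⟨c⁻¹ * q * c, hcq⟩
  rw [hF1] at h1
  have h2 : ((⟨c⁻¹ * q * c, hcq⟩ : P) : P ⧸ N₁) =
      ((φ ⟨c, hcR⟩ ⟨c⁻¹ * q * c, hcq⟩ : P) : P ⧸ N₁) := Additive.ofMul.injective h1
  have h3 := QuotientGroup.eq.1 h2.symm
  rw [Subgroup.mem_subgroupOf, Subgroup.coe_mul, Subgroup.coe_inv, hφ] at h3
  have h4 : (c * (c⁻¹ * q * c) * c⁻¹)⁻¹ * (c⁻¹ * q * c) = q⁻¹ * (c⁻¹ * q * c) := by group
  change (c * (c⁻¹ * q * c) * c⁻¹)⁻¹ * (c⁻¹ * q * c) ∈ P₁ at h3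
  rwa [h4] at h3

end Pool.Agent.Lib.P0c8ca5.Ps
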