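import Mathlib
import Pool.Agent.Lib.P0c8ca5S.Tra
import Pool.Agent.Lib.P0c8ca5S.Grp

/-!
# Module Chn: the commutators and the Brauer map

The elements of `R ≤ N_K(P)` commute modulo `C(P)` and are p-regular modulo `C(P)`.  Then
`Br_P (cm x y) = cm' x y` for `x, y ∈ R`, where `cm'` is the commutator for `(C_N(P), N_K(P), Br_P(e))`.

PROOF by induction on `|P|`, for all `(N, K, e)` and all `P`.  For `P = ⊥` both sides agree (`C(⊥) = ⊤`,
`resS` of everything).  For `P ≠ ⊥` take `P₁`, `r` from `grp_step`; write `N₁ = N ⊓ C(P₁)`,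
`K₁ = K ⊓ N(P₁)`, `e₁ = Br_(P₁)(e)`, `cm₁`.  The induction hypothesis for `P₁` (same `R`) gives
`Br_(P₁)(cm x y) = cm₁ x y`, and `Br_P (Br_(P₁) a) = Br_P a` since `C(P) ≤ C(P₁)`; so we need
`Br_P (cm₁ x y) = cm_P x y` for `x, y ∈ R` (*), `cm_P` for `N_P = N ⊓ C(P)`, `e_P = Br_P(e)`.
(a) Let `c ∈ R` with `P ≤ P₁ ⊔ P_c`, `P_c = P ⊓ C(c)`, and `x ∈ R`.  `x` normalizes `P_c`: it normalizes `P`,
and `x c x⁻¹ = n c` with `n ∈ C(P)`, so `P ⊓ C(x c x⁻¹) = P ⊓ C(c)`.  `br_cm` for the triple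
`(N₁, K₁, e₁)` and `P_c ≤ K₁` gives `Br_(P_c)(cm₁ x c) = cm₂ x c` with `N₂ = N₁ ⊓ C(P_c) = N ⊓ C(P)`
(`C(P₁) ⊓ C(P_c) = C(P₁ ⊔ P_c) = C(P)`) and `e₂ = Br_(P_c)(e₁) = Br_P(e)`, so `cm₂ = cm_P`.  And
`cm₁ x c` is supported on `C(P₁)` (it is in the line of `[x, c] ∈ C(P) ≤ C(P₁)` and `N₁ ≤ C(P₁)`), so
`Br_(P_c)` of it is `Br_P` of it.  So (*) holds for `(x, c)`.
(b) (*) holds for `(c, y)`: `cm₁ c y * cm₁ y c = e₁` (`cm_swap`), both factors are fixed by `P` (`ln_invBy`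
for the triple `(N₁, K₁, e₁)`: their lines are those of elements of `C(P)`), `resS_mul`, `Br_P(e₁) = e_P`, and
the same formula for `cm_P`; `cm_P y c` is invertible in the line sense (`cm_swap`), cancel it.
(c) For `x = r ^ i * c`, `y = r ^ j * c'`: `cm_mul_left`, `cm_mul_right` and `cm_pow` for both commutators,
`resS_mul` (all factors are fixed by `P`: they are in lines of elements of `C(P)`), `br_cj`.
-/

namespace Pool.Agent.Lib.P0c8ca5.Ps

open MonoidAlgebra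

namespace ChnAux

theorem clo_comm {M : Type*} [Group M] {a b : M} (hab : a * b = b * a) :
    ∀ g ∈ Subgroup.closure ({a, b} : Set M), ∀ h ∈ Subgroup.closure ({a, b} : Set M),
      g * h = h * g := by
  have key : ∀ z : M, (z * a = a * z) → (z * b = b * z) →
      ∀ g ∈ Subgroup.closure ({a, b} : Set M), z * g = g * z := by
    intro z hza hzb g hg
    have h1 : ({a, b} : Set M) ⊆ (Subgroup.centralizer ({z} : Set M) : Set M) := by
      intro w hw
      rw [SetLike.mem_coe, Subgroup.mem_centralizer_iff]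
      intro y hy
      rw [Set.mem_singleton_iff] at hy
      subst hy
      rcases hw with rfl | hw
      · exact hza
      · rw [Set.mem_singleton_iff] at hw
        subst hw
        exact hzb
    have h2 := (Subgroup.closure_le _).2 h1 hg
    exact Subgroup.mem_centralizer_iff.1 h2 z rfl
  intro g hg h hh
  refine key g ?_ ?_ h hh
  · exact (key a rfl hab g hg).symm
  · exact (key b hab.symm rfl g hg).symm

theorem clo_pow {M : Type*} [Group M] {a b : M} (hab : a * b = b * a) {m : ℕ} (ha : a ^ m = 1)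
    (hb : b ^ m = 1) : ∀ g ∈ Subgroup.closure ({a, b} : Set M), g ^ m = 1 := by
  intro g hg
  induction hg using Subgroup.closure_induction with
  | mem x hx =>
    rcases hx with rfl | hx
    · exact ha
    · rw [Set.mem_singleton_iff] at hx
      subst hx
      exact hb
  | one => exact one_pow m
  | mul x y hx hy h1 h2 =>
    have h3 : Commute x y := clo_comm hab x hx y hy
    rw [h3.mul_pow, h1, h2, one_mul]
  | inv x hx h1 => rw [inv_pow, h1, inv_one]

variable {p : ℕ} {k : Type*} [Field k] {A : Type*} [Group A]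

theorem br_br {P P₁ P₂ : Subgroup A} (h : ∀ z : A, z ∈ Subgroup.centralizer (P : Set A) ↔
    (z ∈ Subgroup.centralizer (P₁ : Set A) ∧ z ∈ Subgroup.centralizer (P₂ : Set A)))
    (a : MonoidAlgebra k A) : br P₂ (br P₁ a) = br P a := by
  unfold br
  ext z
  by_cases h1 : z ∈ Subgroup.centralizer (P : Set A)
  · have h2 := (h z).1 h1
    rw [coeff_resS_of_mem _ (SetLike.mem_coe.2 h1), coeff_resS_of_mem _ (SetLike.mem_coe.2 h2.2),
      coeff_resS_of_mem _ (SetLike.mem_coe.2 h2.1)]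
  · rw [coeff_resS_of_notMem _ (fun h' => h1 (SetLike.mem_coe.1 h'))]
    by_cases h2 : z ∈ Subgroup.centralizer (P₂ : Set A)
    · rw [coeff_resS_of_mem _ (SetLike.mem_coe.2 h2),
        coeff_resS_of_notMem _ (fun h' => h1 ((h z).2 ⟨SetLike.mem_coe.1 h', h2⟩))]
    · rw [coeff_resS_of_notMem _ (fun h' => h2 (SetLike.mem_coe.1 h'))]

theorem cen_mono {P P₁ : Subgroup A} (h : P₁ ≤ P) {z : A}
    (hz : z ∈ Subgroup.centralizer (P : Set A)) : z ∈ Subgroup.centralizer (P₁ : Set A) := by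
  rw [Subgroup.mem_centralizer_iff] at hz ⊢
  exact fun q hq => hz q (h hq)

theorem cen_sup {P P₁ P₂ : Subgroup A} (h1 : P₁ ≤ P) (h2 : P₂ ≤ P) (h : P ≤ P₁ ⊔ P₂) (z : A) :
    z ∈ Subgroup.centralizer (P : Set A) ↔
    (z ∈ Subgroup.centralizer (P₁ : Set A) ∧ z ∈ Subgroup.centralizer (P₂ : Set A)) := by
  refine ⟨fun hz => ⟨cen_mono h1 hz, cen_mono h2 hz⟩, ?_⟩
  rintro ⟨hz1, hz2⟩
  have h3 : P₁ ⊔ P₂ ≤ Subgroup.centralizer ({z} : Set A) := by
    refine sup_le ?_ ?_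
    · intro q hq
      rw [Subgroup.mem_centralizer_iff]
      intro y hy
      rw [Set.mem_singleton_iff] at hy
      rw [hy]
      exact (Subgroup.mem_centralizer_iff.1 hz1 q hq).symm
    · intro q hq
      rw [Subgroup.mem_centralizer_iff]
      intro y hy
      rw [Set.mem_singleton_iff] at hy
      rw [hy]
      exact (Subgroup.mem_centralizer_iff.1 hz2 q hq).symm
  rw [Subgroup.mem_centralizer_iff]
  intro q hq
  exact (Subgroup.mem_centralizer_iff.1 (h3 (h hq)) z rfl).symm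

theorem nrm_pc {P : Subgroup A} {R : Subgroup A} (hRP : R ≤ Subgroup.normalizer (P : Set A))
    (hcomm : ∀ r ∈ R, ∀ s ∈ R, r * s * r⁻¹ * s⁻¹ ∈ Subgroup.centralizer (P : Set A))
    {c : A} (hc : c ∈ R) {x : A} (hx : x ∈ R) :
    x ∈ Subgroup.normalizer ((P ⊓ Subgroup.centralizer ({c} : Set A) : Subgroup A) : Set A) := by
  have key : ∀ x ∈ R, ∀ q ∈ P ⊓ Subgroup.centralizer ({c} : Set A),
      x * q * x⁻¹ ∈ P ⊓ Subgroup.centralizer ({c} : Set A) := by
    intro x hx q hq'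
    obtain ⟨hq, hqc⟩ := Subgroup.mem_inf.1 hq'
    have h1 : x * q * x⁻¹ ∈ P := (Subgroup.mem_normalizer_iff.1 (hRP hx) q).1 hq
    refine Subgroup.mem_inf.2 ⟨h1, ?_⟩
    rw [Subgroup.mem_centralizer_iff] at hqc ⊢
    intro y hy
    rw [Set.mem_singleton_iff] at hy
    subst hy
    have h2 : y * q = q * y := hqc y rfl
    have h3 := Subgroup.mem_centralizer_iff.1 (hcomm x hx y hc) _ h1
    have h4 : (x * y * x⁻¹) * (x * q * x⁻¹) = (x * q * x⁻¹) * (x * y * x⁻¹) := by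
      calc (x * y * x⁻¹) * (x * q * x⁻¹) = x * (y * q) * x⁻¹ := by group
        _ = x * (q * y) * x⁻¹ := by rw [h2]
        _ = _ := by group
    have h5 : (x * y * x⁻¹ * y⁻¹) * (y * (x * q * x⁻¹)) =
        (x * y * x⁻¹ * y⁻¹) * ((x * q * x⁻¹) * y) := by
      calc (x * y * x⁻¹ * y⁻¹) * (y * (x * q * x⁻¹)) = (x * y * x⁻¹) * (x * q * x⁻¹) := by group
        _ = (x * q * x⁻¹) * (x * y * x⁻¹) := h4
        _ = (x * q * x⁻¹) * (x * y * x⁻¹ * y⁻¹) * y := by group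
        _ = (x * y * x⁻¹ * y⁻¹) * (x * q * x⁻¹) * y := by rw [h3]
        _ = _ := by group
    exact mul_left_cancel h5
  rw [Subgroup.mem_normalizer_iff]
  intro q
  refine ⟨fun hq => key x hx q hq, fun hq => ?_⟩
  have h1 := key x⁻¹ (R.inv_mem hx) _ hq
  have h2 : x⁻¹ * (x * q * x⁻¹) * x⁻¹⁻¹ = q := by group
  rwa [h2] at h1

end ChnAux

open ChnAux

variable {p : ℕ} {k : Type*} [Field k] {A : Type*} [Group A]

theorem br_cm_chain [Fact p.Prime] [CharP k p] [IsAlgClosed k] [Fintype A] :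
    ∀ (n : ℕ) (P : Subgroup A), Nat.card P = n → ∀ (N K : Subgroup A) (e : MonoidAlgebra k A),
      Tri p N K e → P ≤ K → IsPGroup p P → ∀ R : Subgroup A, R ≤ K →
      R ≤ Subgroup.normalizer (P : Set A) →
      (∀ r ∈ R, ∀ s ∈ R, r * s * r⁻¹ * s⁻¹ ∈ Subgroup.centralizer (P : Set A)) →
      (∀ r ∈ R, ∃ m : ℕ, ¬ p ∣ m ∧ r ^ m ∈ Subgroup.centralizer (P : Set A)) →
      ∀ x ∈ R, ∀ y ∈ R, br P (cm N e x y)
        = cm (N ⊓ Subgroup.centralizer (P : Set A)) (br P e) x y := by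
  classical
  intro n
  induction n using Nat.strong_induction_on with
  | _ n ih =>
  intro P hn N K e h hPK hP R hRK hRP hcomm hreg x hx y hy
  by_cases hPne : P = ⊥
  · have hC : Subgroup.centralizer (P : Set A) = ⊤ := by
      rw [eq_top_iff]
      intro z _
      rw [Subgroup.mem_centralizer_iff]
      intro q hq
      rw [hPne] at hq
      have hq1 : q = 1 := Subgroup.mem_bot.1 hq
      rw [hq1, one_mul, mul_one]
    have hb : ∀ a : MonoidAlgebra k A, br P a = a := by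
      intro a
      unfold br
      rw [hC]
      exact resS_eq_self (fun _ _ => Subgroup.mem_top _)
    rw [hb, hb, hC, inf_top_eq]
  obtain ⟨P₁, hlt, hPn, hRn, r, hr, hdec⟩ := grp_step hP hPne hRP hcomm hreg
  have hle : P₁ ≤ P := hlt.le
  have hP₁ : IsPGroup p P₁ := hP.to_le hle
  have hcard : Nat.card P₁ < n := by
    rw [← hn]
    exact Set.Finite.card_lt_card (Set.toFinite _) hlt
  have hCC : ∀ z ∈ Subgroup.centralizer (P : Set A), z ∈ Subgroup.centralizer (P₁ : Set A) :=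
    fun z hz => cen_mono hle hz
  have hIH := ih (Nat.card P₁) hcard P₁ rfl N K e h (hle.trans hPK) hP₁ R hRK hRn
    (fun a ha b hb => hCC _ (hcomm a ha b hb))
    (fun a ha => by obtain ⟨m, hm1, hm2⟩ := hreg a ha; exact ⟨m, hm1, hCC _ hm2⟩)
  have h₁ := tri_br h (hle.trans hPK) hP₁
  have hp := tri_br h hPK hP
  set N₁ : Subgroup A := N ⊓ Subgroup.centralizer (P₁ : Set A) with hN₁
  set K₁ : Subgroup A := K ⊓ Subgroup.normalizer (P₁ : Set A) with hK₁
  set NP : Subgroup A := N ⊓ Subgroup.centralizer (P : Set A) with hNP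
  set KP : Subgroup A := K ⊓ Subgroup.normalizer (P : Set A) with hKP
  have hRK₁ : ∀ a ∈ R, a ∈ K₁ := fun a ha => ⟨hRK ha, hRn ha⟩
  have hRKP : ∀ a ∈ R, a ∈ KP := fun a ha => ⟨hRK ha, hRP ha⟩
  have hPK₁ : P ≤ K₁ := fun q hq => ⟨hPK hq, hPn hq⟩
  have hcK₁ : ∀ a ∈ R, ∀ b ∈ R, a * b * a⁻¹ * b⁻¹ ∈ K₁ := fun a ha b hb =>
    hRK₁ _ (R.mul_mem (R.mul_mem (R.mul_mem ha hb) (R.inv_mem ha)) (R.inv_mem hb))
  have hcKP : ∀ a ∈ R, ∀ b ∈ R, a * b * a⁻¹ * b⁻¹ ∈ KP := fun a ha b hb =>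
    hRKP _ (R.mul_mem (R.mul_mem (R.mul_mem ha hb) (R.inv_mem ha)) (R.inv_mem hb))
  have hbb : ∀ a : MonoidAlgebra k A, br P (br P₁ a) = br P a := fun a =>
    br_br (fun z => ⟨fun hz => ⟨hCC z hz, hz⟩, fun hz => hz.2⟩) a
  have hiv : ∀ a ∈ R, ∀ b ∈ R, InvBy P (cm N₁ (br P₁ e) a b) := fun a ha b hb =>
    ln_invBy h₁ hPK₁ hP (hcK₁ a ha b hb) (hcomm a ha b hb) (cm_mem h₁ (hRK₁ a ha) (hRK₁ b hb))
  have hive : InvBy P (br P₁ e) := h₁.inv.mono hPK₁
  have hmul : ∀ a b : MonoidAlgebra k A, InvBy P a → InvBy P b → br P (a * b) = br P a * br P b :=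
    fun a b ha hb => resS_mul hP ha hb
  -- (a)
  have ha : ∀ c ∈ R, P ≤ P₁ ⊔ (P ⊓ Subgroup.centralizer ({c} : Set A)) → ∀ x ∈ R,
      br P (cm N₁ (br P₁ e) x c) = cm NP (br P e) x c := by
    intro c hc hPc x hx
    set Pc : Subgroup A := P ⊓ Subgroup.centralizer ({c} : Set A) with hPcd
    have hPcP : Pc ≤ P := inf_le_left
    have hcen := cen_sup hle hPcP hPc
    have hcPc : c ∈ Subgroup.centralizer (Pc : Set A) := by
      rw [Subgroup.mem_centralizer_iff]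
      intro q hq
      have h1 := (Subgroup.mem_inf.1 hq).2
      exact (Subgroup.mem_centralizer_iff.1 h1 c rfl).symm
    have h1 := br_cm h₁ (hPcP.trans hPK₁) (hP.to_le hPcP) (hRK₁ x hx) (nrm_pc hRP hcomm hc hx)
      (hRK₁ c hc) hcPc
    have h2 : N₁ ⊓ Subgroup.centralizer (Pc : Set A) = NP := by
      ext z
      rw [hN₁, hNP, Subgroup.mem_inf, Subgroup.mem_inf, Subgroup.mem_inf, hcen z, and_assoc]
    have h3 : br Pc (br P₁ e) = br P e := br_br hcen e
    have h4 : br P₁ (cm N₁ (br P₁ e) x c) = cm N₁ (br P₁ e) x c := by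
      apply resS_eq_self
      intro z hz
      have h5 := (mem_Ln.1 (cm_mem h₁ (hRK₁ x hx) (hRK₁ c hc))).1 z hz
      have h6 : z * (x * c * x⁻¹ * c⁻¹)⁻¹ ∈ Subgroup.centralizer (P₁ : Set A) :=
        (Subgroup.mem_inf.1 h5).2
      have h7 := Subgroup.mul_mem _ h6 (hCC _ (hcomm x hx c hc))
      rwa [inv_mul_cancel_right] at h7
    have h5 : br Pc (cm N₁ (br P₁ e) x c) = br P (cm N₁ (br P₁ e) x c) := by
      rw [← br_br hcen, h4]
    rw [← h5, h1, h2, h3]
  -- (b)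
  have hb : ∀ c ∈ R, P ≤ P₁ ⊔ (P ⊓ Subgroup.centralizer ({c} : Set A)) → ∀ y ∈ R,
      br P (cm N₁ (br P₁ e) c y) = cm NP (br P e) c y := by
    intro c hc hPc y hy
    have h1 := ha c hc hPc y hy
    have h2 : br P (cm N₁ (br P₁ e) c y) * cm NP (br P e) y c = br P e := by
      rw [← h1, ← hmul _ _ (hiv c hc y hy) (hiv y hy c hc), cm_swap h₁ (hRK₁ c hc) (hRK₁ y hy),
        hbb]
    have h3 : cm NP (br P e) y c * cm NP (br P e) c y = br P e :=
      cm_swap hp (hRKP y hy) (hRKP c hc)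
    have h4 : br P (cm N₁ (br P₁ e) c y) * br P e = br P (cm N₁ (br P₁ e) c y) := by
      rw [← hbb e, ← hmul _ _ (hiv c hc y hy) hive,
        Ln_mul_e h₁ (hcK₁ c hc y hy) (cm_mem h₁ (hRK₁ c hc) (hRK₁ y hy))]
    have h5 : br P e * cm NP (br P e) c y = cm NP (br P e) c y :=
      (mem_Ln.1 (cm_mem hp (hRKP c hc) (hRKP y hy))).2.2
    calc br P (cm N₁ (br P₁ e) c y) = br P (cm N₁ (br P₁ e) c y) * br P e := h4.symm
      _ = br P (cm N₁ (br P₁ e) c y) * (cm NP (br P e) y c * cm NP (br P e) c y) := by rw [h3]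
      _ = (br P (cm N₁ (br P₁ e) c y) * cm NP (br P e) y c) * cm NP (br P e) c y := by
          rw [mul_assoc]
      _ = _ := by rw [h2, h5]
  -- (c)
  obtain ⟨i, c, hc, hxc, hPc⟩ := hdec x hx
  obtain ⟨j, c', hc', hyc, hPc'⟩ := hdec y hy
  have hri : r ^ i ∈ R := R.zpow_mem hr i
  have hrj : r ^ j ∈ R := R.zpow_mem hr j
  have hstep : br P (cm N₁ (br P₁ e) (r ^ i) y) = cm NP (br P e) (r ^ i) y := by
    rw [hyc, cm_mul_right h₁ (hRK₁ _ hri) (hRK₁ _ hrj) (hRK₁ _ hc'), cm_pow h₁ (hRK₁ r hr),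
      hmul _ _ hive ((hiv _ hri _ hc').cj (hRP hrj)), hbb, br_cj (hRP hrj), ha c' hc' hPc' _ hri,
      cm_mul_right hp (hRKP _ hri) (hRKP _ hrj) (hRKP _ hc'), cm_pow hp (hRKP r hr)]
  rw [← hbb, hIH x hx y hy, hxc, cm_mul_left h₁ (hRK₁ _ hri) (hRK₁ _ hc) (hRK₁ _ hy),
    hmul _ _ ((hiv _ hc _ hy).cj (hRP hri)) (hiv _ hri _ hy), br_cj (hRP hri), hb c hc hPc y hy,
    hstep, cm_mul_left hp (hRKP _ hri) (hRKP _ hc) (hRKP _ hy)]

/-- two elements -/
theorem br_cm_two [Fact p.Prime] [CharP k p] [IsAlgClosed k] [Fintype A] {N K : Subgroup A}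
    {e : MonoidAlgebra k A} (h : Tri p N K e) {P : Subgroup A} (hPK : P ≤ K) (hP : IsPGroup p P)
    {x y : A} (hx : x ∈ K) (hxP : x ∈ Subgroup.normalizer (P : Set A)) (hy : y ∈ K)
    (hyP : y ∈ Subgroup.normalizer (P : Set A))
    (hxy : x * y * x⁻¹ * y⁻¹ ∈ Subgroup.centralizer (P : Set A)) (hxr : Preg p x)
    (hyr : Preg p y) :
    br P (cm N e x y) = cm (N ⊓ Subgroup.centralizer (P : Set A)) (br P e) x y := by
  classical
  set φ := Subgroup.normalizerMonoidHom P with hφ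
  set x' : Subgroup.normalizer (P : Set A) := ⟨x, hxP⟩ with hx'
  set y' : Subgroup.normalizer (P : Set A) := ⟨y, hyP⟩ with hy'
  have hval : ∀ (g : Subgroup.normalizer (P : Set A)) (q : P), ((φ g q : P) : A) = g * q * (g : A)⁻¹ :=
    fun g q => rfl
  have hker : ∀ g : Subgroup.normalizer (P : Set A), φ g = 1 ↔
      (g : A) ∈ Subgroup.centralizer (P : Set A) := by
    intro g
    constructor
    · intro hg
      rw [Subgroup.mem_centralizer_iff]
      intro q hq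
      have h1 : ((φ g ⟨q, hq⟩ : P) : A) = q := by rw [hg]; rfl
      rw [hval] at h1
      calc q * (g : A) = (g * q * (g : A)⁻¹) * g := by rw [h1]
        _ = g * q := by group
    · intro hg
      ext q
      rw [hval]
      have h1 := Subgroup.mem_centralizer_iff.1 hg q q.2
      rw [← h1]
      change (q : A) * g * (g : A)⁻¹ = ((q : P) : A)
      group
  have hxy' : φ x' * φ y' = φ y' * φ x' := by
    have h1 : φ (x' * y' * x'⁻¹ * y'⁻¹) = 1 := (hker _).2 hxy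
    rw [map_mul, map_mul, map_mul, map_inv, map_inv, mul_inv_eq_one, mul_inv_eq_iff_eq_mul] at h1
    exact h1
  set R : Subgroup A := K ⊓ ((Subgroup.closure ({φ x', φ y'} : Set (MulAut P))).comap φ).map
    (Subgroup.normalizer (P : Set A)).subtype with hR
  have hRmem : ∀ r ∈ R, ∃ r' : Subgroup.normalizer (P : Set A), (r' : A) = r ∧
      φ r' ∈ Subgroup.closure ({φ x', φ y'} : Set (MulAut P)) := by
    intro r hr
    obtain ⟨r', h1, h2⟩ := Subgroup.mem_map.1 (Subgroup.mem_inf.1 hr).2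
    exact ⟨r', h2, Subgroup.mem_comap.1 h1⟩
  have hm : ∀ g : Subgroup.normalizer (P : Set A), Preg p (g : A) → ∀ j : ℕ, φ g ^ (orderOf (g : A) * j) = 1 := by
    intro g _ j
    have h1 : g ^ orderOf (g : A) = 1 := by
      apply Subtype.ext
      rw [Subgroup.coe_pow, pow_orderOf_eq_one]
      rfl
    rw [pow_mul, ← map_pow, h1, map_one, one_pow]
  refine br_cm_chain (Nat.card P) P rfl N K e h hPK hP R inf_le_left ?_ ?_ ?_ x ?_ y ?_
  · intro r hr
    obtain ⟨r', h1, _⟩ := hRmem r hr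
    rw [← h1]
    exact r'.2
  · intro r hr s hs
    obtain ⟨r', h1, h2⟩ := hRmem r hr
    obtain ⟨s', h3, h4⟩ := hRmem s hs
    have h5 := clo_comm hxy' _ h2 _ h4
    have h6 : φ (r' * s' * r'⁻¹ * s'⁻¹) = 1 := by
      rw [map_mul, map_mul, map_mul, map_inv, map_inv, mul_inv_eq_one, mul_inv_eq_iff_eq_mul]
      exact h5
    have h7 := (hker _).1 h6
    rw [← h1, ← h3]
    exact h7
  · intro r hr
    obtain ⟨r', h1, h2⟩ := hRmem r hr
    refine ⟨orderOf x * orderOf y, ?_, ?_⟩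
    · intro hd
      rcases (Fact.out : p.Prime).dvd_mul.1 hd with h3 | h3
      · exact hxr h3
      · exact hyr h3
    · have h3 := clo_pow hxy' (m := orderOf x * orderOf y) (hm x' hxr _)
        (by rw [mul_comm]; exact hm y' hyr _) _ h2
      rw [← map_pow] at h3
      have h4 := (hker _).1 h3
      rw [← h1]
      exact h4
  · refine Subgroup.mem_inf.2 ⟨hx, Subgroup.mem_map.2 ⟨x', ?_, rfl⟩⟩
    exact Subgroup.mem_comap.2 (Subgroup.subset_closure (Or.inl rfl))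
  · refine Subgroup.mem_inf.2 ⟨hy, Subgroup.mem_map.2 ⟨y', ?_, rfl⟩⟩
    exact Subgroup.mem_comap.2 (Subgroup.subset_closure (Or.inr rfl))

end Pool.Agent.Lib.P0c8ca5.Ps
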