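import Mathlib

/-!
# Module Coc: spaces of functions that transform by a cocycle

`Γ` acts on a finite set `X` (by `φ`), `c (g h) x = c g (φ h x) * c h x`.  If two such cocycles (with values
in `kˣ`) agree on the stabilizers (`c g x = c' g x` if `φ g x = x`) then the spaces
`{f | f (φ g x) = c g x * f x}` have the same dimension.

PROOF.  Choose in every orbit a point: a function `r : X → X` with `r x = φ (t x)⁻¹ x`, i.e.
`x = φ (t x) (r x)`, and `r (φ g x) = r x`.  Put `b x = c' (t x) (r x) / c (t x) (r x)`.  For `g`, `x`, with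
`x₀ = r x`, `s = (t (φ g x))⁻¹ * g * t x`: `φ s x₀ = x₀`, `g * t x = t (φ g x) * s`, so
`c g x * c (t x) x₀ = c (g * t x) x₀ = c (t (φ g x)) x₀ * c s x₀`, the same for `c'`, `c s x₀ = c' s x₀`, hence
`b (φ g x) * c g x = c' g x * b x`.  So `f ↦ b * f` is a linear isomorphism of the two spaces.
-/

namespace Pool.Agent.Lib.P0c8ca5.Ps

/-- the functions that transform by `c` -/
def InvC {k : Type*} [Field k] {Γ X : Type*} [Group Γ] (φ : Γ →* Equiv.Perm X) (c : Γ → X → k) :
    Submodule k (X → k) where
  carrier := {f | ∀ g x, f (φ g x) = c g x * f x}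
  add_mem' := by
    intro f f' h h' g x
    rw [Pi.add_apply, Pi.add_apply, h g x, h' g x, mul_add]
  zero_mem' := by
    intro g x
    rw [Pi.zero_apply, Pi.zero_apply, mul_zero]
  smul_mem' := by
    intro a f h g x
    rw [Pi.smul_apply, Pi.smul_apply, h g x, smul_eq_mul, smul_eq_mul]
    ring

theorem mem_InvC {k : Type*} [Field k] {Γ X : Type*} [Group Γ] {φ : Γ →* Equiv.Perm X}
    {c : Γ → X → k} {f : X → k} : f ∈ InvC φ c ↔ ∀ g x, f (φ g x) = c g x * f x := Iff.rfl

theorem finrank_InvC {k : Type*} [Field k] {Γ X : Type*} [Group Γ] [Finite X]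
    (φ : Γ →* Equiv.Perm X) {c c' : Γ → X → k}
    (hc : ∀ g h x, c (g * h) x = c g (φ h x) * c h x) (hc0 : ∀ g x, c g x ≠ 0)
    (hc' : ∀ g h x, c' (g * h) x = c' g (φ h x) * c' h x) (hc0' : ∀ g x, c' g x ≠ 0)
    (hst : ∀ g x, φ g x = x → c g x = c' g x) :
    Module.finrank k (InvC φ c) = Module.finrank k (InvC φ c') := by
  classical
  -- a point in every orbit
  let S : Setoid X :=
    { r := fun x y => ∃ g, φ g x = y
      iseqv :=
        { refl := fun x => ⟨1, by rw [map_one]; rfl⟩
          symm := by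
            rintro x y ⟨g, rfl⟩
            exact ⟨g⁻¹, by rw [← Equiv.Perm.mul_apply, ← map_mul, inv_mul_cancel, map_one]; rfl⟩
          trans := by
            rintro x y z ⟨g, rfl⟩ ⟨h, rfl⟩
            exact ⟨h * g, by rw [map_mul, Equiv.Perm.mul_apply]⟩ } }
  obtain ⟨r, hr, hrg⟩ : ∃ r : X → X, (∀ x, ∃ g, φ g (r x) = x) ∧ ∀ g x, r (φ g x) = r x := by
    refine ⟨fun x => (Quotient.mk S x).out, fun x => ?_, fun g x => ?_⟩
    · exact Quotient.exact (Quotient.out_eq (Quotient.mk S x))
    · have h : Quotient.mk S (φ g x) = Quotient.mk S x :=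
        Quotient.sound ⟨g⁻¹, by rw [← Equiv.Perm.mul_apply, ← map_mul, inv_mul_cancel, map_one]; rfl⟩
      change (Quotient.mk S (φ g x)).out = (Quotient.mk S x).out
      rw [h]
  choose t ht using hr
  obtain ⟨b, hb⟩ : ∃ b : X → k, ∀ x, b x = c' (t x) (r x) / c (t x) (r x) := ⟨_, fun _ => rfl⟩
  have hb0 : ∀ x, b x ≠ 0 := fun x => by
    rw [hb]
    exact div_ne_zero (hc0' _ _) (hc0 _ _)
  have key : ∀ g x, b (φ g x) * c g x = c' g x * b x := by
    intro g x
    obtain ⟨s, hs⟩ : ∃ s, s = (t (φ g x))⁻¹ * (g * t x) := ⟨_, rfl⟩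
    have hgs : g * t x = t (φ g x) * s := by rw [hs, mul_inv_cancel_left]
    have hfix : φ s (r x) = r x := by
      rw [hs, map_mul, map_mul, Equiv.Perm.mul_apply, Equiv.Perm.mul_apply, ht x, map_inv,
        Equiv.Perm.inv_eq_iff_eq, ← hrg g x, ht (φ g x)]
    have h1 : c g x * c (t x) (r x) = c (t (φ g x)) (r x) * c s (r x) := by
      have h2 := hc g (t x) (r x)
      have h3 := hc (t (φ g x)) s (r x)
      rw [ht x] at h2
      rw [hfix] at h3
      rw [← h2, ← h3, hgs]
    have h1' : c' g x * c' (t x) (r x) = c' (t (φ g x)) (r x) * c s (r x) := by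
      have h2 := hc' g (t x) (r x)
      have h3 := hc' (t (φ g x)) s (r x)
      rw [ht x] at h2
      rw [hfix, ← hst s (r x) hfix] at h3
      rw [← h2, ← h3, hgs]
    have hC := hc0 (t x) (r x)
    have hD := hc0 (t (φ g x)) (r x)
    rw [hb, hb, hrg g x, div_mul_eq_mul_div, mul_div_assoc', div_eq_div_iff hD hC]
    calc c' (t (φ g x)) (r x) * c g x * c (t x) (r x)
        = c' (t (φ g x)) (r x) * (c g x * c (t x) (r x)) := by ring
      _ = c' (t (φ g x)) (r x) * c s (r x) * c (t (φ g x)) (r x) := by rw [h1]; ring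
      _ = c' g x * c' (t x) (r x) * c (t (φ g x)) (r x) := by rw [h1']
  -- multiplication by `b`
  let e : (X → k) ≃ₗ[k] (X → k) :=
    { toFun := fun f x => b x * f x
      map_add' := fun f f' => by
        funext x
        change b x * (f x + f' x) = b x * f x + b x * f' x
        ring
      map_smul' := fun a f => by
        funext x
        change b x * (a * f x) = a * (b x * f x)
        ring
      invFun := fun f x => (b x)⁻¹ * f x
      left_inv := fun f => by
        funext x
        change (b x)⁻¹ * (b x * f x) = f x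
        rw [inv_mul_cancel_left₀ (hb0 x)]
      right_inv := fun f => by
        funext x
        change b x * ((b x)⁻¹ * f x) = f x
        rw [mul_inv_cancel_left₀ (hb0 x)] }
  have hmap : InvC φ c' = (InvC φ c).map e.toLinearMap := by
    ext f
    rw [Submodule.mem_map]
    constructor
    · intro hf
      refine ⟨e.symm f, ?_, e.apply_symm_apply f⟩
      intro g x
      change (b (φ g x))⁻¹ * f (φ g x) = c g x * ((b x)⁻¹ * f x)
      rw [hf g x]
      have h1 := key g x
      have h2 := hb0 x
      have h3 := hb0 (φ g x)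
      field_simp
      calc c' g x * f x * b x = (c' g x * b x) * f x := by ring
        _ = b (φ g x) * f x * c g x := by rw [← h1]; ring
    · rintro ⟨f', hf', rfl⟩
      intro g x
      change b (φ g x) * f' (φ g x) = c' g x * (b x * f' x)
      rw [hf' g x, ← mul_assoc, key g x, mul_assoc]
  rw [hmap]
  exact (LinearEquiv.finrank_map_eq e (InvC φ c)).symm

end Pool.Agent.Lib.P0c8ca5.Ps
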