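import Mathlib
import Pool.Agent.Lib.P0c8ca5S.Cm
import Pool.Agent.Lib.P0c8ca5N.ChC
import Pool.Agent.Lib.P0c8ca5N.ChD
import Pool.Agent.Lib.P0c8ca5N.RegP
import Pool.Agent.Lib.P0c8ca5.LHS

/-!
# Module Dim: the number of the irreducible representations of `K` in `e`

It is the dimension of `Zs p K e`.

PROOF.  By `card_irr_inv` (with `N := K`, `X := ⊥`) the left side is the number of the irreducible
characters `χ` of `K` with `conv e χ = χ`.  Let `Xe` be the submodule of the `f` in `XH p k K` with
`conv e f = f`.  The irreducible characters are linearly independent (`chi_linearIndependent`) and span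
`XH p k K` (`span_IrrCh`); `conv e` maps each of them to itself or to `0` (`conv_eq_zero_of_ne`); hence `Xe`
has the `χ` with `conv e χ = χ` as a basis (if `f = ∑ a_χ χ` and `conv e f = f` then
`f = ∑ a_χ conv e χ` is a combination of them) and `finrank Xe` is the left side; also `conv e` maps
`XH p k K` into itself.
`Xe ≃ Zs p K e`: to `f` attach `a` with `a.coeff x = f x⁻¹` for p-regular `x ∈ K` and `0` elsewhere.
`a` is `K`-invariant.  `(e * a).coeff y = ∑ h, e.coeff h * a.coeff (h⁻¹ * y)` (`coeff_mul_fin`); for `h ∈ N`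
and `y ∈ K`: `h⁻¹ * y` is p-regular iff `y` is (`preg_mul`), so this is `conv e f y⁻¹` for p-regular `y`
(`f` is a class function, `f (y⁻¹ h) = f (h y⁻¹)`) and `0` for the others; so `e * a = a`.  Conversely to
`a ∈ Zs p K e` attach `f x = a.coeff (pr p x)⁻¹` for `x ∈ K`, `0` elsewhere: it is in `XH p k K`, and
`conv e f` and `f` agree at the p-regular elements and are both in `XH p k K`, so they are equal.
-/

namespace Pool.Agent.Lib.P0c8ca5.Ps

open MonoidAlgebra

variable {p : ℕ} {k : Type*} [Field k] {A : Type*} [Group A] {N K : Subgroup A}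
  {e : MonoidAlgebra k A}

namespace DimAux

theorem pow_mem {A : Type*} [Group A] {N K : Subgroup A}
    (hn : K ≤ Subgroup.normalizer (N : Set A)) {y z : A} (hy : y ∈ K) (hz : z * y⁻¹ ∈ N) (m : ℕ) :
    z ^ m * (y ^ m)⁻¹ ∈ N := by
  have hzn : z ∈ Subgroup.normalizer (N : Set A) := by
    have h1 : z = (z * y⁻¹) * y := by group
    rw [h1]
    exact Subgroup.mul_mem _ (Subgroup.le_normalizer hz) (hn hy)
  induction m with
  | zero => simp
  | succ m ih =>
    have h1 : z ^ (m + 1) * (y ^ (m + 1))⁻¹ = (z * (z ^ m * (y ^ m)⁻¹) * z⁻¹) * (z * y⁻¹) := by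
      rw [pow_succ' z, pow_succ y]
      group
    rw [h1]
    exact N.mul_mem ((Subgroup.mem_normalizer_iff.1 hzn _).1 ih) hz

/-- the element with given coefficients -/
noncomputable def mk {k : Type*} [Field k] {A : Type*} [Fintype A] (g : A → k) :
    MonoidAlgebra k A := MonoidAlgebra.ofCoeff (Finsupp.equivFunOnFinite.symm g)

theorem coeff_mk {k : Type*} [Field k] {A : Type*} [Fintype A] (g : A → k) (x : A) :
    (mk g).coeff x = g x := by
  rw [mk, coeff_ofCoeff]
  rfl

/-- `conv` as a linear map -/
noncomputable def convL {k : Type*} [Field k] {A : Type*} [Group A] [Fintype A]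
    (c : MonoidAlgebra k A) : (A → k) →ₗ[k] (A → k) where
  toFun := conv c
  map_add' f g := by
    funext x
    simp only [conv, Pi.add_apply, mul_add, Finset.sum_add_distrib]
  map_smul' a f := by
    funext x
    simp only [conv, Pi.smul_apply, smul_eq_mul, RingHom.id_apply, Finset.mul_sum]
    exact Finset.sum_congr rfl fun h _ => by ring

theorem convL_apply {k : Type*} [Field k] {A : Type*} [Group A] [Fintype A]
    (c : MonoidAlgebra k A) (f : A → k) : convL c f = conv c f := rfl

theorem preg_inv {p : ℕ} {A : Type*} [Group A] {x : A} : Preg p x⁻¹ ↔ Preg p x := by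
  unfold Preg
  rw [orderOf_inv]

open Classical in
/-- the function attached to an element of the group algebra -/
noncomputable def PsiL (p : ℕ) {k : Type*} [Field k] {A : Type*} [Group A] (K : Subgroup A) :
    MonoidAlgebra k A →ₗ[k] (A → k) where
  toFun a := fun x => if x ∈ K then a.coeff (pr p x)⁻¹ else 0
  map_add' a b := by
    funext x
    by_cases hx : x ∈ K
    · simp only [if_pos hx, coeff_add, Finsupp.add_apply, Pi.add_apply]
    · simp only [if_neg hx, Pi.add_apply, add_zero]
  map_smul' c a := by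
    funext x
    by_cases hx : x ∈ K
    · simp only [if_pos hx, coeff_smul_apply, Pi.smul_apply, smul_eq_mul, RingHom.id_apply]
    · simp only [if_neg hx, Pi.smul_apply, smul_eq_mul, RingHom.id_apply, mul_zero]

theorem PsiL_of_mem {p : ℕ} {k : Type*} [Field k] {A : Type*} [Group A] {K : Subgroup A}
    (a : MonoidAlgebra k A) {x : A} (hx : x ∈ K) : PsiL p K a x = a.coeff (pr p x)⁻¹ := by
  simp only [PsiL, LinearMap.coe_mk, AddHom.coe_mk, if_pos hx]

theorem PsiL_of_notMem {p : ℕ} {k : Type*} [Field k] {A : Type*} [Group A] {K : Subgroup A}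
    (a : MonoidAlgebra k A) {x : A} (hx : x ∉ K) : PsiL p K a x = 0 := by
  simp only [PsiL, LinearMap.coe_mk, AddHom.coe_mk, if_neg hx]

end DimAux

open DimAux

/-- `N` is a normal p'-subgroup of `K`: p-regularity depends only on the coset of `N`.  (If `y` is
p-regular, of order `m`, then `(h y) ^ m ∈ N`, so `(h y) ^ (m |N|) = 1`.) -/
theorem preg_mul [Fact p.Prime] [Finite A] (hn : K ≤ Subgroup.normalizer (N : Set A))
    (hN : ¬ p ∣ Nat.card N) {y z : A} (hy : y ∈ K) (hz : z * y⁻¹ ∈ N) (hp : Preg p y) :
    Preg p z := by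
  intro h1
  have h2 : z ^ orderOf y ∈ N := by
    have := pow_mem hn hy hz (orderOf y)
    rwa [pow_orderOf_eq_one, inv_one, mul_one] at this
  have h3 : z ^ (orderOf y * Nat.card N) = 1 := by
    rw [pow_mul]
    have := pow_card_eq_one' (x := (⟨z ^ orderOf y, h2⟩ : N))
    exact congrArg Subtype.val this
  have h4 := h1.trans (orderOf_dvd_of_pow_eq_one h3)
  rcases (Fact.out : p.Prime).dvd_mul.1 h4 with h | h
  · exact hp h
  · exact hN h

theorem card_irX_eq [Fact p.Prime] [CharP k p] [IsAlgClosed k] [Fintype A] (h : Tri p N K e) :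
    Nat.card (IrX K e) = Module.finrank k (Zs p K e) := by
  classical
  have heN : SuppIn N e := (mem_fixAlg.1 h.blk.mem).1
  have heK : SuppIn K e := heN.mono h.le
  have hee : e * e = e := h.blk.idem
  have hcard : Nat.card (IrX K e) = Nat.card {χ : IrrCh k K // conv e (χ : A → k) = (χ : A → k)} := by
    refine (card_irr_inv (X := ⊥) bot_le heK h.inv hee).trans ?_
    refine Nat.card_congr (Equiv.subtypeEquivRight fun χ => ?_)
    constructor
    · exact fun h1 => h1.1
    · intro h1
      refine ⟨h1, fun g hg x => ?_⟩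
      rw [Subgroup.mem_bot] at hg
      rw [hg]
      simp
  rw [hcard]
  set S : Type _ := {χ : IrrCh k K // conv e (χ : A → k) = (χ : A → k)} with hS
  let v : S → (A → k) := fun χ => ((χ : IrrCh k K) : A → k)
  have hli : LinearIndependent k v :=
    (chi_linearIndependent (k := k) K).comp (fun χ : S => (χ : IrrCh k K)) Subtype.val_injective
  have : Fintype S := Fintype.ofFinite _
  have hmemX : ∀ χ : IrrCh k K, (χ : A → k) ∈ XH p k K := by
    intro χ
    rw [← span_IrrCh]
    exact Submodule.subset_span χ.2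
  -- the inverse elements
  have hpK : ∀ {h z : A}, h ∈ N → z ∈ K → (Preg p (h * z) ↔ Preg p z) := by
    intro g z hg hz
    constructor
    · intro h1
      refine preg_mul h.nm h.pp (K.mul_mem (h.le hg) hz) ?_ h1
      have e1 : z * (g * z)⁻¹ = g⁻¹ := by group
      rw [e1]
      exact N.inv_mem hg
    · intro h1
      refine preg_mul h.nm h.pp hz ?_ h1
      have e1 : g * z * z⁻¹ = g := by group
      rw [e1]
      exact hg
  -- `a * e = a`
  have hcomm : ∀ a ∈ Zs p K e, a * e = a := by
    intro a ha
    obtain ⟨-, h2, h3⟩ := mem_Zs.1 ha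
    have h4 : a * e = e * a := by
      ext z
      rw [coeff_mul_fin, coeff_mul_fin]
      rw [← Equiv.sum_comp ((Equiv.inv A).trans (Equiv.mulLeft z))
        (fun y => a.coeff y * e.coeff (y⁻¹ * z))]
      refine Finset.sum_congr rfl fun y _ => ?_
      change a.coeff (z * y⁻¹) * e.coeff ((z * y⁻¹)⁻¹ * z) = e.coeff y * a.coeff (y⁻¹ * z)
      have e1 : (z * y⁻¹)⁻¹ * z = y := by group
      rw [e1, mul_comm]
      by_cases hy : e.coeff y = 0
      · rw [hy, zero_mul, zero_mul]
      · have e2 : z * y⁻¹ = y * (y⁻¹ * z) * y⁻¹ := by group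
        rw [e2, h2 y (heK y hy)]
    rw [h4, h3]
  -- `conv e` maps `XH` into itself
  have hconvX : ∀ f ∈ XH p k K, conv e f ∈ XH p k K := by
    intro f hf
    rw [← span_IrrCh] at hf
    have h1 : XH p k K = (XH p k K : Submodule k (A → k)) := rfl
    change convL e f ∈ XH p k K
    induction hf using Submodule.span_induction with
    | mem x hx =>
      change conv e x ∈ XH p k K
      by_cases hc : conv e x = x
      · rw [hc]; exact hmemX ⟨x, hx⟩
      · have := conv_eq_zero_of_ne heK h.inv hee ⟨x, hx⟩ hc
        change conv e x = 0 at this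
        rw [this]
        exact Submodule.zero_mem _
    | zero => rw [map_zero]; exact Submodule.zero_mem _
    | add x y _ _ hx hy => rw [map_add]; exact Submodule.add_mem _ hx hy
    | smul a x _ hx => rw [map_smul]; exact Submodule.smul_mem _ a hx
  -- functions in `XH` that are fixed by `conv e`
  have hspan : ∀ f ∈ XH p k K, conv e f = f → f ∈ Submodule.span k (Set.range v) := by
    intro f hf hfe
    have h1 : ∀ g ∈ Submodule.span k (IrrCh k K), convL e g ∈ Submodule.span k (Set.range v) := by
      intro g hg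
      induction hg using Submodule.span_induction with
      | mem x hx =>
        change conv e x ∈ _
        by_cases hc : conv e x = x
        · rw [hc]
          exact Submodule.subset_span ⟨⟨⟨x, hx⟩, hc⟩, rfl⟩
        · have := conv_eq_zero_of_ne heK h.inv hee ⟨x, hx⟩ hc
          change conv e x = 0 at this
          rw [this]
          exact Submodule.zero_mem _
      | zero => rw [map_zero]; exact Submodule.zero_mem _
      | add x y _ _ hx hy => rw [map_add]; exact Submodule.add_mem _ hx hy
      | smul a x _ hx => rw [map_smul]; exact Submodule.smul_mem _ a hx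
    rw [← span_IrrCh] at hf
    have h2 := h1 f hf
    rw [convL_apply, hfe] at h2
    exact h2
  -- the image of an element of `Zs`
  have hPsiX : ∀ a ∈ Zs p K e, PsiL p K a ∈ XH p k K := by
    intro a ha
    obtain ⟨h1, h2, -⟩ := mem_Zs.1 ha
    rw [mem_XH]
    refine ⟨fun x hx => PsiL_of_notMem a hx, fun g hg x => ?_, fun x hx => ?_⟩
    · by_cases hx : x ∈ K
      · have hx' : g * x * g⁻¹ ∈ K := K.mul_mem (K.mul_mem hg hx) (K.inv_mem hg)
        rw [PsiL_of_mem a hx, PsiL_of_mem a hx', pr_conj]
        have e1 : (g * pr p x * g⁻¹)⁻¹ = g * (pr p x)⁻¹ * g⁻¹ := by group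
        rw [e1, h2 g hg]
      · have hx' : g * x * g⁻¹ ∉ K := by
          intro h3
          apply hx
          have := K.mul_mem (K.mul_mem (K.inv_mem hg) h3) hg
          have e1 : g⁻¹ * (g * x * g⁻¹) * g = x := by group
          rwa [e1] at this
        rw [PsiL_of_notMem a hx, PsiL_of_notMem a hx']
    · rw [PsiL_of_mem a hx, PsiL_of_mem a (pr_mem hx), pr_pr]
  have hPsic : ∀ a ∈ Zs p K e, conv e (PsiL p K a) = PsiL p K a := by
    intro a ha
    have hX := hPsiX a ha
    have hX' := hconvX _ hX
    obtain ⟨a1, a2, a3⟩ := mem_XH.1 hX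
    obtain ⟨b1, b2, b3⟩ := mem_XH.1 hX'
    funext x
    by_cases hx : x ∈ K
    · rw [← b3 x hx, ← a3 x hx]
      have hy : pr p x ∈ K := pr_mem hx
      have hyr : Preg p (pr p x) := preg_pr x
      generalize pr p x = y at hy hyr
      rw [PsiL_of_mem a hy, pr_eq_self hyr]
      have h4 : (a * e).coeff y⁻¹ = a.coeff y⁻¹ := by rw [hcomm a ha]
      rw [← h4, coeff_mul_fin, conv]
      rw [← Equiv.sum_comp ((Equiv.inv A).trans (Equiv.mulLeft y⁻¹))
        (fun z => a.coeff z * e.coeff (z⁻¹ * y⁻¹))]
      refine Finset.sum_congr rfl fun g _ => ?_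
      change e.coeff g * PsiL p K a (g * y)
        = a.coeff (y⁻¹ * g⁻¹) * e.coeff ((y⁻¹ * g⁻¹)⁻¹ * y⁻¹)
      have e1 : (y⁻¹ * g⁻¹)⁻¹ * y⁻¹ = g := by group
      rw [e1]
      by_cases hg : e.coeff g = 0
      · rw [hg, zero_mul, mul_zero]
      · have hgN : g ∈ N := heN g hg
        rw [PsiL_of_mem a (K.mul_mem (h.le hgN) hy), pr_eq_self ((hpK hgN hy).2 hyr), mul_inv_rev,
          mul_comm]
    · rw [b1 x hx, a1 x hx]
  -- injectivity
  let Φ : Zs p K e →ₗ[k] (A → k) := (PsiL p K).comp (Zs p K e).subtype
  have hinj : Function.Injective Φ := by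
    rw [← LinearMap.ker_eq_bot, LinearMap.ker_eq_bot']
    rintro ⟨a, ha⟩ h0
    obtain ⟨h1, h2, h3⟩ := mem_Zs.1 ha
    apply Subtype.ext
    change a = 0
    ext y
    by_contra hne
    have hne' : a.coeff y ≠ 0 := by
      intro h5
      apply hne
      rw [h5]
      simp
    obtain ⟨hyK, hyr⟩ := h1 y hne'
    have h4 := congrFun h0 y⁻¹
    change PsiL p K a y⁻¹ = 0 at h4
    rw [PsiL_of_mem a (K.inv_mem hyK), pr_eq_self (preg_inv.2 hyr), inv_inv] at h4
    exact hne' h4
  have hrange : LinearMap.range Φ = Submodule.span k (Set.range v) := by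
    apply le_antisymm
    · rintro _ ⟨⟨a, ha⟩, rfl⟩
      exact hspan _ (hPsiX a ha) (hPsic a ha)
    · rw [Submodule.span_le]
      rintro _ ⟨⟨χ, hχ⟩, rfl⟩
      obtain ⟨h1, h2, h3⟩ := mem_XH.1 (hmemX χ)
      set f : A → k := (χ : A → k) with hf
      let a : MonoidAlgebra k A := mk fun y => if y ∈ K ∧ Preg p y then f y⁻¹ else 0
      have hacoeff : ∀ y, a.coeff y = if y ∈ K ∧ Preg p y then f y⁻¹ else 0 := fun y =>
        coeff_mk _ y
      have haZ : a ∈ Zs p K e := by
        rw [mem_Zs]
        refine ⟨fun z hz => ?_, fun g hg z => ?_, ?_⟩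
        · by_contra hc
          apply hz
          rw [hacoeff, if_neg hc]
        · rw [hacoeff, hacoeff]
          have hiff : (g * z * g⁻¹ ∈ K ∧ Preg p (g * z * g⁻¹)) ↔ (z ∈ K ∧ Preg p z) := by
            rw [preg_conj]
            have : g * z * g⁻¹ ∈ K ↔ z ∈ K :=
              (Subgroup.mem_normalizer_iff.1 (Subgroup.le_normalizer hg) z).symm
            rw [this]
          rw [if_congr hiff rfl rfl]
          have e1 : (g * z * g⁻¹)⁻¹ = g * z⁻¹ * g⁻¹ := by group
          rw [e1, h2 g hg]
        · ext z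
          rw [coeff_mul_fin]
          by_cases hz : z ∈ K ∧ Preg p z
          · rw [hacoeff z, if_pos hz]
            have h5 := congrFun hχ z⁻¹
            change conv e f z⁻¹ = f z⁻¹ at h5
            rw [← h5, conv]
            refine Finset.sum_congr rfl fun g _ => ?_
            by_cases hg : e.coeff g = 0
            · rw [hg, zero_mul, zero_mul]
            · have hgN : g ∈ N := heN g hg
              have hgK : g ∈ K := h.le hgN
              rw [hacoeff, if_pos ⟨K.mul_mem (K.inv_mem hgK) hz.1,
                (hpK (N.inv_mem hgN) hz.1).2 hz.2⟩]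
              have e1 : g * z⁻¹ = g * ((g⁻¹ * z)⁻¹) * g⁻¹ := by group
              rw [e1, h2 g hgK]
          · rw [hacoeff z, if_neg hz]
            apply Finset.sum_eq_zero
            intro g _
            by_cases hg : e.coeff g = 0
            · rw [hg, zero_mul]
            · have hgN : g ∈ N := heN g hg
              have hgK : g ∈ K := h.le hgN
              rw [hacoeff, if_neg, mul_zero]
              rintro ⟨h6, h7⟩
              have h8 : z ∈ K := by
                have := K.mul_mem hgK h6
                have e1 : g * (g⁻¹ * z) = z := by group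
                rwa [e1] at this
              exact hz ⟨h8, (hpK (N.inv_mem hgN) h8).1 h7⟩
      refine ⟨⟨a, haZ⟩, ?_⟩
      funext x
      change PsiL p K a x = f x
      by_cases hx : x ∈ K
      · rw [PsiL_of_mem a hx, hacoeff, if_pos ⟨K.inv_mem (pr_mem hx), preg_inv.2 (preg_pr x)⟩,
          inv_inv, h3 x hx]
      · rw [PsiL_of_notMem a hx, h1 x hx]
  have hfin : Module.finrank k (Zs p K e) = Module.finrank k (Submodule.span k (Set.range v)) := by
    rw [← hrange]
    exact (LinearMap.finrank_range_of_inj hinj).symm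
  rw [hfin, finrank_span_eq_card hli, Nat.card_eq_fintype_card]

end Pool.Agent.Lib.P0c8ca5.Ps
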