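import Mathlib
import Pool.Agent.Lib.P0c8ca5S.Cm
import Pool.Agent.Lib.P0c8ca5S.Coc
import Pool.Agent.Lib.P0c8ca5S.Dim

/-!
# Module Zeq: `Zs p K e` as a space of functions that transform by a cocycle

`L ≤ K` with `N L = K` and `C = N ⊓ L`.  `XL p C L` is the set of the p-regular elements of `L` modulo `C`,
with the action of `L` by conjugation.

PROOF.  For `X ∈ XL p C L` choose a representative `x = X.out` and `u X = lu N e x ≠ 0`.  For `g ∈ L`,
`cj g (u X)` is in the line of `g x g⁻¹`, hence of the representative of `g X` (`Ln_cj`, `Ln_congr`), so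
`cj g (u X) = γ g X • u (g X)` with `γ g X ≠ 0` (`ln_line`); `γ` is a cocycle
(`γ (g h) X = γ g (h X) * γ h X`).  `a ∈ Zs p K e` is a combination of the `u X`: the part of `a` on the
coset `N x` is in the line of `x` (`N` normalizes every coset `N x`, `x ∈ K`, and `e * a = a`), so it is
`F X • u X`; the cosets of `N` in `K` that contain p-regular elements consist of them (`preg_mul`) and
correspond to `XL p C L`.  `cj g a = a` for `g ∈ L` says `F (g X) = γ g X * F X` (compare the parts), and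
the elements of `N` act trivially on the lines, so `K`-invariance is `L`-invariance.  So `Zs p K e ≃ InvC γ`.
If `g x g⁻¹ x⁻¹ ∈ C` for `x ∈ L` then `g X = X` for the class `X` of `x`, and
`cm N e g x = cj g u * v = γ g X • e` (`cm_eq` with `u = u X`, a generator of the line of `x`).
-/

namespace Pool.Agent.Lib.P0c8ca5.Ps

open MonoidAlgebra

variable {p : ℕ} {k : Type*} [Field k] {A : Type*} [Group A]

/-- the p-regular elements of `L` modulo `C` -/
def xlSetoid (p : ℕ) (C L : Subgroup A) : Setoid {x : A // x ∈ L ∧ Preg p x} where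
  r x y := (x : A) * (y : A)⁻¹ ∈ C
  iseqv :=
    { refl := fun x => by
        change (x : A) * (x : A)⁻¹ ∈ C
        rw [mul_inv_cancel]; exact C.one_mem
      symm := fun {x y} h => by
        have := C.inv_mem h
        rwa [mul_inv_rev, inv_inv] at this
      trans := fun {x y z} h h' => by
        have := C.mul_mem h h'
        have h2 : (x : A) * (y : A)⁻¹ * ((y : A) * (z : A)⁻¹) = (x : A) * (z : A)⁻¹ := by group
        rwa [h2] at this }

/-- the set of the classes -/
abbrev XL (p : ℕ) (C L : Subgroup A) : Type _ := Quotient (xlSetoid p C L)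

/-- there is an action of `L` on the classes by conjugation -/
theorem exists_conj_action [Finite A] {C L : Subgroup A} (hn : L ≤ Subgroup.normalizer (C : Set A)) :
    ∃ φ : L →* Equiv.Perm (XL p C L), ∀ (g : L) (x y : {x : A // x ∈ L ∧ Preg p x}),
      (φ g (Quotient.mk _ x) = Quotient.mk _ y ↔ (g : A) * x * (g : A)⁻¹ * (y : A)⁻¹ ∈ C) := by
  let A0 : L → {x : A // x ∈ L ∧ Preg p x} → {x : A // x ∈ L ∧ Preg p x} := fun g x =>
    ⟨(g : A) * x * (g : A)⁻¹, L.mul_mem (L.mul_mem g.2 x.2.1) (L.inv_mem g.2),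
      (preg_conj (g : A) (x : A)).2 x.2.2⟩
  have hA0 : ∀ (g : L) (x y : {x : A // x ∈ L ∧ Preg p x}), (xlSetoid p C L).r x y →
      (xlSetoid p C L).r (A0 g x) (A0 g y) := by
    intro g x y hxy
    have h1 : (x : A) * (y : A)⁻¹ ∈ C := hxy
    have h2 := (Subgroup.mem_normalizer_iff.1 (hn g.2) _).1 h1
    have h3 : (g : A) * x * (g : A)⁻¹ * ((g : A) * y * (g : A)⁻¹)⁻¹
        = (g : A) * ((x : A) * (y : A)⁻¹) * (g : A)⁻¹ := by group
    change (g : A) * x * (g : A)⁻¹ * ((g : A) * y * (g : A)⁻¹)⁻¹ ∈ C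
    rw [h3]
    exact h2
  letI : MulAction L (XL p C L) :=
    { smul := fun g => Quotient.map (A0 g) (fun x y hxy => hA0 g x y hxy)
      one_smul := by
        intro X
        induction X using Quotient.inductionOn with
        | h x =>
          change Quotient.mk _ (A0 1 x) = Quotient.mk _ x
          congr 1
          apply Subtype.ext
          change ((1 : L) : A) * x * ((1 : L) : A)⁻¹ = x
          rw [Subgroup.coe_one]
          group
      mul_smul := by
        intro g h X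
        induction X using Quotient.inductionOn with
        | h x =>
          change Quotient.mk _ (A0 (g * h) x) = Quotient.mk _ (A0 g (A0 h x))
          congr 1
          apply Subtype.ext
          change ((g * h : L) : A) * x * ((g * h : L) : A)⁻¹
            = (g : A) * ((h : A) * x * (h : A)⁻¹) * (g : A)⁻¹
          rw [Subgroup.coe_mul]
          group }
  refine ⟨MulAction.toPermHom L (XL p C L), fun g x y => ?_⟩
  change Quotient.mk _ (A0 g x) = Quotient.mk _ y ↔ _
  rw [Quotient.eq]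
  exact Iff.rfl

namespace ZeqAux

theorem invBy_smul {M : Subgroup A} {a : MonoidAlgebra k A} (c : k) (h : InvBy M a) :
    InvBy M (c • a) := by
  intro g hg x
  rw [coeff_smul_apply, coeff_smul_apply, h g hg]

theorem invBy_sum {M : Subgroup A} {ι : Type*} (T : Finset ι) {f : ι → MonoidAlgebra k A}
    (h : ∀ i, InvBy M (f i)) : InvBy M (∑ i ∈ T, f i) := by
  intro g hg x
  rw [coeff_sum, Finsupp.finsetSum_apply, Finsupp.finsetSum_apply]
  exact Finset.sum_congr rfl fun i _ => h i g hg x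

/-- a generator of the line of `x` -/
theorem lu_ne_zero [Fact p.Prime] [CharP k p] [IsAlgClosed k] [Fintype A] {N K : Subgroup A}
    {e : MonoidAlgebra k A} (h : Tri p N K e) {x : A} (hx : x ∈ K) : lu N e x ≠ 0 := by
  intro h0
  have h1 := lu_mul_lv h hx
  rw [h0, zero_mul] at h1
  exact h.blk.ne_zero h1.symm

section

variable [Fact p.Prime] [CharP k p] [IsAlgClosed k] [Fintype A] {N K L C : Subgroup A}
  {e : MonoidAlgebra k A}

/-- the part of `a` in the coset of `x` -/
theorem part_mem (h : Tri p N K e) {a : MonoidAlgebra k A} (hi : InvBy N a)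
    (ha : e * a = a) {x : A} (hx : x ∈ K) :
    resS {z : A | z * x⁻¹ ∈ N} a ∈ Ln N e x := by
  classical
  have hS : ∀ n ∈ N, ∀ z : A, n * z ∈ {z : A | z * x⁻¹ ∈ N} ↔ z ∈ {z : A | z * x⁻¹ ∈ N} := by
    intro n hn z
    rw [Set.mem_setOf_eq, Set.mem_setOf_eq, mul_assoc]
    exact N.mul_mem_cancel_left hn
  have hS2 : ∀ n ∈ N, ∀ z : A, z * n ∈ {z : A | z * x⁻¹ ∈ N} ↔ z ∈ {z : A | z * x⁻¹ ∈ N} := by
    intro n hn z
    have h2 : x * n * x⁻¹ ∈ N := (Subgroup.mem_normalizer_iff.1 (h.nm hx) n).1 hn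
    rw [Set.mem_setOf_eq, Set.mem_setOf_eq]
    have h3 : z * n * x⁻¹ = z * x⁻¹ * (x * n * x⁻¹) := by group
    rw [h3]
    exact N.mul_mem_cancel_right h2
  rw [mem_Ln]
  refine ⟨fun z hz => ?_, fun n hn z => ?_, ?_⟩
  · by_contra hc
    exact hz (coeff_resS_of_notMem _ hc)
  · rw [coeff_resS, coeff_resS, hi n hn z]
    have h1 := (hS2 n⁻¹ (N.inv_mem hn) (n * z)).trans (hS n hn z)
    by_cases hz : z ∈ {z : A | z * x⁻¹ ∈ N}
    · rw [if_pos hz, if_pos (h1.2 hz)]
    · rw [if_neg hz, if_neg (fun h2 => hz (h1.1 h2))]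
  · ext z
    rw [coeff_mul_fin, coeff_resS]
    have h4 : ∀ y, e.coeff y * (resS {z : A | z * x⁻¹ ∈ N} a).coeff (y⁻¹ * z)
        = if z ∈ {z : A | z * x⁻¹ ∈ N} then e.coeff y * a.coeff (y⁻¹ * z) else 0 := by
      intro y
      by_cases hy : e.coeff y = 0
      · rw [hy, zero_mul, zero_mul, ite_self]
      have hyN := h.blk.suppIn y hy
      have h5 := hS y⁻¹ (N.inv_mem hyN) z
      rw [coeff_resS]
      by_cases hz : z ∈ {z : A | z * x⁻¹ ∈ N}
      · rw [if_pos hz, if_pos (h5.2 hz)]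
      · rw [if_neg hz, if_neg (fun h2 => hz (h5.1 h2)), mul_zero]
    rw [Finset.sum_congr rfl fun y _ => h4 y]
    by_cases hz : z ∈ {z : A | z * x⁻¹ ∈ N}
    · simp only [if_pos hz]
      rw [← coeff_mul_fin, ha]
    · simp only [if_neg hz]
      exact Finset.sum_const_zero

/-- the generator of the line of a class -/
noncomputable def uX (N : Subgroup A) (e : MonoidAlgebra k A) (X : XL p C L) :
    MonoidAlgebra k A := lu N e (X.out : A)

theorem out_mem (hLK : L ≤ K) (X : XL p C L) : (X.out : A) ∈ K := hLK X.out.2.1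

theorem uX_mem (h : Tri p N K e) (hLK : L ≤ K) (X : XL p C L) :
    uX N e X ∈ Ln N e (X.out : A) := lu_mem h (out_mem hLK X)

theorem uX_ne (h : Tri p N K e) (hLK : L ≤ K) (X : XL p C L) : uX N e X ≠ 0 :=
  lu_ne_zero h (out_mem hLK X)

/-- different classes have different cosets -/
theorem coset_inj (hC : ∀ x ∈ L, x ∈ N ↔ x ∈ C) {X Y : XL p C L} {z : A}
    (hX : z * (X.out : A)⁻¹ ∈ N) (hY : z * (Y.out : A)⁻¹ ∈ N) : X = Y := by
  have h1 : (X.out : A) * (Y.out : A)⁻¹ ∈ N := by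
    have := N.mul_mem (N.inv_mem hX) hY
    have h2 : (z * (X.out : A)⁻¹)⁻¹ * (z * (Y.out : A)⁻¹) = (X.out : A) * (Y.out : A)⁻¹ := by
      group
    rwa [h2] at this
  have h2 : (X.out : A) * (Y.out : A)⁻¹ ∈ C :=
    (hC _ (L.mul_mem X.out.2.1 (L.inv_mem Y.out.2.1))).1 h1
  have h3 : (Quotient.mk (xlSetoid p C L) X.out) = Quotient.mk (xlSetoid p C L) Y.out :=
    Quotient.sound h2
  rwa [Quotient.out_eq, Quotient.out_eq] at h3

theorem coeff_sum_uX [Fintype (XL p C L)] (h : Tri p N K e) (hLK : L ≤ K)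
    (hC : ∀ x ∈ L, x ∈ N ↔ x ∈ C) (F : XL p C L → k) (X : XL p C L) {z : A}
    (hX : z * (X.out : A)⁻¹ ∈ N) :
    (∑ Y : XL p C L, F Y • uX N e Y).coeff z = F X * (uX N e X).coeff z := by
  rw [coeff_sum, Finsupp.finsetSum_apply, Finset.sum_eq_single X]
  · rw [coeff_smul_apply, smul_eq_mul]
  · intro Y _ hYX
    rw [coeff_smul_apply, smul_eq_mul]
    have h1 : (uX N e Y).coeff z = 0 := by
      by_contra h2
      have h3 := ((mem_Ln.1 (uX_mem h hLK Y)).1 z h2)
      exact hYX (coset_inj hC h3 hX)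
    rw [h1, mul_zero]
  · intro hX'
    exact absurd (Finset.mem_univ _) hX'

theorem coeff_sum_uX_zero [Fintype (XL p C L)] (h : Tri p N K e) (hLK : L ≤ K)
    (F : XL p C L → k) {z : A}
    (hX : ∀ X : XL p C L, z * (X.out : A)⁻¹ ∉ N) :
    (∑ Y : XL p C L, F Y • uX N e Y).coeff z = 0 := by
  rw [coeff_sum, Finsupp.finsetSum_apply]
  apply Finset.sum_eq_zero
  intro Y _
  rw [coeff_smul_apply, smul_eq_mul]
  have h1 : (uX N e Y).coeff z = 0 := by
    by_contra h2
    exact hX Y ((mem_Ln.1 (uX_mem h hLK Y)).1 z h2)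
  rw [h1, mul_zero]

theorem sum_uX_inj [Fintype (XL p C L)] (h : Tri p N K e) (hLK : L ≤ K)
    (hC : ∀ x ∈ L, x ∈ N ↔ x ∈ C) {F F' : XL p C L → k}
    (hF : ∑ Y : XL p C L, F Y • uX N e Y = ∑ Y : XL p C L, F' Y • uX N e Y) : F = F' := by
  funext X
  obtain ⟨z, hz⟩ := exists_coeff (uX_ne h hLK X)
  have hzX := (mem_Ln.1 (uX_mem h hLK X)).1 z hz
  have h1 := coeff_sum_uX h hLK hC F X hzX
  have h2 := coeff_sum_uX h hLK hC F' X hzX
  rw [hF, h2] at h1
  exact (mul_right_cancel₀ hz h1).symm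

theorem sum_uX_mem [Fintype (XL p C L)] (h : Tri p N K e) (hLK : L ≤ K)
    (F : XL p C L → k) :
    (∀ z, (∑ Y : XL p C L, F Y • uX N e Y).coeff z ≠ 0 → z ∈ K ∧ Preg p z) ∧
      InvBy N (∑ Y : XL p C L, F Y • uX N e Y) ∧
      e * (∑ Y : XL p C L, F Y • uX N e Y) = ∑ Y : XL p C L, F Y • uX N e Y := by
  refine ⟨fun z hz => ?_, ?_, ?_⟩
  · by_cases hX : ∃ X : XL p C L, z * (X.out : A)⁻¹ ∈ N
    · obtain ⟨X, hX⟩ := hX
      refine ⟨?_, preg_mul h.nm h.pp (out_mem hLK X) hX X.out.2.2⟩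
      have h1 := K.mul_mem (h.le hX) (out_mem hLK X)
      rwa [inv_mul_cancel_right] at h1
    · push Not at hX
      exact absurd (coeff_sum_uX_zero h hLK F hX) hz
  · exact invBy_sum _ fun Y => invBy_smul _ (mem_Ln.1 (uX_mem h hLK Y)).2.1
  · rw [Finset.mul_sum]
    refine Finset.sum_congr rfl fun Y _ => ?_
    rw [mul_smul_comm, (mem_Ln.1 (uX_mem h hLK Y)).2.2]

/-- every element of `Zs` is a combination -/
theorem exists_sum_uX [Fintype (XL p C L)] (h : Tri p N K e) (hLK : L ≤ K)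
    (hNL : N ⊔ L = K) (hC : ∀ x ∈ L, x ∈ N ↔ x ∈ C) (hCL : C ≤ L) {a : MonoidAlgebra k A}
    (ha : a ∈ Zs p K e) : ∃ F : XL p C L → k, a = ∑ Y : XL p C L, F Y • uX N e Y := by
  obtain ⟨h1, h2, h3⟩ := mem_Zs.1 ha
  have h4 : ∀ X : XL p C L, ∃ c : k,
      resS {z : A | z * (X.out : A)⁻¹ ∈ N} a = c • uX N e X := fun X =>
    ln_line h (out_mem hLK X) (uX_mem h hLK X) (uX_ne h hLK X)
      (part_mem h (h2.mono h.le) h3 (out_mem hLK X))
  choose F hF using h4
  refine ⟨F, ?_⟩
  ext z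
  by_cases hX : ∃ X : XL p C L, z * (X.out : A)⁻¹ ∈ N
  · obtain ⟨X, hX⟩ := hX
    rw [coeff_sum_uX h hLK hC F X hX]
    have h5 : (resS {z : A | z * (X.out : A)⁻¹ ∈ N} a).coeff z = a.coeff z :=
      coeff_resS_of_mem a hX
    rw [← h5, hF X, coeff_smul_apply, smul_eq_mul]
  · push Not at hX
    rw [coeff_sum_uX_zero h hLK F hX]
    by_contra h0
    obtain ⟨hzK, hzp⟩ := h1 z h0
    have h6 : (z : A) ∈ ((N ⊔ L : Subgroup A) : Set A) := by rw [hNL]; exact hzK
    rw [Subgroup.coe_mul_of_right_le_normalizer_left N L (hLK.trans h.nm)] at h6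
    obtain ⟨n, hn, l, hl, rfl⟩ := h6
    have hlp : Preg p l := by
      refine preg_mul h.nm h.pp hzK ?_ hzp
      have : l * (n * l)⁻¹ = n⁻¹ := by group
      rw [this]
      exact N.inv_mem hn
    let X : XL p C L := Quotient.mk _ ⟨l, hl, hlp⟩
    apply hX X
    have h7 : (X.out : A) * l⁻¹ ∈ C := by
      have h8 : Quotient.mk (xlSetoid p C L) X.out = Quotient.mk _ ⟨l, hl, hlp⟩ :=
        Quotient.out_eq X
      exact Quotient.exact h8
    have h8 : (X.out : A) * l⁻¹ ∈ N := (hC _ (hCL h7)).2 h7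
    have h9 : n * l * (X.out : A)⁻¹ = n * ((X.out : A) * l⁻¹)⁻¹ := by group
    change n * l * (X.out : A)⁻¹ ∈ N
    rw [h9]
    exact N.mul_mem hn (N.inv_mem h8)

end

end ZeqAux

theorem zs_eq [Fact p.Prime] [CharP k p] [IsAlgClosed k] [Fintype A] {N K L C : Subgroup A}
    {e : MonoidAlgebra k A} (h : Tri p N K e) (hLK : L ≤ K) (hNL : N ⊔ L = K)
    (hC : ∀ x ∈ L, x ∈ N ↔ x ∈ C) (hCL : C ≤ L) (φ : L →* Equiv.Perm (XL p C L))
    (hφ : ∀ (g : L) (x y : {x : A // x ∈ L ∧ Preg p x}),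
      (φ g (Quotient.mk _ x) = Quotient.mk _ y ↔ (g : A) * x * (g : A)⁻¹ * (y : A)⁻¹ ∈ C)) :
    ∃ c : L → XL p C L → k, (∀ g h x, c (g * h) x = c g (φ h x) * c h x) ∧
      (∀ g x, c g x ≠ 0) ∧
      (∀ (g : L) (x : {x : A // x ∈ L ∧ Preg p x}), (g : A) * x * (g : A)⁻¹ * (x : A)⁻¹ ∈ C →
        cm N e g x = c g (Quotient.mk _ x) • e) ∧
      Module.finrank k (Zs p K e) = Module.finrank k (InvC φ c) := by
  classical
  have : Fintype (XL p C L) := Fintype.ofFinite _
  have hCN : ∀ x ∈ C, x ∈ N := fun x hx => (hC x (hCL hx)).2 hx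
  have hline : ∀ (g : L) (X : XL p C L), ∃ c : k, c ≠ 0 ∧
      cj (g : A) (ZeqAux.uX N e X) = c • ZeqAux.uX N e (φ g X) := by
    intro g X
    have hg : (g : A) ∈ K := hLK g.2
    have h1 : φ g (Quotient.mk _ X.out) = Quotient.mk _ (φ g X).out := by
      rw [Quotient.out_eq, Quotient.out_eq]
    have h2 := hCN _ ((hφ g X.out (φ g X).out).1 h1)
    have h3 := Ln_cj h hg (ZeqAux.uX_mem h hLK X)
    rw [Ln_congr h2] at h3
    obtain ⟨c, hc⟩ := ln_line h (ZeqAux.out_mem hLK (φ g X)) (ZeqAux.uX_mem h hLK (φ g X))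
      (ZeqAux.uX_ne h hLK (φ g X)) h3
    refine ⟨c, fun h0 => ?_, hc⟩
    rw [h0, zero_smul] at hc
    have h4 : ZeqAux.uX N e X = 0 := by
      rw [← cj_inv_cj (g : A) (ZeqAux.uX N e X), hc, cj_zero]
    exact ZeqAux.uX_ne h hLK X h4
  choose γ hγ0 hγ using hline
  refine ⟨γ, fun g h' X => ?_, hγ0, fun g x hx => ?_, ?_⟩
  · have h1 := hγ (g * h') X
    rw [Subgroup.coe_mul, ← cj_cj, hγ h' X, cj_smul, hγ g (φ h' X), smul_smul, map_mul,
      Equiv.Perm.mul_apply] at h1
    have h2 := smul_left_injective k (ZeqAux.uX_ne h hLK (φ g (φ h' X))) h1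
    rw [← h2, mul_comm]
  · set X : XL p C L := Quotient.mk _ x with hX
    have hxK : (x : A) ∈ K := hLK x.2.1
    have hfix : φ g X = X := (hφ g x x).2 hx
    have h1 : (X.out : A) * (x : A)⁻¹ ∈ N := by
      apply hCN
      have h8 : Quotient.mk (xlSetoid p C L) X.out = Quotient.mk _ x := Quotient.out_eq X
      exact Quotient.exact h8
    have h2 : ZeqAux.uX N e X ∈ Ln N e (x : A) := by
      rw [← Ln_congr h1]
      exact ZeqAux.uX_mem h hLK X
    obtain ⟨v, hv, huv, _⟩ := ln_inv h hxK h2 (ZeqAux.uX_ne h hLK X)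
    have h3 := cm_eq h (hLK g.2) hxK h2 hv huv
    rw [hγ g X, hfix, smul_mul_assoc, huv] at h3
    exact h3.symm
  · -- the linear equivalence
    have hinj := fun {F F' : XL p C L → k} => ZeqAux.sum_uX_inj (F := F) (F' := F') h hLK hC
    have hcj : ∀ (g : L) (F : XL p C L → k),
        cj (g : A) (∑ Y : XL p C L, F Y • ZeqAux.uX N e Y)
          = ∑ Y : XL p C L, (F ((φ g).symm Y) * γ g ((φ g).symm Y)) • ZeqAux.uX N e Y := by
      intro g F
      rw [cj_sum]
      rw [← Equiv.sum_comp (φ g)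
        (fun Y => (F ((φ g).symm Y) * γ g ((φ g).symm Y)) • ZeqAux.uX N e Y)]
      refine Finset.sum_congr rfl fun Y _ => ?_
      rw [cj_smul, hγ g Y, smul_smul, Equiv.symm_apply_apply]
    let Ψ : InvC φ γ →ₗ[k] Zs p K e :=
      { toFun := fun F => ⟨∑ Y : XL p C L, (F : XL p C L → k) Y • ZeqAux.uX N e Y, by
          obtain ⟨h1, h2, h3⟩ := ZeqAux.sum_uX_mem h hLK (F : XL p C L → k)
          refine mem_Zs.2 ⟨h1, ?_, h3⟩
          rw [← hNL]
          refine invBy_sup h2 ?_
          rw [invBy_iff_cj]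
          intro g hg
          have h4 := hcj ⟨g, hg⟩ (F : XL p C L → k)
          change cj g _ = _ at h4
          rw [h4]
          refine Finset.sum_congr rfl fun Y _ => ?_
          have h5 := (mem_InvC.1 F.2) ⟨g, hg⟩ ((φ ⟨g, hg⟩).symm Y)
          rw [Equiv.apply_symm_apply] at h5
          rw [h5, mul_comm]⟩
        map_add' := by
          intro F F'
          apply Subtype.ext
          change ∑ Y : XL p C L, ((F : XL p C L → k) Y + (F' : XL p C L → k) Y) • ZeqAux.uX N e Y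
            = ∑ Y : XL p C L, (F : XL p C L → k) Y • ZeqAux.uX N e Y
              + ∑ Y : XL p C L, (F' : XL p C L → k) Y • ZeqAux.uX N e Y
          rw [← Finset.sum_add_distrib]
          exact Finset.sum_congr rfl fun Y _ => add_smul _ _ _
        map_smul' := by
          intro c F
          apply Subtype.ext
          change ∑ Y : XL p C L, (c * (F : XL p C L → k) Y) • ZeqAux.uX N e Y
            = c • ∑ Y : XL p C L, (F : XL p C L → k) Y • ZeqAux.uX N e Y
          rw [Finset.smul_sum]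
          exact Finset.sum_congr rfl fun Y _ => by rw [smul_smul] }
    have hb : Function.Bijective Ψ := by
      constructor
      · intro F F' hFF
        apply Subtype.ext
        exact hinj (congrArg Subtype.val hFF)
      · intro a
        obtain ⟨F, hF⟩ := ZeqAux.exists_sum_uX h hLK hNL hC hCL a.2
        have hFinv : F ∈ InvC φ γ := by
          rw [mem_InvC]
          intro g X
          have h1 : InvBy K (a : MonoidAlgebra k A) := (mem_Zs.1 a.2).2.1
          have h2 := invBy_iff_cj.1 h1 g (hLK g.2)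
          rw [hF, hcj g F] at h2
          have h3 := congrFun (hinj h2) (φ g X)
          rw [Equiv.symm_apply_apply] at h3
          rw [← h3, mul_comm]
        refine ⟨⟨F, hFinv⟩, ?_⟩
        apply Subtype.ext
        exact hF.symm
    exact (LinearEquiv.ofBijective Ψ hb).symm.finrank_eq

end Pool.Agent.Lib.P0c8ca5.Ps
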