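import Mathlib
import Pool.Agent.Lib.P0c8ca5S.Zeq
import Pool.Agent.Lib.P0c8ca5S.Chn
import Pool.Agent.Lib.P0c8ca5S.Wgt

/-!
# Module Cmp: the comparison of `(K, e)` and `(N_K(P), Br_P(e))`

`P` is a p-group with `N P` normal in `K`, `L = N_K(P)`, `C = C_N(P)`.

PROOF of `card_eq_of_normal`.  `K = N L` (Frattini: `P` is a Sylow subgroup of `N P`, so for `g ∈ K` the
group `g P g⁻¹ ≤ N P` is conjugate to `P` under `N`), `N ⊓ L = N ⊓ C(P)` (`[N_N(P), P] ≤ N ⊓ P = 1`).  By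
`card_irX_eq` and `zs_eq` for `(N, K, e, L, C)` and for `(C, L, br P e, L, C)` (`tri_br`) and `finrank_InvC` it is
enough that the two cocycles `c`, `c'` agree on stabilizers: let `g ∈ L`, `x ∈ L` p-regular,
`g x g⁻¹ x⁻¹ ∈ C`.  Let `g' = pr p g` and `g'' = g * (pr p g)⁻¹`, powers of `g`, so also
`[g', x], [g'', x] ∈ C`.  `cm N e g' x = l • e`, `cm N e g'' x = m • e` (lines of elements of `N`,
`Tri.scalar`), `m ^ p ^ n = 1` for `g'' ^ p ^ n = 1` (`cm_mul_left`, `cm_one_left`), so `m = 1`, and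
`cm N e g x = (l * m) • e`; the same for the other triple, `l'`, `m' = 1`; and `br_cm_two` for `g'`, `x` gives
`l • br P e = br P (cm N e g' x) = l' • br P e`, so `l = l'`.
-/

namespace Pool.Agent.Lib.P0c8ca5.Ps

open MonoidAlgebra

variable {p : ℕ} {k : Type*} [Field k] {A : Type*} [Group A] {N K : Subgroup A}
  {e : MonoidAlgebra k A}

namespace CmpAux

/-- a p'-group and a p-group meet trivially -/
theorem eq_one_of_mem [Fact p.Prime] [Finite A] {N P : Subgroup A} (hN : ¬ p ∣ Nat.card N)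
    (hP : IsPGroup p P) {x : A} (hxN : x ∈ N) (hxP : x ∈ P) : x = 1 := by
  obtain ⟨n, hn⟩ := hP ⟨x, hxP⟩
  have h1 : x ^ p ^ n = 1 := congrArg Subtype.val hn
  obtain ⟨j, -, hj⟩ := (Nat.dvd_prime_pow Fact.out).1 (orderOf_dvd_of_pow_eq_one h1)
  by_cases h0 : j = 0
  · rw [h0, pow_zero] at hj
    exact orderOf_eq_one_iff.1 hj
  · exfalso
    apply hN
    have h2 : p ∣ orderOf x := by rw [hj]; exact dvd_pow_self p h0
    exact h2.trans (Subgroup.orderOf_dvd_natCard N hxN)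

theorem comm_mul {M K : Subgroup A} (hn : K ≤ Subgroup.normalizer (M : Set A)) {a b x : A}
    (ha : a ∈ K) (h1 : a * x * a⁻¹ * x⁻¹ ∈ M) (h2 : b * x * b⁻¹ * x⁻¹ ∈ M) :
    (a * b) * x * (a * b)⁻¹ * x⁻¹ ∈ M := by
  have h3 := (Subgroup.mem_normalizer_iff.1 (hn ha) _).1 h2
  have h4 := M.mul_mem h3 h1
  have e : a * (b * x * b⁻¹ * x⁻¹) * a⁻¹ * (a * x * a⁻¹ * x⁻¹)
      = (a * b) * x * (a * b)⁻¹ * x⁻¹ := by group
  rwa [e] at h4

theorem comm_inv {M K : Subgroup A} (hn : K ≤ Subgroup.normalizer (M : Set A)) {a x : A}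
    (ha : a ∈ K) (h1 : a * x * a⁻¹ * x⁻¹ ∈ M) : a⁻¹ * x * a⁻¹⁻¹ * x⁻¹ ∈ M := by
  have h3 := (Subgroup.mem_normalizer_iff.1 (hn (K.inv_mem ha)) _).1 (M.inv_mem h1)
  have e : a⁻¹ * (a * x * a⁻¹ * x⁻¹)⁻¹ * a⁻¹⁻¹ = a⁻¹ * x * a⁻¹⁻¹ * x⁻¹ := by group
  rwa [e] at h3

theorem comm_pow {M K : Subgroup A} (hn : K ≤ Subgroup.normalizer (M : Set A)) {a x : A}
    (ha : a ∈ K) (h1 : a * x * a⁻¹ * x⁻¹ ∈ M) (n : ℕ) :
    (a ^ n) * x * (a ^ n)⁻¹ * x⁻¹ ∈ M := by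
  induction n with
  | zero =>
    have e : (a ^ 0) * x * (a ^ 0)⁻¹ * x⁻¹ = 1 := by group
    rw [e]; exact M.one_mem
  | succ n ih =>
    rw [pow_succ]
    exact comm_mul hn (K.pow_mem ha n) ih h1

end CmpAux

theorem cm_scalar [Fact p.Prime] [CharP k p] [IsAlgClosed k] [Fintype A] (h : Tri p N K e)
    {g x : A} (hg : g ∈ K) (hx : x ∈ K) (hgx : g * x * g⁻¹ * x⁻¹ ∈ N) :
    ∃ l : k, cm N e g x = l • e := by
  obtain ⟨h1, h2, h3⟩ := mem_Ln.1 (cm_mem h hg hx)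
  refine h.scalar (fun z hz => ?_) h2 h3
  have h4 := N.mul_mem (h1 z hz) hgx
  rwa [inv_mul_cancel_right] at h4

theorem CmpAux.cm_pow_left [Fact p.Prime] [CharP k p] [IsAlgClosed k] [Fintype A]
    (h : Tri p N K e) {g x : A} (hg : g ∈ K) (hx : x ∈ K) {m : k}
    (hm : cm N e g x = m • e) (j : ℕ) : cm N e (g ^ j) x = m ^ j • e := by
  induction j with
  | zero => rw [pow_zero, pow_zero, one_smul, cm_one_left h hx]
  | succ j ih =>
    have hinv : ∀ y ∈ K, cj y e = e := invBy_iff_cj.1 h.inv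
    rw [pow_succ, cm_mul_left h (K.pow_mem hg j) hg hx, hm, ih, cj_smul,
      hinv _ (K.pow_mem hg j), smul_mul_smul_comm, h.blk.idem, pow_succ, mul_comm m]

/-- only the p-regular part matters -/
theorem cm_pr [Fact p.Prime] [CharP k p] [IsAlgClosed k] [Fintype A] (h : Tri p N K e)
    {g x : A} (hg : g ∈ K) (hx : x ∈ K) (hgx : g * x * g⁻¹ * x⁻¹ ∈ N) :
    cm N e g x = cm N e (pr p g) x := by
  have hinv : ∀ y ∈ K, cj y e = e := invBy_iff_cj.1 h.inv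
  have hg' : pr p g ∈ K := pr_mem hg
  have h' : pr p g * x * (pr p g)⁻¹ * x⁻¹ ∈ N := CmpAux.comm_pow h.nm hg hgx _
  have hg'' : g * (pr p g)⁻¹ ∈ K := K.mul_mem hg (K.inv_mem hg')
  have h'' : (g * (pr p g)⁻¹) * x * (g * (pr p g)⁻¹)⁻¹ * x⁻¹ ∈ N :=
    CmpAux.comm_mul h.nm hg hgx (CmpAux.comm_inv h.nm hg' h')
  obtain ⟨l, hl⟩ := cm_scalar h hg' hx h'
  obtain ⟨m, hm⟩ := cm_scalar h hg'' hx h''
  obtain ⟨n, hn⟩ := exists_pow_mul_inv_pr (p := p) g
  have h1 := CmpAux.cm_pow_left h hg'' hx hm (p ^ n)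
  rw [hn, cm_one_left h hx] at h1
  have h2 : m ^ p ^ n = 1 := by
    have h3 : (m ^ p ^ n - 1) • e = 0 := by rw [sub_smul, ← h1, one_smul, sub_self]
    rcases smul_eq_zero.1 h3 with h4 | h4
    · exact sub_eq_zero.1 h4
    · exact absurd h4 h.blk.ne_zero
  have h3 : m = 1 := by
    have h4 : (m - 1) ^ p ^ n = 0 := by rw [sub_pow_char_pow, h2, one_pow, sub_self]
    exact sub_eq_zero.1 (pow_eq_zero_iff (pow_ne_zero n (Fact.out : p.Prime).ne_zero) |>.1 h4)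
  have h4 := cm_mul_left h hg'' hg' hx
  rw [inv_mul_cancel_right] at h4
  rw [h4, hm, hl, h3, one_smul, cj_smul, hinv _ hg'', smul_mul_assoc, h.blk.idem]

namespace CmpAux

theorem isSyl_self [Fact p.Prime] [Fintype A] (hn : K ≤ Subgroup.normalizer (N : Set A))
    (hN : ¬ p ∣ Nat.card N) {P : Subgroup A} (hPK : P ≤ K) (hP : IsPGroup p P) :
    IsSyl p (N ⊔ P) P := by
  obtain ⟨S, hS⟩ := exists_isSyl (p := p) (N ⊔ P)
  obtain ⟨g, hg, hle⟩ := hS.conj P le_sup_right hP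
  have h1 : Nat.card ↥(N ⊔ P) ∣ Nat.card N * Nat.card P := by
    rw [← card_sup_mul (hPK.trans hn)]
    exact dvd_mul_right _ _
  have h2 : Nat.card S ∣ Nat.card N * Nat.card P := (Subgroup.card_dvd_of_le hS.le).trans h1
  obtain ⟨j, hj⟩ := IsPGroup.iff_card.1 hS.isPGroup
  have h3 : (Nat.card S).Coprime (Nat.card N) := by
    rw [hj]
    exact Nat.Coprime.pow_left _ ((Nat.Prime.coprime_iff_not_dvd Fact.out).2 hN)
  have h4 : Nat.card S ≤ Nat.card P :=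
    Nat.le_of_dvd Nat.card_pos (h3.dvd_of_dvd_mul_left h2)
  have h5 : P = cg g S := eq_of_le_of_card hle (by rw [card_cg]; exact h4)
  have h6 := hS.cg_self hg
  rwa [← h5] at h6

end CmpAux

theorem frattini [Fact p.Prime] [Fintype A] (hNK : N ≤ K)
    (hn : K ≤ Subgroup.normalizer (N : Set A)) (hN : ¬ p ∣ Nat.card N) {P : Subgroup A}
    (hPK : P ≤ K) (hP : IsPGroup p P)
    (hNP : K ≤ Subgroup.normalizer ((N ⊔ P : Subgroup A) : Set A)) :
    N ⊔ (K ⊓ Subgroup.normalizer (P : Set A)) = K := by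
  refine le_antisymm (sup_le hNK inf_le_left) (fun g hg => ?_)
  have hS := CmpAux.isSyl_self hn hN hPK hP
  have h1 : IsSyl p (N ⊔ P) (cg g P) := by
    have := hS.cg g
    rwa [cg_eq_self_iff.2 (hNP hg)] at this
  obtain ⟨m, hm, he⟩ := hS.conj_eq h1
  rw [mem_sup_norm (hPK.trans hn)] at hm
  obtain ⟨n, hnN, y, hy, rfl⟩ := hm
  have h2 : cg g P = cg n P := by rw [he, ← cg_cg, cg_of_mem hy]
  have h3 : n⁻¹ * g ∈ Subgroup.normalizer (P : Set A) := by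
    rw [← cg_eq_self_iff, ← cg_cg, h2, cg_cg, inv_mul_cancel, cg_one]
  have h4 : n⁻¹ * g ∈ K ⊓ Subgroup.normalizer (P : Set A) :=
    ⟨K.mul_mem (K.inv_mem (hNK hnN)) hg, h3⟩
  have h5 := Subgroup.mul_mem_sup hnN h4
  rwa [mul_inv_cancel_left] at h5

theorem card_eq_of_normal [Fact p.Prime] [CharP k p] [IsAlgClosed k] [Fintype A]
    (h : Tri p N K e) {P : Subgroup A} (hPK : P ≤ K) (hP : IsPGroup p P)
    (hNP : K ≤ Subgroup.normalizer ((N ⊔ P : Subgroup A) : Set A)) :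
    Nat.card (IrX K e)
      = Nat.card (IrX (K ⊓ Subgroup.normalizer (P : Set A)) (br P e)) := by
  set L : Subgroup A := K ⊓ Subgroup.normalizer (P : Set A) with hL
  set C : Subgroup A := N ⊓ Subgroup.centralizer (P : Set A) with hC
  have h' : Tri p C L (br P e) := tri_br h hPK hP
  have hNL : N ⊔ L = K := frattini h.le h.nm h.pp hPK hP hNP
  have hCx : ∀ x ∈ L, x ∈ N ↔ x ∈ C := by
    intro x hx
    refine ⟨fun hxN => Subgroup.mem_inf.2 ⟨hxN, Subgroup.mem_centralizer_iff.2 ?_⟩,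
      fun hxC => hxC.1⟩
    intro y hy
    have h1 : y * x * y⁻¹ * x⁻¹ ∈ N := by
      have h2 := (Subgroup.mem_normalizer_iff.1 (h.nm (hPK hy)) x).1 hxN
      exact N.mul_mem h2 (N.inv_mem hxN)
    have h2 : y * x * y⁻¹ * x⁻¹ ∈ P := by
      have h3 := (Subgroup.mem_normalizer_iff.1 hx.2 y⁻¹).1 (P.inv_mem hy)
      have h4 := P.mul_mem hy h3
      have e1 : y * (x * y⁻¹ * x⁻¹) = y * x * y⁻¹ * x⁻¹ := by group
      rwa [e1] at h4
    have h3 := CmpAux.eq_one_of_mem h.pp hP h1 h2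
    have h4 : y * x * y⁻¹ = x := mul_inv_eq_one.1 h3
    calc y * x = (y * x * y⁻¹) * y := by group
      _ = x * y := by rw [h4]
  have hCL : C ≤ L := h'.le
  obtain ⟨φ, hφ⟩ := exists_conj_action (p := p) (C := C) (L := L) h'.nm
  obtain ⟨c, hc1, hc2, hc3, hc4⟩ := zs_eq h (inf_le_left : L ≤ K) hNL hCx hCL φ hφ
  obtain ⟨c', hc1', hc2', hc3', hc4'⟩ := zs_eq h' le_rfl (sup_eq_right.2 hCL)
    (fun _ _ => Iff.rfl) hCL φ hφ
  rw [card_irX_eq h, card_irX_eq h', hc4, hc4']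
  apply finrank_InvC φ hc1 hc2 hc1' hc2'
  intro g X hgX
  obtain ⟨x, rfl⟩ := Quotient.exists_rep X
  have hgx := (hφ g x x).1 hgX
  have hgx' : (g : A) * x * (g : A)⁻¹ * (x : A)⁻¹ ∈ N := hgx.1
  have hxL : (x : A) ∈ L := x.2.1
  have hxp : Preg p (x : A) := x.2.2
  have h1 := hc3 g x hgx
  have h2 := hc3' g x hgx
  rw [cm_pr h g.2.1 hxL.1 hgx'] at h1
  rw [cm_pr h' g.2 hxL hgx] at h2
  have hprL : pr p (g : A) ∈ L := pr_mem g.2
  have h3 := br_cm_two h hPK hP hprL.1 hprL.2 hxL.1 hxL.2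
    (CmpAux.comm_pow h'.nm g.2 hgx _).2 (preg_pr _) hxp
  rw [← hC, h1, h2] at h3
  have h4 : br P (c g (Quotient.mk _ x) • e) = c g (Quotient.mk _ x) • br P e :=
    resS_smul _ _ _
  rw [h4] at h3
  have h5 : (c g (Quotient.mk _ x) - c' g (Quotient.mk _ x)) • br P e = 0 := by
    rw [sub_smul, h3, sub_self]
  rcases smul_eq_zero.1 h5 with h6 | h6
  · exact sub_eq_zero.1 h6
  · exact absurd h6 h'.blk.ne_zero

/-- the weight equality for `(N_K(P), Br_P(e))` implies that for `(K, e)` -/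
theorem weq_of_normal [Fact p.Prime] [CharP k p] [IsAlgClosed k] [Fintype A]
    (h : Tri p N K e) {P : Subgroup A} (hPK : P ≤ K) (hP : IsPGroup p P)
    (hNP : K ≤ Subgroup.normalizer ((N ⊔ P : Subgroup A) : Set A))
    (hw : Cy.WEq p (K ⊓ Subgroup.normalizer (P : Set A)) (br P e)) : Cy.WEq p K e := by
  have h1 := ws_eq h hPK hP hNP
  have h2 : Nat.card ↥(K ⊓ Subgroup.normalizer (P : Set A))
      * Nat.card (IrX (K ⊓ Subgroup.normalizer (P : Set A)) (br P e))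
      = Fr.Ws p (K ⊓ Subgroup.normalizer (P : Set A))
          (resS (Subgroup.centralizer (P : Set A) : Set A) e) := hw
  rw [← h2, ← card_eq_of_normal h hPK hP hNP] at h1
  have h3 : 0 < Nat.card ↥(K ⊓ Subgroup.normalizer (P : Set A)) := Nat.card_pos
  change Nat.card K * Nat.card (IrX K e) = Fr.Ws p K e
  apply Nat.eq_of_mul_eq_mul_right h3
  rw [h1]
  ring

end Pool.Agent.Lib.P0c8ca5.Ps
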