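import Mathlib
import Pool.Agent.Lib.P0c8ca5S.Psi
import Pool.Agent.Lib.P0c8ca5S.Cmp
import Pool.Agent.Lib.P0c8ca5R.CardDZ

/-!
# Module Unq: `e` is a block of `K`

`N` is a normal p'-subgroup of `K`, `e` a `K`-invariant block of `N`, `P ≤ K` a p-group with `N P` normal in
`K`, and (`hh`) every `g ∈ K` with `[P, g] ≤ N` is in `N P`.  Then `e` is a block of `K`.

PROOF.  `e` is a nonzero idempotent of `Z(kK)`.  Let `f ∈ Z(kK)` be an idempotent with `f e = f`.
1. (`psi_act`) Let `ρ` be an irreducible representation of `K` with `act ρ e = 1`, `ψ` as in `exists_psi`.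
Then `act ρ (ψ x) = 1` for `x ∈ P`: the maps `act ρ (ψ x)` are a homomorphism of `P` into the
automorphisms of `V` (`act_mul`), so the space `V₀` of their common fixed vectors is not zero
(`exists_fixed`); it is stable under `N` (`ψ x` is `N`-invariant, `act_comm`) and under `N_K(P)`
(`psi_cj`, `act ρ (cj g a) = ρ g * act ρ a * ρ g⁻¹`), so under `K = N N_K(P)` (`frattini`), and `V₀ = V`.
2. Write `f = ∑ f_g` over the cosets `N g` of `N` in `K` (`f_g` the part on the coset, in the line of `g`,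
as `f` is `N`-invariant with `e f = f`).  `P` permutes the cosets by conjugation, `cj x f_g` is the part
of `f` on the coset of `x g x⁻¹`, and `cj x f_g = ψ x * f_g * (inverse of ψ x)` (`ln_conj`) acts on `V` as
`f_g`.  By `sum_eq_sum_fixed` (Basic.lean, applied to the coefficients of the matrices, or to
`φ (act ρ f_g v)` for linear functionals `φ`), `act ρ f = ∑ act ρ f_g` over the cosets with `[P, g] ≤ N`.
These are in `N P` by `hh`, `N g = N x` with `x ∈ P`, and `f_g = l_x • ψ x` (`ln_line`) acts as `l_x`.  So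
`act ρ f = l • 1` with `l = ∑ l_x` (over the `x ∈ P` with `[P, x] ≤ N`, i.e. `x ∈ Z(P)`), independent of `ρ`.
3. If `f ≠ 0` then `act ρ f = 1` for some irreducible `ρ` with `act ρ f ≠ 0` (`f` is not nilpotent; take
a block `b` of `K` with `b f = b`, `exists_prim_le`, and `exists_rep`); `act ρ e = 1` since `f e = f`.  So
`l = 1`, `act ρ f = 1` for all irreducible `ρ` with `act ρ e = 1`, so `act ρ (e - f) = 0` for all irreducible
`ρ`, the idempotent `e - f` is `0`.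
-/

namespace Pool.Agent.Lib.P0c8ca5.Ps

open MonoidAlgebra

variable {p : ℕ} {k : Type*} [Field k] {A : Type*} [Group A] {N K : Subgroup A}
  {e : MonoidAlgebra k A}

namespace UnqAux

theorem act_cj [Finite A] {T : Subgroup A} {V : Type*} [AddCommGroup V] [Module k V]
    (ρ : Representation k T V) {g : A} (hg : g ∈ T) (a : MonoidAlgebra k A) (v : V) :
    act ρ (cj g a) (ρ ⟨g, hg⟩ v) = ρ ⟨g, hg⟩ (act ρ a v) := by
  have : Fintype T := Fintype.ofFinite T
  rw [act_apply, act_apply, map_sum]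
  refine Fintype.sum_equiv (MulAut.conj (⟨g, hg⟩ : T)⁻¹).toEquiv _ _ (fun x => ?_)
  change (cj g a).coeff (x : A) • ρ x (ρ ⟨g, hg⟩ v)
      = ρ ⟨g, hg⟩ (a.coeff (((⟨g, hg⟩ : T)⁻¹ * x * (⟨g, hg⟩ : T)⁻¹⁻¹ : T) : A)
        • ρ ((⟨g, hg⟩ : T)⁻¹ * x * (⟨g, hg⟩ : T)⁻¹⁻¹) v)
  rw [map_smul, coeff_cj, ← Module.End.mul_apply, ← Module.End.mul_apply, ← map_mul, ← map_mul]
  congr 1
  · congr 1
    simp
  · congr 2
    group

theorem mem_sup_split {N L : Subgroup A} (hn : L ≤ Subgroup.normalizer (N : Set A)) {g : A}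
    (hg : g ∈ N ⊔ L) : ∃ n ∈ N, ∃ l ∈ L, n * l = g := by
  rw [← SetLike.mem_coe, Subgroup.coe_mul_of_right_le_normalizer_left _ _ hn] at hg
  obtain ⟨n, hn, l, hl, rfl⟩ := hg
  exact ⟨n, hn, l, hl, rfl⟩

/-- the part of `f` on the coset `N g` -/
noncomputable def pt (N : Subgroup A) (f : MonoidAlgebra k A) (g : A) : MonoidAlgebra k A :=
  resS {z | z * g⁻¹ ∈ N} f

theorem coeff_pt (N : Subgroup A) (f : MonoidAlgebra k A) (g z : A) [Decidable (z * g⁻¹ ∈ N)] :
    (pt N f g).coeff z = if z * g⁻¹ ∈ N then f.coeff z else 0 := by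
  by_cases hz : z * g⁻¹ ∈ N
  · rw [if_pos hz]
    exact coeff_resS_of_mem f (S := {z | z * g⁻¹ ∈ N}) hz
  · rw [if_neg hz]
    exact coeff_resS_of_notMem f (S := {z | z * g⁻¹ ∈ N}) hz

theorem pt_mem [Fintype A] (h : Tri p N K e) {f : MonoidAlgebra k A} (hf : InvBy K f)
    (hef : e * f = f) {g : A} (hg : g ∈ K) : pt N f g ∈ Ln N e g := by
  classical
  refine mem_Ln.2 ⟨fun z hz => ?_, fun n hn z => ?_, ?_⟩
  · rw [coeff_pt] at hz
    by_contra h1
    rw [if_neg h1] at hz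
    exact hz rfl
  · rw [coeff_pt, coeff_pt, hf n (h.le hn)]
    have h1 : g * n⁻¹ * g⁻¹ ∈ N :=
      (Subgroup.mem_normalizer_iff.1 (h.nm hg) _).1 (N.inv_mem hn)
    have h2 : n * z * n⁻¹ * g⁻¹ ∈ N ↔ z * g⁻¹ ∈ N := by
      have e1 : n * z * n⁻¹ * g⁻¹ = n * (z * g⁻¹) * (g * n⁻¹ * g⁻¹) := by group
      rw [e1, N.mul_mem_cancel_right h1, N.mul_mem_cancel_left hn]
    by_cases h3 : z * g⁻¹ ∈ N
    · rw [if_pos h3, if_pos (h2.2 h3)]
    · rw [if_neg h3, if_neg (fun h4 => h3 (h2.1 h4))]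
  · ext z
    rw [coeff_pt]
    have h1 : (e * f).coeff z = f.coeff z := by rw [hef]
    rw [coeff_mul_fin] at h1 ⊢
    by_cases h3 : z * g⁻¹ ∈ N
    · rw [if_pos h3, ← h1]
      refine Finset.sum_congr rfl fun y _ => ?_
      by_cases hy : e.coeff y = 0
      · rw [hy, zero_mul, zero_mul]
      · have hyN := h.blk.suppIn y hy
        rw [coeff_pt, if_pos]
        rw [mul_assoc]
        exact N.mul_mem (N.inv_mem hyN) h3
    · rw [if_neg h3]
      refine Finset.sum_eq_zero fun y _ => ?_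
      by_cases hy : e.coeff y = 0
      · rw [hy, zero_mul]
      · have hyN := h.blk.suppIn y hy
        rw [coeff_pt, if_neg, mul_zero]
        rw [mul_assoc, N.mul_mem_cancel_left (N.inv_mem hyN)]
        exact h3

theorem pt_cj (h : Tri p N K e) {f : MonoidAlgebra k A} (hf : InvBy K f) {x : A} (hx : x ∈ K)
    (g : A) : pt N f (x * g * x⁻¹) = cj x (pt N f g) := by
  classical
  ext z
  rw [coeff_cj, coeff_pt, coeff_pt]
  have h1 : f.coeff (x⁻¹ * z * x) = f.coeff z := by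
    have := hf x⁻¹ (K.inv_mem hx) z
    rwa [inv_inv] at this
  have h2 : z * (x * g * x⁻¹)⁻¹ ∈ N ↔ x⁻¹ * z * x * g⁻¹ ∈ N := by
    rw [Subgroup.mem_normalizer_iff.1 (h.nm hx) (x⁻¹ * z * x * g⁻¹)]
    have e1 : x * (x⁻¹ * z * x * g⁻¹) * x⁻¹ = z * (x * g * x⁻¹)⁻¹ := by group
    rw [e1]
  rw [h1]
  by_cases h3 : x⁻¹ * z * x * g⁻¹ ∈ N
  · rw [if_pos h3, if_pos (h2.2 h3)]
  · rw [if_neg h3, if_neg (fun h4 => h3 (h2.1 h4))]

theorem pt_zero (h : Tri p N K e) {f : MonoidAlgebra k A} (hf : SuppIn K f) {g : A}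
    (hg : g ∉ K) : pt N f g = 0 := by
  classical
  ext z
  rw [coeff_pt]
  by_cases h3 : z * g⁻¹ ∈ N
  · rw [if_pos h3]
    by_contra h4
    have h5 : z ∈ K := hf z h4
    apply hg
    have h6 := K.mul_mem (K.inv_mem (h.le h3)) h5
    have e1 : (z * g⁻¹)⁻¹ * z = g := by group
    rwa [e1] at h6
  · rw [if_neg h3]
    rfl

theorem sum_pt [Fintype A] (N : Subgroup A) (f : MonoidAlgebra k A) :
    ∑ g : A, pt N f g = (Nat.card N : k) • f := by
  classical
  ext z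
  rw [coeff_sum, Finsupp.finsetSum_apply, coeff_smul_apply]
  have h1 : ∀ g : A, (pt N f g).coeff z = if z * g⁻¹ ∈ N then f.coeff z else 0 :=
    fun g => coeff_pt N f g z
  rw [Finset.sum_congr rfl fun g _ => h1 g, Finset.sum_ite, Finset.sum_const_zero, add_zero,
    Finset.sum_const, ← Nat.cast_smul_eq_nsmul k]
  congr 2
  have h2 : (Finset.univ.filter fun g : A => z * g⁻¹ ∈ N).card
      = (Finset.univ.filter fun n : A => n ∈ N).card := by
    refine Finset.card_bij (fun g _ => z * g⁻¹) (fun g hg => ?_) (fun g _ g' _ hgg => ?_)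
      (fun n hn => ⟨n⁻¹ * z, ?_, ?_⟩)
    · exact Finset.mem_filter.2 ⟨Finset.mem_univ _, (Finset.mem_filter.1 hg).2⟩
    · exact inv_injective (mul_left_cancel hgg)
    · refine Finset.mem_filter.2 ⟨Finset.mem_univ _, ?_⟩
      have e1 : z * (n⁻¹ * z)⁻¹ = n := by group
      rw [e1]
      exact (Finset.mem_filter.1 hn).2
    · group
  rw [h2, Nat.card_eq_fintype_card, Fintype.card_subtype]

end UnqAux

open UnqAux

theorem psi_act [Fact p.Prime] [CharP k p] [IsAlgClosed k] [Fintype A] (h : Tri p N K e)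
    {P : Subgroup A} (hPK : P ≤ K) (hP : IsPGroup p P)
    (hNP : K ≤ Subgroup.normalizer ((N ⊔ P : Subgroup A) : Set A))
    {ψ : A → MonoidAlgebra k A} (h1 : ∀ x ∈ P, ψ x ∈ Ln N e x) (h2 : ψ 1 = e)
    (h3 : ∀ x ∈ P, ∀ y ∈ P, ψ (x * y) = ψ x * ψ y) {m : ℕ} {ρ : Rp k K m} (hρ : Irr' ρ)
    (hρe : act ρ e = 1) {x : A} (hx : x ∈ P) : act ρ (ψ x) = 1 := by
  classical
  have hLn : ∀ y ∈ P, SuppIn K (ψ y) := fun y hy => Ln_supp h (hPK hy) (h1 y hy)
  let T : P →* Module.End k (Fin m → k) :=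
    { toFun := fun y => act ρ (ψ y)
      map_one' := by
        show act ρ (ψ ((1 : P) : A)) = 1
        rw [Subgroup.coe_one, h2, hρe]
      map_mul' := fun y z => by
        show act ρ (ψ ((y * z : P) : A)) = act ρ (ψ y) * act ρ (ψ z)
        rw [Subgroup.coe_mul, h3 _ y.2 _ z.2, act_mul ρ (hLn _ y.2)] }
  let V₀ : Submodule k (Fin m → k) :=
    { carrier := {v | ∀ y ∈ P, act ρ (ψ y) v = v}
      add_mem' := fun {a b} ha hb y hy => by rw [map_add, ha y hy, hb y hy]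
      zero_mem' := fun y hy => map_zero _
      smul_mem' := fun c a ha y hy => by rw [map_smul, ha y hy] }
  have hN : ∀ g (hg : g ∈ N), ∀ v ∈ V₀, ρ ⟨g, h.le hg⟩ v ∈ V₀ := by
    intro g hg v hv y hy
    have e1 : cj g (ψ y) = ψ y := invBy_iff_cj.1 (mem_Ln.1 (h1 y hy)).2.1 g hg
    have e2 := act_cj ρ (h.le hg) (ψ y) v
    rw [e1] at e2
    rw [e2, hv y hy]
  have hL : ∀ g (hg : g ∈ K ⊓ Subgroup.normalizer (P : Set A)), ∀ v ∈ V₀,
      ρ ⟨g, hg.1⟩ v ∈ V₀ := by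
    intro g hg v hv y hy
    have hz : g⁻¹ * y * g ∈ P := by
      have := (Subgroup.mem_normalizer_iff.1 (Subgroup.inv_mem _ hg.2) y).1 hy
      rwa [inv_inv] at this
    have e1 := psi_cj h hPK hP h1 h2 h3 hg.1 hg.2 hz
    have e0 : g * (g⁻¹ * y * g) * g⁻¹ = y := by group
    rw [e0] at e1
    have e2 := act_cj ρ hg.1 (ψ (g⁻¹ * y * g)) v
    rw [e1] at e2
    rw [e2, hv _ hz]
  have hst : ∀ g (hg : g ∈ K), ∀ v ∈ V₀, ρ ⟨g, hg⟩ v ∈ V₀ := by
    intro g hg v hv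
    have hf := frattini h.le h.nm h.pp hPK hP hNP
    have hg' : g ∈ N ⊔ (K ⊓ Subgroup.normalizer (P : Set A)) := by rw [hf]; exact hg
    obtain ⟨n, hn, l, hl, rfl⟩ := mem_sup_split (inf_le_left.trans h.nm) hg'
    have e3 : (⟨n * l, hg⟩ : K) = ⟨n, h.le hn⟩ * ⟨l, hl.1⟩ := rfl
    rw [e3, map_mul, Module.End.mul_apply]
    exact hN n hn _ (hL l hl v hv)
  rcases hρ.sub V₀ (fun g w hw => hst g g.2 w hw) with h0 | h0
  · exfalso
    have hnt := hρ.nontriv
    obtain ⟨w, hw⟩ := exists_ne (0 : Fin m → k)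
    obtain ⟨y, hy0, hyf, -⟩ := exists_fixed hP T w hw
    have h4 : y ∈ V₀ := fun z hz => hyf ⟨z, hz⟩
    rw [h0, Submodule.mem_bot] at h4
    exact hy0 h4
  · apply LinearMap.ext
    intro v
    have h4 : v ∈ V₀ := by rw [h0]; exact Submodule.mem_top
    exact h4 x hx

namespace UnqAux

theorem scalar_act [Fact p.Prime] [CharP k p] [IsAlgClosed k] [Fintype A] (h : Tri p N K e)
    {P : Subgroup A} (hPK : P ≤ K) (hP : IsPGroup p P)
    (hNP : K ≤ Subgroup.normalizer ((N ⊔ P : Subgroup A) : Set A))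
    (hh : ∀ g ∈ K, (∀ x ∈ P, x * g * x⁻¹ * g⁻¹ ∈ N) → g ∈ N ⊔ P)
    {f : MonoidAlgebra k A} (hfK : SuppIn K f) (hfi : InvBy K f) (hef : e * f = f) :
    ∃ l : k, ∀ (m : ℕ) (ρ : Rp k K m), Irr' ρ → act ρ e = 1 → act ρ f = l • 1 := by
  classical
  obtain ⟨ψ, h1, h2, h3⟩ := exists_psi h hPK hP
  have hψ : ∀ x ∈ P, ψ x * ψ x⁻¹ = e := fun x hx => by
    rw [← h3 x hx _ (P.inv_mem hx), mul_inv_cancel, h2]
  have hψ0 : ∀ x ∈ P, ψ x ≠ 0 := fun x hx h0 => by
    have := hψ x hx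
    rw [h0, zero_mul] at this
    exact h.blk.ne_zero this.symm
  obtain ⟨S, hS⟩ : ∃ S : Finset A, S = Finset.univ.filter fun g => ∀ x ∈ P, x * g * x⁻¹ = g :=
    ⟨_, rfl⟩
  have hc : ∀ g : A, ∃ c : k, g ∈ S → ∀ (m : ℕ) (ρ : Rp k K m), Irr' ρ → act ρ e = 1 →
      act ρ (pt N f g) = c • 1 := by
    intro g
    by_cases hgK : g ∈ K
    · by_cases hgS : g ∈ S
      · have hfix : ∀ x ∈ P, x * g * x⁻¹ = g := by
          rw [hS] at hgS
          exact (Finset.mem_filter.1 hgS).2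
        have hg1 : g ∈ N ⊔ P := hh g hgK fun x hx => by
          rw [hfix x hx, mul_inv_cancel]
          exact N.one_mem
        obtain ⟨n, hn, x, hx, rfl⟩ := mem_sup_split (hPK.trans h.nm) hg1
        have e1 : pt N f (n * x) ∈ Ln N e x := by
          rw [← Ln_congr (N := N) (e := e) (x := n * x) (y := x) (by
            rw [mul_inv_cancel_right]
            exact hn)]
          exact pt_mem h hfi hef hgK
        obtain ⟨c, hc⟩ := ln_line h (hPK hx) (h1 x hx) (hψ0 x hx) e1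
        refine ⟨c, fun _ m ρ hρ hρe => ?_⟩
        rw [hc, LnBAux.act_smul', psi_act h hPK hP hNP h1 h2 h3 hρ hρe hx]
      · exact ⟨0, fun h4 => absurd h4 hgS⟩
    · refine ⟨0, fun _ m ρ hρ hρe => ?_⟩
      rw [pt_zero h hfK hgK, WSumAux.act_zero', zero_smul]
  choose c hc using hc
  have hN0 : (Nat.card N : k) ≠ 0 := fun h6 => h.pp ((CharP.cast_eq_zero_iff k p _).1 h6)
  refine ⟨(Nat.card N : k)⁻¹ * ∑ g ∈ S, c g, fun m ρ hρ hρe => ?_⟩
  have key : act ρ ((Nat.card N : k) • f) = (∑ g ∈ S, c g) • 1 := by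
    rw [← sum_pt, WSumAux.act_sum]
    apply LinearMap.ext
    intro v
    funext i
    rw [LinearMap.sum_apply, Finset.sum_apply]
    have hinv : ∀ (x : P) (g : A), act ρ (pt N f ((x : A) * g * (x : A)⁻¹)) = act ρ (pt N f g) := by
      intro x g
      rw [pt_cj h hfi (hPK x.2)]
      by_cases hgK : g ∈ K
      · have hm := pt_mem h hfi hef hgK
        rw [← ln_conj h (hPK x.2) (h1 _ x.2) (hψ _ x.2) (mem_Ln.1 hm).2.1
          (Ln_mul_e h hgK hm), act_mul ρ ((Ln_supp h (hPK x.2) (h1 _ x.2)).mul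
          (Ln_supp h hgK hm)), act_mul ρ (Ln_supp h (hPK x.2) (h1 _ x.2)),
          psi_act h hPK hP hNP h1 h2 h3 hρ hρe x.2,
          psi_act h hPK hP hNP h1 h2 h3 hρ hρe (P.inv_mem x.2), one_mul, mul_one]
      · rw [pt_zero h hfK hgK, cj_zero]
    let φ : P →* Equiv.Perm A := (MulAut.toPerm A).comp (MulAut.conj.comp P.subtype)
    have hφ : ∀ (x : P) (g : A), φ x g = (x : A) * g * (x : A)⁻¹ := fun x g => rfl
    have hsum := sum_eq_sum_fixed (k := k) hP φ (fun g => act ρ (pt N f g) v i)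
      (fun x g => by
        show act ρ (pt N f (φ x g)) v i = act ρ (pt N f g) v i
        rw [hφ, hinv]) S (fun g => by
        rw [hS, Finset.mem_filter]
        constructor
        · rintro ⟨-, h4⟩ x
          rw [hφ]
          exact h4 x x.2
        · intro h4
          exact ⟨Finset.mem_univ _, fun x hx => h4 ⟨x, hx⟩⟩)
    rw [hsum]
    have h5 : ∀ g ∈ S, act ρ (pt N f g) v i = c g * v i := by
      intro g hg
      rw [hc g hg m ρ hρ hρe]
      rfl
    rw [Finset.sum_congr rfl h5, ← Finset.sum_mul]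
    rfl
  rw [LnBAux.act_smul'] at key
  rw [mul_smul, ← key, smul_smul, inv_mul_cancel₀ hN0, one_smul]

theorem exists_irr [Fact p.Prime] [CharP k p] [IsAlgClosed k] [Fintype A]
    {f : MonoidAlgebra k A} (hfK : SuppIn K f) (hfi : InvBy K f) (hff : f * f = f)
    (hf0 : f ≠ 0) : ∃ (m : ℕ) (ρ : Rp k K m), Irr' ρ ∧ act ρ f = 1 := by
  classical
  have hF : (⟨f, mem_fixAlg.2 ⟨hfK, hfi⟩⟩ : fixAlg k K K) ≠ 0 := fun h0 =>
    hf0 (congrArg Subtype.val h0)
  obtain ⟨b, hb, hbf⟩ := exists_prim_le k hF (Subtype.ext hff)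
  have hbb := isBlock_of_primIdem hb
  obtain ⟨m, ρ, hρ, hρb⟩ := Rk.CardDZAux.exists_rep hbb
  refine ⟨m, ρ, hρ, ?_⟩
  have h1 : (b : MonoidAlgebra k A) * f = b := congrArg Subtype.val hbf
  have h2 := act_mul ρ (a := (b : MonoidAlgebra k A)) (b := f) hbb.suppIn
  rw [h1, hρb, one_mul] at h2
  exact h2.symm

end UnqAux

theorem isBlock_of_tri [Fact p.Prime] [CharP k p] [IsAlgClosed k] [Fintype A] (h : Tri p N K e)
    {P : Subgroup A} (hPK : P ≤ K) (hP : IsPGroup p P)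
    (hNP : K ≤ Subgroup.normalizer ((N ⊔ P : Subgroup A) : Set A))
    (hh : ∀ g ∈ K, (∀ x ∈ P, x * g * x⁻¹ * g⁻¹ ∈ N) → g ∈ N ⊔ P) : IsBlock K e := by
  classical
  have heK : SuppIn K e := h.blk.suppIn.mono h.le
  have hee := h.blk.idem
  refine ⟨mem_fixAlg.2 ⟨heK, h.inv⟩, hee, h.blk.ne_zero, fun f hf hff hfe => ?_⟩
  obtain ⟨hfK, hfi⟩ := mem_fixAlg.1 hf
  by_cases hf0 : f = 0
  · exact Or.inl hf0
  right
  have hcomm : e * f = f * e := commute_of heK hfi
  have hef : e * f = f := by rw [hcomm, hfe]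
  obtain ⟨l, hl⟩ := scalar_act h hPK hP hNP hh hfK hfi hef
  have hsub : e - f ∈ fixAlg k K K := Subalgebra.sub_mem _ (mem_fixAlg.2 ⟨heK, h.inv⟩) hf
  obtain ⟨hgK, hgi⟩ := mem_fixAlg.1 hsub
  obtain ⟨m, ρ, hρ, hρf⟩ := exists_irr hfK hfi hff hf0
  have hρe : act ρ e = 1 := by
    have h1 := act_mul ρ (a := f) (b := e) hfK
    rw [hfe, hρf, one_mul] at h1
    exact h1.symm
  have hnt := hρ.nontriv
  have hl1 : l = 1 := by
    have h1 := hl m ρ hρ hρe
    rw [hρf] at h1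
    obtain ⟨w, hw⟩ := exists_ne (0 : Fin m → k)
    have h2 : w = l • w := by
      have := LinearMap.congr_fun h1 w
      exact this
    have h3 : (1 - l) • w = 0 := by
      rw [sub_smul, one_smul, ← h2, sub_self]
    rcases smul_eq_zero.1 h3 with h4 | h4
    · exact (sub_eq_zero.1 h4).symm
    · exact absurd h4 hw
  by_contra hne
  have hd0 : e - f ≠ 0 := fun h0 => hne (sub_eq_zero.1 h0).symm
  have hdd : (e - f) * (e - f) = e - f := by
    rw [mul_sub, sub_mul, sub_mul, hee, hfe, hef, hff, sub_self, sub_zero]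
  obtain ⟨m', ρ', hρ', hρd⟩ := exists_irr hgK hgi hdd hd0
  have hde : (e - f) * e = e - f := by rw [sub_mul, hee, hfe]
  have hρe' : act ρ' e = 1 := by
    have h1 := act_mul ρ' (a := e - f) (b := e) hgK
    rw [hde, hρd, one_mul] at h1
    exact h1.symm
  have hdf : (e - f) * f = 0 := by rw [sub_mul, hef, hff, sub_self]
  have h1 := act_mul ρ' (a := e - f) (b := f) hgK
  rw [hdf, hρd, one_mul, WSumAux.act_zero', hl m' ρ' hρ' hρe', hl1, one_smul] at h1
  have hnt' := hρ'.nontriv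
  obtain ⟨w, hw⟩ := exists_ne (0 : Fin m' → k)
  exact hw (LinearMap.congr_fun h1 w).symm

end Pool.Agent.Lib.P0c8ca5.Ps
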