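import Mathlib
import Pool.Agent.Lib.P0c8ca5P.Red

/-!
# Module HH: p-solvable groups and the lemma of Hall and Higman

`PSolv p G`: `G` has a chain of normal subgroups whose factors are p-groups or p'-groups.

PROOFS.  `PSolv.of_section`: for a subgroup `K` intersect the chain with `K`, for a homomorphic image
take the image of the chain.
`hall_higman`: `G` p-solvable without nontrivial normal p'-subgroups, `P` a normal p-subgroup that
contains all normal p-subgroups.  Let `C = C(P)`, a normal subgroup, and suppose `C` is not contained in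
`P`.  Let `i` be least with `C ⊓ s (i + 1)` not contained in `P`, `D = C ⊓ s (i + 1)`, so `C ⊓ s i ≤ P`.
If `s (i + 1) / s i` is a p-group then `D / (D ⊓ s i)` and hence `D` is a p-group, normal in `G`, so `D ≤ P`,
a contradiction.  Otherwise every `x ∈ D` has a p'-power in `C ⊓ s i ≤ C ⊓ P`, so in `Z = Z(D) ≥ D ⊓ P`
(`D` centralizes `P`); so the index `m = |D : Z(D)|` is prime to `p`, and `x ↦ x ^ m` is a homomorphism of `D`
(`MonoidHom.transferCenterPow`).  If `x`, `y` are p-regular elements of `D`, of orders dividing `t`, `p` not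
dividing `t`, then `(x y) ^ (m t) = (x ^ m * y ^ m) ^ t = 1`, so the p-regular elements form a subgroup `O`
of `D`, normal in `G`, a p'-group, so `O = 1` and `D` is a p-group, so `D ≤ P`, a contradiction.
`exists_up`: for `G` p-solvable, `N` a normal p'-subgroup that contains all normal p'-subgroups, `N ≠ G`:
there is a p-group `P ≠ 1` with `N P` normal in `G` and such that every `g` with `[P, g] ≤ N` is in `N P`.
(`G / N` is p-solvable without normal p'-subgroups; let `M / N` be its largest normal p-subgroup,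
`P` a Sylow p-subgroup of `M`, `M = N P` (index and order).  `P ≠ 1`: otherwise `M = N`, and `hall_higman` for
`G / N` and the trivial group gives `G / N = 1`.  If `[P, g] ≤ N` then `g N` centralizes `M / N`, so it is in
`M / N` by `hall_higman`.)
-/

namespace Pool.Agent.Lib.P0c8ca5.Ps

/-- `G` is p-solvable -/
def PSolv (p : ℕ) (G : Type*) [Group G] : Prop :=
  ∃ (n : ℕ) (s : ℕ → Subgroup G), s 0 = ⊥ ∧ s n = ⊤ ∧ (∀ i, (s i).Normal) ∧
    ∀ i < n, s i ≤ s (i + 1) ∧ ((∀ x ∈ s (i + 1), ∃ m : ℕ, x ^ p ^ m ∈ s i) ∨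
      ∀ x ∈ s (i + 1), ∃ m : ℕ, ¬ p ∣ m ∧ x ^ m ∈ s i)

theorem PSolv.of_section {p : ℕ} {G H : Type*} [Group G] [Group H] (hG : PSolv p G)
    (hs : IsSection H G) : PSolv p H := by
  obtain ⟨n, s, h0, hn, hN, hst⟩ := hG
  obtain ⟨K, f, hf⟩ := hs
  refine ⟨n, fun i => ((s i).subgroupOf K).map f, ?_, ?_, ?_, ?_⟩
  · change ((s 0).subgroupOf K).map f = ⊥
    rw [h0, Subgroup.bot_subgroupOf, Subgroup.map_bot]
  · change ((s n).subgroupOf K).map f = ⊤
    rw [hn, Subgroup.top_subgroupOf, Subgroup.map_top_of_surjective f hf]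
  · intro i
    have h1 := hN i
    have h2 : ((s i).subgroupOf K).Normal := inferInstance
    exact h2.map f hf
  · intro i hi
    obtain ⟨h1, h2⟩ := hst i hi
    refine ⟨?_, ?_⟩
    · apply Subgroup.map_mono
      intro x hx
      rw [Subgroup.mem_subgroupOf] at hx ⊢
      exact h1 hx
    · rcases h2 with h2 | h2
      · left
        rintro _ ⟨y, hy, rfl⟩
        obtain ⟨m, hm⟩ := h2 y.1 (Subgroup.mem_subgroupOf.1 hy)
        exact ⟨m, y ^ p ^ m, Subgroup.mem_subgroupOf.2 hm, map_pow f y _⟩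
      · right
        rintro _ ⟨y, hy, rfl⟩
        obtain ⟨m, hpm, hm⟩ := h2 y.1 (Subgroup.mem_subgroupOf.1 hy)
        exact ⟨m, hpm, y ^ m, Subgroup.mem_subgroupOf.2 hm, map_pow f y _⟩

namespace HHAux

/-- a finite group with elements only of orders prime to `p` -/
theorem not_dvd_card {p : ℕ} [Fact p.Prime] {G : Type*} [Group G] [Finite G]
    (h : ∀ x : G, ∃ m : ℕ, ¬ p ∣ m ∧ x ^ m = 1) : ¬ p ∣ Nat.card G := by
  intro hd
  obtain ⟨x, hx⟩ := exists_prime_orderOf_dvd_card' p hd
  obtain ⟨m, hm, hxm⟩ := h x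
  apply hm
  rw [← hx]
  exact orderOf_dvd_of_pow_eq_one hxm

/-- in a finite group the `p`-regular elements are closed under multiplication if every element has
a `p'`-power in the centre -/
theorem mul_regular {p : ℕ} [Fact p.Prime] {D : Type*} [Group D] [Finite D]
    (h : ∀ x : D, ∃ m : ℕ, ¬ p ∣ m ∧ x ^ m ∈ Subgroup.center D) {x y : D}
    (hx : ¬ p ∣ orderOf x) (hy : ¬ p ∣ orderOf y) : ¬ p ∣ orderOf (x * y) := by
  have hp : p.Prime := Fact.out
  have hm : ¬ p ∣ (Subgroup.center D).index := by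
    have h1 : ¬ p ∣ Nat.card (D ⧸ Subgroup.center D) := by
      apply not_dvd_card
      intro z
      obtain ⟨w, rfl⟩ := QuotientGroup.mk_surjective z
      obtain ⟨m, hm, hw⟩ := h w
      refine ⟨m, hm, ?_⟩
      rw [← QuotientGroup.mk_pow]
      exact (QuotientGroup.eq_one_iff _).2 hw
    exact h1
  set m := (Subgroup.center D).index with hmdef
  have hpow : ∀ z : D, ((MonoidHom.transferCenterPow D z : Subgroup.center D) : D) = z ^ m :=
    fun z => MonoidHom.transferCenterPow_apply z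
  have h1 : (x * y) ^ m = x ^ m * y ^ m := by
    rw [← hpow, ← hpow, ← hpow, map_mul]
    rfl
  have hc : Commute (x ^ m) (y ^ m) := by
    have h2 : x ^ m ∈ Subgroup.center D := by
      rw [← hpow]
      exact (MonoidHom.transferCenterPow D x).2
    exact (Subgroup.mem_center_iff.1 h2 (y ^ m)).symm
  have h3 : (x * y) ^ (m * (orderOf x * orderOf y)) = 1 := by
    rw [pow_mul, h1, hc.mul_pow, ← pow_mul, ← pow_mul]
    have e1 : x ^ (m * (orderOf x * orderOf y)) = 1 := by
      rw [show m * (orderOf x * orderOf y) = orderOf x * (m * orderOf y) by ring, pow_mul,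
        pow_orderOf_eq_one, one_pow]
    have e2 : y ^ (m * (orderOf x * orderOf y)) = 1 := by
      rw [show m * (orderOf x * orderOf y) = orderOf y * (m * orderOf x) by ring, pow_mul,
        pow_orderOf_eq_one, one_pow]
    rw [e1, e2, one_mul]
  intro hd
  have h4 : p ∣ m * (orderOf x * orderOf y) := hd.trans (orderOf_dvd_of_pow_eq_one h3)
  rcases hp.dvd_mul.1 h4 with h5 | h5
  · exact hm h5
  · rcases hp.dvd_mul.1 h5 with h6 | h6
    · exact hx h6
    · exact hy h6

/-- a subgroup `D`, normal in `G`, in which every element has a `p'`-power in the centre of `D`, is a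
`p`-group if `G` has no normal `p'`-subgroups -/
theorem pgroup_of_center {p : ℕ} [Fact p.Prime] {G : Type*} [Group G] [Finite G]
    (h0 : ∀ N : Subgroup G, N.Normal → ¬ p ∣ Nat.card N → N = ⊥) {D : Subgroup G}
    (hD : D.Normal) (h : ∀ x : D, ∃ m : ℕ, ¬ p ∣ m ∧ x ^ m ∈ Subgroup.center D) :
    IsPGroup p D := by
  have hp : p.Prime := Fact.out
  let O : Subgroup G :=
    { carrier := {x | x ∈ D ∧ ¬ p ∣ orderOf x}
      one_mem' := ⟨D.one_mem, by rw [orderOf_one]; exact hp.not_dvd_one⟩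
      mul_mem' := by
        rintro x y ⟨hx, hx'⟩ ⟨hy, hy'⟩
        refine ⟨D.mul_mem hx hy, ?_⟩
        have h1 : ¬ p ∣ orderOf (⟨x, hx⟩ : D) := by rwa [Subgroup.orderOf_mk]
        have h2 : ¬ p ∣ orderOf (⟨y, hy⟩ : D) := by rwa [Subgroup.orderOf_mk]
        have h3 := mul_regular h h1 h2
        rw [← Subgroup.orderOf_coe] at h3
        exact h3
      inv_mem' := by
        rintro x ⟨hx, hx'⟩
        exact ⟨D.inv_mem hx, by rwa [orderOf_inv]⟩ }
  have hOn : O.Normal := by
    refine ⟨fun x hx g => ⟨hD.conj_mem x hx.1 g, ?_⟩⟩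
    have h1 : orderOf (g * x * g⁻¹) = orderOf x := by
      have := orderOf_injective (MulAut.conj g).toMonoidHom (MulAut.conj g).injective x
      rw [← this]
      rfl
    rw [h1]
    exact hx.2
  have hOc : ¬ p ∣ Nat.card O := by
    apply not_dvd_card
    intro x
    refine ⟨orderOf (x : G), x.2.2, ?_⟩
    apply Subtype.ext
    rw [Subgroup.coe_pow, pow_orderOf_eq_one]
    rfl
  have hO := h0 O hOn hOc
  intro x
  obtain ⟨k, t, ht, hkt⟩ := Nat.exists_eq_pow_mul_and_not_dvd (orderOf_pos (x : G)).ne' p hp.ne_one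
  refine ⟨k, ?_⟩
  have h1 : (x : G) ^ p ^ k ∈ O := by
    refine ⟨D.pow_mem x.2 _, ?_⟩
    have h2 : orderOf ((x : G) ^ p ^ k) = t := by
      rw [orderOf_pow, hkt, Nat.gcd_mul_right_left, Nat.mul_div_cancel_left _ (pow_pos hp.pos k)]
    rw [h2]
    exact ht
  rw [hO, Subgroup.mem_bot] at h1
  apply Subtype.ext
  rw [Subgroup.coe_pow, h1]
  rfl

end HHAux

theorem hall_higman {p : ℕ} [Fact p.Prime] {G : Type*} [Group G] [Finite G] (hG : PSolv p G)
    (h0 : ∀ N : Subgroup G, N.Normal → ¬ p ∣ Nat.card N → N = ⊥) {P : Subgroup G} (hPn : P.Normal)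
    (hP : IsPGroup p P) (hmax : ∀ Q : Subgroup G, Q.Normal → IsPGroup p Q → Q ≤ P) :
    Subgroup.centralizer (P : Set G) ≤ P := by
  classical
  obtain ⟨n, s, hs0, hsn, hsN, hst⟩ := hG
  by_contra hC
  have hex : ∃ j, ¬ (Subgroup.centralizer (P : Set G) ⊓ s j ≤ P) := by
    refine ⟨n, ?_⟩
    rw [hsn, inf_top_eq]
    exact hC
  have hj := Nat.find_spec hex
  have hmin : ∀ i < Nat.find hex, Subgroup.centralizer (P : Set G) ⊓ s i ≤ P :=
    fun i hi => not_not.1 (Nat.find_min hex hi)
  have hle : Nat.find hex ≤ n := Nat.find_min' hex (by rw [hsn, inf_top_eq]; exact hC)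
  set j := Nat.find hex with hjdef
  rcases Nat.eq_zero_or_eq_succ_pred j with hj0 | hj1
  · apply hj
    rw [hj0, hs0, inf_bot_eq]
    exact bot_le
  · set i := j.pred with hidef
    have hi : i < n := by
      have : i + 1 = j := hj1.symm
      omega
    have hi2 := hmin i (by rw [hj1]; exact Nat.lt_succ_self i)
    rw [hj1] at hj
    apply hj
    obtain ⟨hsle, hcase⟩ := hst i hi
    have hCn : (Subgroup.centralizer (P : Set G)).Normal := Subgroup.normal_centralizer
    have hDn : (Subgroup.centralizer (P : Set G) ⊓ s (i + 1)).Normal := by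
      have := hsN (i + 1)
      exact Subgroup.normal_inf_normal _ _
    apply hmax _ hDn
    rcases hcase with hcase | hcase
    · rintro ⟨x, hx⟩
      obtain ⟨m, hm⟩ := hcase x hx.2
      have h1 : x ^ p ^ m ∈ P := hi2 ⟨Subgroup.pow_mem _ hx.1 _, hm⟩
      obtain ⟨k, hk⟩ := hP ⟨_, h1⟩
      refine ⟨m + k, ?_⟩
      apply Subtype.ext
      have h2 := congrArg Subtype.val hk
      simp only [Subgroup.coe_pow, Subgroup.coe_one] at h2 ⊢
      rw [pow_add, pow_mul]
      exact h2
    · apply HHAux.pgroup_of_center h0 hDn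
      rintro ⟨x, hx⟩
      obtain ⟨m, hpm, hm⟩ := hcase x hx.2
      refine ⟨m, hpm, ?_⟩
      have h1 : x ^ m ∈ P := hi2 ⟨Subgroup.pow_mem _ hx.1 _, hm⟩
      rw [Subgroup.mem_center_iff]
      rintro ⟨y, hy⟩
      apply Subtype.ext
      have h2 := Subgroup.mem_centralizer_iff.1 hy.1 (x ^ m) h1
      simp only [Subgroup.coe_mul, Subgroup.coe_pow]
      exact h2.symm

namespace HHAux

theorem sup_not_dvd {p : ℕ} [Fact p.Prime] {G : Type*} [Group G] [Finite G] {N N' : Subgroup G}
    (hNn : N.Normal) (hN : ¬ p ∣ Nat.card N) (hN' : ¬ p ∣ Nat.card N') :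
    ¬ p ∣ Nat.card (N ⊔ N' : Subgroup G) := by
  have hp : p.Prime := Fact.out
  have h1 : Nat.card (N ⊔ N' : Subgroup G) = Nat.card N * N.relIndex N' := by
    rw [← Subgroup.relIndex_sup_left N' N]
    rw [← Subgroup.relIndex_bot_left, ← Subgroup.relIndex_bot_left]
    exact (Subgroup.relIndex_mul_relIndex ⊥ N (N ⊔ N') bot_le le_sup_left).symm
  rw [h1]
  intro hd
  rcases hp.dvd_mul.1 hd with h | h
  · exact hN h
  · exact hN' (h.trans (Subgroup.relIndex_dvd_card N N'))

/-- there is a largest normal p-subgroup -/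
theorem exists_pcore {p : ℕ} [Fact p.Prime] (G : Type*) [Group G] [Finite G] :
    ∃ N : Subgroup G, N.Normal ∧ IsPGroup p N ∧
      ∀ N' : Subgroup G, N'.Normal → IsPGroup p N' → N' ≤ N := by
  classical
  have hne : {N : Subgroup G | N.Normal ∧ IsPGroup p N}.Nonempty :=
    ⟨⊥, inferInstance, IsPGroup.of_bot⟩
  obtain ⟨N, hN, hmax⟩ := Set.exists_max_image _ (fun N : Subgroup G => Nat.card N)
    (Set.toFinite {N : Subgroup G | N.Normal ∧ IsPGroup p N}) hne
  refine ⟨N, hN.1, hN.2, fun N' hN' hp' => ?_⟩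
  have h1 := hN.1
  have h2 : (N ⊔ N' : Subgroup G) ∈ {N : Subgroup G | N.Normal ∧ IsPGroup p N} :=
    ⟨Subgroup.sup_normal N N', hN.2.to_sup_of_normal_right hp'⟩
  have h3 := hmax _ h2
  have h4 : N = N ⊔ N' := Subgroup.eq_of_le_of_card_ge le_sup_left h3
  rw [h4]
  exact le_sup_right

end HHAux

/-- there is a largest normal p'-subgroup -/
theorem exists_core {p : ℕ} [Fact p.Prime] (G : Type*) [Group G] [Finite G] :
    ∃ N : Subgroup G, N.Normal ∧ ¬ p ∣ Nat.card N ∧
      ∀ N' : Subgroup G, N'.Normal → ¬ p ∣ Nat.card N' → N' ≤ N := by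
  classical
  have hp : p.Prime := Fact.out
  have hne : {N : Subgroup G | N.Normal ∧ ¬ p ∣ Nat.card N}.Nonempty :=
    ⟨⊥, inferInstance, by rw [Subgroup.card_bot]; exact hp.not_dvd_one⟩
  obtain ⟨N, hN, hmax⟩ := Set.exists_max_image _ (fun N : Subgroup G => Nat.card N)
    (Set.toFinite {N : Subgroup G | N.Normal ∧ ¬ p ∣ Nat.card N}) hne
  refine ⟨N, hN.1, hN.2, fun N' hN' hp' => ?_⟩
  have h1 := hN.1
  have h2 : (N ⊔ N' : Subgroup G) ∈ {N : Subgroup G | N.Normal ∧ ¬ p ∣ Nat.card N} :=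
    ⟨Subgroup.sup_normal N N', HHAux.sup_not_dvd hN.1 hN.2 hp'⟩
  have h3 := hmax _ h2
  have h4 : N = N ⊔ N' := Subgroup.eq_of_le_of_card_ge le_sup_left h3
  rw [h4]
  exact le_sup_right

theorem exists_up {p : ℕ} [Fact p.Prime] {G : Type*} [Group G] [Finite G] (hG : PSolv p G)
    {N : Subgroup G} (hNn : N.Normal) (hN : ¬ p ∣ Nat.card N)
    (hmax : ∀ N' : Subgroup G, N'.Normal → ¬ p ∣ Nat.card N' → N' ≤ N) (hne : N ≠ ⊤) :
    ∃ P : Subgroup G, IsPGroup p P ∧ P ≠ ⊥ ∧ (N ⊔ P).Normal ∧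
      ∀ g : G, (∀ x ∈ P, x * g * x⁻¹ * g⁻¹ ∈ N) → g ∈ N ⊔ P := by
  classical
  have hp : p.Prime := Fact.out
  -- the quotient has no normal p'-subgroups
  have hQ : PSolv p (G ⧸ N) :=
    hG.of_section (IsSection.of_surjective (QuotientGroup.mk' N) (QuotientGroup.mk'_surjective N))
  have hcc : ∀ K : Subgroup (G ⧸ N), Nat.card (K.comap (QuotientGroup.mk' N)) =
      Nat.card N * Nat.card K := by
    intro K
    have h1 := Subgroup.index_comap_of_surjective K (QuotientGroup.mk'_surjective N)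
    have h2 := Subgroup.card_mul_index (K.comap (QuotientGroup.mk' N))
    have h3 := Subgroup.card_mul_index K
    have h4 := Subgroup.card_mul_index N
    have h5 : N.index = Nat.card (G ⧸ N) := rfl
    have h6 : 0 < K.index := Nat.pos_of_ne_zero Subgroup.index_ne_zero_of_finite
    have h7 : Nat.card (K.comap (QuotientGroup.mk' N)) * K.index =
        Nat.card N * Nat.card K * K.index := by
      rw [← h1, h2, h1, mul_assoc, h3, ← h5, h4]
    exact Nat.eq_of_mul_eq_mul_right h6 h7
  have hQ0 : ∀ K : Subgroup (G ⧸ N), K.Normal → ¬ p ∣ Nat.card K → K = ⊥ := by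
    intro K hK hpK
    have h1 : K.comap (QuotientGroup.mk' N) ≤ N := by
      apply hmax _ (hK.comap _)
      rw [hcc]
      intro hd
      rcases hp.dvd_mul.1 hd with h | h
      · exact hN h
      · exact hpK h
    rw [eq_bot_iff]
    intro z hz
    obtain ⟨g, rfl⟩ := QuotientGroup.mk'_surjective N z
    have h2 : g ∈ N := h1 hz
    rw [Subgroup.mem_bot]
    exact (QuotientGroup.eq_one_iff _).2 h2
  obtain ⟨O, hOn, hOp, hOmax⟩ := HHAux.exists_pcore (p := p) (G ⧸ N)
  have hHH := hall_higman hQ hQ0 hOn hOp hOmax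
  set M : Subgroup G := O.comap (QuotientGroup.mk' N) with hM
  have hMn : M.Normal := hOn.comap _
  have hNM : N ≤ M := by
    intro x hx
    rw [hM, Subgroup.mem_comap]
    have : QuotientGroup.mk' N x = 1 := (QuotientGroup.eq_one_iff _).2 hx
    rw [this]
    exact O.one_mem
  -- Sylow subgroup of M
  obtain ⟨S⟩ : Nonempty (Sylow p M) := inferInstance
  set P : Subgroup G := (S : Subgroup M).map M.subtype with hPdef
  have hPM : P ≤ M := by
    rintro _ ⟨x, -, rfl⟩
    exact x.2
  have hPp : IsPGroup p P := S.2.map M.subtype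
  obtain ⟨a, ha⟩ := IsPGroup.iff_card.1 hOp
  have hcM : Nat.card M = Nat.card N * p ^ a := by rw [hM, hcc, ha]
  have hcP : Nat.card P = p ^ a := by
    have h1 : Nat.card P = Nat.card (S : Subgroup M) :=
      Nat.card_congr ((S : Subgroup M).equivMapOfInjective _ M.subtype_injective).toEquiv.symm
    rw [h1, Sylow.card_eq_multiplicity, hcM]
    congr 1
    rw [Nat.factorization_mul (Nat.card_pos).ne' (pow_pos hp.pos a).ne', Finsupp.add_apply,
      Nat.factorization_eq_zero_of_not_dvd hN, zero_add, hp.factorization_pow]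
    simp
  have hsup : N ⊔ P = M := by
    have hle : N ⊔ P ≤ M := sup_le hNM hPM
    apply Subgroup.eq_of_le_of_card_ge hle
    have h1 : Nat.card N ∣ Nat.card (N ⊔ P : Subgroup G) := Subgroup.card_dvd_of_le le_sup_left
    have h2 : Nat.card P ∣ Nat.card (N ⊔ P : Subgroup G) := Subgroup.card_dvd_of_le le_sup_right
    have h3 : Nat.Coprime (Nat.card N) (Nat.card P) := by
      rw [hcP]
      exact (Nat.Coprime.pow_left a ((Nat.Prime.coprime_iff_not_dvd hp).2 hN)).symm
    have h4 := Nat.Coprime.mul_dvd_of_dvd_of_dvd h3 h1 h2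
    rw [hcM, ← hcP]
    exact Nat.le_of_dvd Nat.card_pos h4
  have himg : ∀ z ∈ O, ∃ x ∈ P, (QuotientGroup.mk' N x) = z := by
    intro z hz
    obtain ⟨g, rfl⟩ := QuotientGroup.mk'_surjective N z
    have hg : g ∈ N ⊔ P := by rw [hsup]; exact hz
    obtain ⟨n, hn, x, hx, rfl⟩ := (Subgroup.mem_sup_of_normal_left).1 hg
    refine ⟨x, hx, ?_⟩
    rw [map_mul]
    have : QuotientGroup.mk' N n = 1 := (QuotientGroup.eq_one_iff _).2 hn
    rw [this, one_mul]
  refine ⟨P, hPp, ?_, by rw [hsup]; exact hMn, ?_⟩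
  · intro hP1
    apply hne
    have hO1 : O = ⊥ := by
      rw [eq_bot_iff]
      intro z hz
      obtain ⟨x, hx, rfl⟩ := himg z hz
      rw [hP1, Subgroup.mem_bot] at hx
      rw [hx, map_one]
      exact Subgroup.one_mem _
    rw [eq_top_iff]
    intro g _
    have h1 : QuotientGroup.mk' N g ∈ O := by
      apply hHH
      rw [hO1, Subgroup.mem_centralizer_iff]
      intro h hh
      have : h = 1 := hh
      rw [this, one_mul, mul_one]
    rw [hO1, Subgroup.mem_bot] at h1
    exact (QuotientGroup.eq_one_iff _).1 h1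
  · intro g hg
    rw [hsup, hM, Subgroup.mem_comap]
    apply hHH
    rw [Subgroup.mem_centralizer_iff]
    intro z hz
    obtain ⟨x, hx, rfl⟩ := himg z hz
    have h1 := hg x hx
    have h2 : QuotientGroup.mk' N (x * g * x⁻¹ * g⁻¹) = 1 := (QuotientGroup.eq_one_iff _).2 h1
    rw [map_mul, map_mul, map_mul, map_inv, map_inv] at h2
    rw [mul_inv_eq_one] at h2
    rw [mul_inv_eq_iff_eq_mul] at h2
    exact h2

end Pool.Agent.Lib.P0c8ca5.Ps
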