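import Mathlib
import Pool.Agent.Lib.P0c8ca5S.Unq
import Pool.Agent.Lib.P0c8ca5S.HH

/-!
# Module Psv: the blockwise weight conjecture for p-solvable groups

PROOF of `baw_psolv` by induction on the order.  Apply `baw_of_reduced` with `G₀ = H` and the condition
`C = True`: it is enough to treat a section `H'` of `H` and a reduced block `b` of `H'` such that there is a
p-group `P₀` with `Br ≠ 0` and `p < |P₀|`.  If `|H'| < |H|` use the induction hypothesis
(`PSolv.of_section`).  Let `|H'| = |H|`.  Let `N` be the largest normal p'-subgroup of `H'` (`exists_core`),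
`e` the block of `N` with `b e ≠ 0` (`Reduced.prim`); it is `H'`-invariant by uniqueness, so
`Tri p N ⊤ e`.  `N ≠ ⊤` because `P₀ ≠ 1`.  `exists_up` gives `P`; `e` is a block of `H'` by
`isBlock_of_tri`, so `b = e`.  `K₁ = N(P)` is a proper subgroup, because `P` is not normal
(`Reduced.core`).  By the induction hypothesis the blocks of `K₁` (as a group of smaller order,
`navarro_transport`) satisfy Navarro's equality, so `WEq p K₁ (br P e)` by `card_irr_eq_sum` (the sum
over all p-subgroups is `Fr.Ws`), so `WEq p ⊤ e` by `weq_of_normal`, and this is Navarro's equality for the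
block `b = e` (see `navarro_of_weq` or the converse of `card_block`, `sum_DZ_eq`).
-/

namespace Pool.Agent.Lib.P0c8ca5.Ps

open MonoidAlgebra

universe u v

namespace PsvAux

theorem weq_of_blocks {p : ℕ} [Fact p.Prime] {k : Type v} [Field k] [IsAlgClosed k] [CharP k p]
    {A : Type u} [Group A] [Fintype A] {K : Subgroup A}
    {c : MonoidAlgebra k A} (hc : SuppIn K c) (hci : InvBy K c) (hcc : c * c = c)
    (h : ∀ b : MonoidAlgebra k A, IsBlock K b → b * c ≠ 0 → NavarroEq p K K b) :
    Cy.WEq p K c := by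
  classical
  exact card_irr_eq_sum hc hci hcc h _ (fun R => by
    rw [Finset.mem_filter]
    exact ⟨fun h => h.2, fun h => ⟨Finset.mem_univ _, h⟩⟩)

theorem navarro_of_weq {p : ℕ} [Fact p.Prime] {k : Type v} [Field k] [IsAlgClosed k] [CharP k p]
    {A : Type u} [Group A] [Fintype A] {K : Subgroup A} {b : MonoidAlgebra k A}
    (hb : IsBlock K b) (h : Cy.WEq p K b) : NavarroEq p K K b := by
  classical
  have hD : ∀ Q : Subgroup A, Q ∈ Finset.univ.filter (fun Q : Subgroup A => Q ≤ K ∧ IsPGroup p Q)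
      ↔ Q ≤ K ∧ IsPGroup p Q := by
    intro Q
    rw [Finset.mem_filter]
    exact ⟨fun h => h.2, fun h => ⟨Finset.mem_univ _, h⟩⟩
  intro T hT1 hT2
  have h1 := sum_DZ_eq hb T hT1 hT2 _ hD
  rw [card_irr_eq]
  have h2 : Nat.card K * ∑ Q ∈ T, Nat.card (DZ p K b Q)
      = Nat.card K * Nat.card (Quotient (irrInvSetoid K ⊥ b)) := by
    have h3 : Nat.card K * Nat.card (Quotient (irrInvSetoid K ⊥ b)) = Fr.Ws p K b := h
    rw [h3, h1]
    rfl
  exact (Nat.eq_of_mul_eq_mul_left Nat.card_pos h2).symm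

theorem card_le_of_section {G H : Type*} [Group G] [Group H] [Finite H]
    (h : IsSection G H) : Nat.card G ≤ Nat.card H := by
  obtain ⟨K, f, hf⟩ := h
  exact (Nat.card_le_card_of_surjective f hf).trans (Subgroup.card_le_card_group K)

theorem card_lt_of_ne_top {G : Type*} [Group G] [Finite G] {Y : Subgroup G} (hY : Y ≠ ⊤) :
    Nat.card Y < Nat.card G :=
  lt_of_le_of_ne (Subgroup.card_le_card_group Y) (fun h => hY (Subgroup.eq_top_of_card_eq Y h))

end PsvAux

open PsvAux

theorem baw_psolv {p : ℕ} [Fact p.Prime] {k : Type v} [Field k] [IsAlgClosed k] [CharP k p] :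
    ∀ (n : ℕ) (H : Type u) [Group H] [Finite H], Nat.card H = n → PSolv p H →
      ∀ b : MonoidAlgebra k H, IsBlock ⊤ b → NavarroEq p ⊤ ⊤ b := by
  intro n
  induction n using Nat.strong_induction_on with
  | _ n ih =>
  intro H₀ _ _ hcard hps₀ b₀ hb₀
  refine baw_of_reduced (p := p) (k := k) (G₀ := H₀) (fun _ _ => True)
    (fun _ _ _ _ _ _ => trivial) ?_ (Nat.card H₀) H₀ rfl (IsSection.refl H₀) b₀ hb₀
    (fun _ _ _ => trivial)
  intro H _ _ hsec b hred _ hP₀
  obtain ⟨P₀, hP₀p, -, hP₀c⟩ := hP₀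
  classical
  have : Fintype H := Fintype.ofFinite H
  have hp : p.Prime := Fact.out
  have hps : PSolv p H := hps₀.of_section hsec
  have hle : Nat.card H ≤ n := by
    rw [← hcard]
    exact card_le_of_section hsec
  have hb : IsBlock ⊤ b := hred.block
  obtain ⟨N, hNn, hNp, hNmax⟩ := exists_core (p := p) H
  obtain ⟨e, ⟨he, hbe⟩, huniq⟩ := hred.prim N hNn
  have hnN : (⊤ : Subgroup H) ≤ Subgroup.normalizer (N : Set H) := by
    rw [Subgroup.normalizer_eq_top]
  have hbinv : ∀ g : H, cj g b = b := fun g => invBy_iff_cj.1 hb.invBy g (Subgroup.mem_top g)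
  have hinv : InvBy ⊤ e := by
    rw [invBy_iff_cj]
    intro g hg
    apply huniq
    refine ⟨?_, ?_⟩
    · have h1 := isBlock_cg he g
      rwa [cg_of_mem_normalizer (hnN hg)] at h1
    · intro h0
      apply hbe
      have h1 : cj g (b * e) = 0 := by rw [cj_mul, hbinv g, h0]
      have h2 := congrArg (cj g⁻¹) h1
      rw [cj_cj, inv_mul_cancel, cj_one_left, cj_zero] at h2
      exact h2
  have htri : Tri p N ⊤ e := ⟨le_top, hnN, hNp, he, hinv⟩
  have hNne : N ≠ ⊤ := by
    intro h0
    rw [h0, Subgroup.card_top] at hNp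
    obtain ⟨m, hm⟩ := (IsPGroup.iff_card.1 hP₀p)
    apply hNp
    refine dvd_trans ?_ (Subgroup.card_subgroup_dvd_card P₀)
    rw [hm]
    refine dvd_pow_self p ?_
    rintro rfl
    rw [pow_zero] at hm
    rw [hm] at hP₀c
    exact absurd hP₀c (not_lt.2 hp.one_lt.le)
  obtain ⟨P, hPp, hPne, hNPn, hcent⟩ := exists_up hps hNn hNp hNmax hNne
  have hnNP : (⊤ : Subgroup H) ≤ Subgroup.normalizer ((N ⊔ P : Subgroup H) : Set H) := by
    have := hNPn
    rw [Subgroup.normalizer_eq_top]
  have heB : IsBlock ⊤ e := isBlock_of_tri htri le_top hPp hnNP (fun g _ h => hcent g h)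
  have hbee : b = e := by
    rcases hb.eq_or_mul_eq_zero heB with h | h
    · exact h
    · exact absurd h hbe
  have hKne : (⊤ : Subgroup H) ⊓ Subgroup.normalizer (P : Set H) ≠ ⊤ := by
    intro h0
    apply hPne
    apply hred.core P ?_ hPp
    rw [top_inf_eq] at h0
    exact Subgroup.normalizer_eq_top_iff.1 h0
  have htb := tri_br htri (le_top : P ≤ ⊤) hPp
  have hw : Cy.WEq p ((⊤ : Subgroup H) ⊓ Subgroup.normalizer (P : Set H)) (br P e) := by
    apply weq_of_blocks (htb.blk.suppIn.mono htb.le) htb.inv htb.blk.idem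
    intro c hc _
    apply navarro_transport hc
    refine ih _ ((card_lt_of_ne_top hKne).trans_le hle) _ rfl ?_ _ (dn_isBlock hc)
    exact hps.of_section (IsSection.of_subgroup _)
  rw [hbee]
  exact navarro_of_weq heB (weq_of_normal htri le_top hPp hnNP hw)

/-- the weight equality for the idempotents of the centre of `kK`, `K` p-solvable -/
theorem weq_psolv {p : ℕ} [Fact p.Prime] {k : Type v} [Field k] [IsAlgClosed k] [CharP k p]
    {A : Type u} [Group A] [Fintype A] {K : Subgroup A} (hK : PSolv p K)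
    {c : MonoidAlgebra k A} (hc : SuppIn K c) (hc' : InvBy K c) (hcc : c * c = c) :
    Cy.WEq p K c := by
  apply weq_of_blocks hc hc' hcc
  intro b hb _
  exact navarro_transport hb (baw_psolv _ ↥K rfl hK _ (dn_isBlock hb))

end Pool.Agent.Lib.P0c8ca5.Ps
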