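import Mathlib
import Pool.Agent.Lib.P0c8ca5C.FinalG
import Pool.Agent.Lib.P0c8ca5N.Rad
import Pool.Agent.Lib.P0c8ca5N.Blk2

/-!
# Module BrUp: the Brauer map and a normal p-subgroup

`f` is an idempotent of `Z(kH)`, `R` a normal p-subgroup of `H` and `S ≤ H` a p-subgroup with
`Br_S(f) ≠ 0`.  Then `Br_(S R)(f) ≠ 0`.
-/

namespace Pool.Agent.Lib.P0c8ca5.Ps

open MonoidAlgebra
open Pool.Agent.Lib.P0c8ca5.Cy

variable {p : ℕ} {k : Type*} [Field k] {A : Type*} [Group A]

/-- a nonzero idempotent of `Z(kK)` contains a block idempotent -/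
theorem exists_block_le [IsAlgClosed k] [Finite A] {K : Subgroup A}
    {c : MonoidAlgebra k A} (hc : c ∈ fixAlg k K K) (h0 : c ≠ 0) (h1 : c * c = c) :
    ∃ b, IsBlock K b ∧ b * c = b := by
  have h0' : (⟨c, hc⟩ : fixAlg k K K) ≠ 0 := fun h => h0 (congrArg Subtype.val h)
  obtain ⟨f, hf, hfe⟩ := exists_prim_le k h0' (Subtype.ext h1)
  exact ⟨f.1, isBlock_of_primIdem hf, congrArg Subtype.val hfe⟩

theorem relIndex_ne [Finite A] (S V : Subgroup A) : S.relIndex V ≠ 0 := by
  have : Finite (V ⧸ S.subgroupOf V) := inferInstance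
  exact Subgroup.index_ne_zero_of_finite

theorem hasBr_sup_normal [Fact p.Prime] [CharP k p] [IsAlgClosed k] [Fintype A]
    {H R : Subgroup A} (hRH : R ≤ H) (hn : H ≤ Subgroup.normalizer (R : Set A))
    (hR : IsPGroup p R) {f : MonoidAlgebra k A} (hf : SuppIn H f) (hfi : InvBy H f)
    (hff : f * f = f) : ∀ (n : ℕ) (S : Subgroup A), S.relIndex (S ⊔ R) = n → S ≤ H →
      IsPGroup p S → HasBr S f → HasBr (S ⊔ R) f := by
  intro n
  induction n using Nat.strong_induction_on with
  | _ n ih =>
    intro S hSn hSH hS hbr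
    by_cases hRS : R ≤ S
    · rwa [sup_eq_left.2 hRS]
    have hSR : IsPGroup p ↥(S ⊔ R) := hS.to_sup_of_normal_right' hR (hSH.trans hn)
    -- the next group
    set V : Subgroup A := S ⊔ (R ⊓ Subgroup.normalizer (S : Set A)) with hV
    set K : Subgroup A := H ⊓ Subgroup.normalizer (S : Set A) with hK
    have hVK : V ≤ K := sup_le (le_inf hSH Subgroup.le_normalizer)
      (le_inf (inf_le_left.trans hRH) inf_le_right)
    have hVSR : V ≤ S ⊔ R := sup_le le_sup_left (inf_le_left.trans le_sup_right)
    have hVp : IsPGroup p V := hSR.to_le hVSR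
    have hKV : K ≤ Subgroup.normalizer (V : Set A) := by
      intro x hx
      have h1 : cg x S = S := cg_eq_self_iff.2 hx.2
      have h2 : cg x R = R := cg_eq_self_iff.2 (hn hx.1)
      have h3 : cg x (Subgroup.normalizer (S : Set A)) = Subgroup.normalizer (S : Set A) :=
        cg_of_mem hx.2
      rw [← cg_eq_self_iff, hV, cg_sup, cg_inf, h1, h2, h3]
    -- V is larger than S
    have hlt : S < V := by
      refine lt_of_le_of_ne le_sup_left (fun h => hRS ?_)
      have h1 : R ⊓ Subgroup.normalizer (S : Set A) ≤ S := by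
        conv_rhs => rw [h]
        exact le_sup_right
      have hfinSR : Finite ↥(S ⊔ R) := inferInstance
      have hnil : Group.IsNilpotent ↥(S ⊔ R) := hSR.isNilpotent
      have hnc : NormalizerCondition ↥(S ⊔ R) := Group.normalizerCondition_of_isNilpotent
      by_contra hRS'
      have hne : S.subgroupOf (S ⊔ R) < ⊤ := by
        rw [lt_top_iff_ne_top]
        intro h2
        rw [Subgroup.subgroupOf_eq_top] at h2
        exact hRS' (le_sup_right.trans h2)
      have h3 := hnc _ hne
      obtain ⟨y, hy, hyS⟩ := SetLike.exists_of_lt h3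
      apply hyS
      have hyn : (y : A) ∈ Subgroup.normalizer (S : Set A) := by
        rw [Subgroup.mem_normalizer_iff] at hy ⊢
        intro z
        constructor
        · intro hz
          have h4 := (hy ⟨z, (le_sup_left : S ≤ S ⊔ R) hz⟩).1 hz
          exact h4
        · intro hz
          have h5 : z ∈ S ⊔ R := by
            have h6 := (S ⊔ R).mul_mem ((S ⊔ R).mul_mem ((S ⊔ R).inv_mem y.2)
              ((le_sup_left : S ≤ S ⊔ R) hz)) y.2
            have e1 : (y : A)⁻¹ * ((y : A) * z * (y : A)⁻¹) * (y : A) = z := by group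
            rwa [e1] at h6
          exact (hy ⟨z, h5⟩).2 hz
      have hyRS : (y : A) ∈ R ⊔ S := by
        rw [sup_comm]
        exact y.2
      obtain ⟨r, hr, s, hs, hsr⟩ := (mem_sup_norm (hSH.trans hn)).1 hyRS
      have hrn : r ∈ Subgroup.normalizer (S : Set A) := by
        have h7 := (Subgroup.normalizer (S : Set A)).mul_mem hyn
          ((Subgroup.normalizer (S : Set A)).inv_mem (Subgroup.le_normalizer hs))
        rw [← hsr] at h7
        rwa [mul_inv_cancel_right] at h7
      have hrS : r ∈ S := h1 ⟨hr, hrn⟩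
      change (y : A) ∈ S
      rw [← hsr]
      exact S.mul_mem hrS hs
    -- Br_V(f) is not zero
    have hfS : InvBy S f := hfi.mono hSH
    have hb1 : resS (Subgroup.centralizer (S : Set A) : Set A) f ∈ fixAlg k K K := by
      refine mem_fixAlg.2 ⟨?_, ?_⟩
      · exact (resS_suppIn' hf).mono (inf_le_inf_left _ (Subgroup.centralizer_le_normalizer _))
      · refine resS_invBy ?_ (hfi.mono inf_le_left)
        intro x hx
        have h1 : cg x S = S := cg_eq_self_iff.2 hx.2
        rw [← cg_eq_self_iff, Blk2A.cg_centralizer, h1]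
    have hb2 : resS (Subgroup.centralizer (S : Set A) : Set A) f ≠ 0 := by
      obtain ⟨y, hy, hy0⟩ := hbr
      intro h0
      apply hy0
      rw [← coeff_resS_of_mem f hy, h0]
      rfl
    have hb3 : resS (Subgroup.centralizer (S : Set A) : Set A) f
        * resS (Subgroup.centralizer (S : Set A) : Set A) f
        = resS (Subgroup.centralizer (S : Set A) : Set A) f := by
      rw [← resS_mul hS hfS hfS, hff]
    obtain ⟨b, hb, hbf⟩ := exists_block_le hb1 hb2 hb3
    have h9 : HasBr V b := hasBr_of_normal hVK hKV hVp hb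
    have h10 : HasBr V (resS (Subgroup.centralizer (S : Set A) : Set A) f) :=
      hasBr_of_mul hVp (hb.invBy.mono hVK) ((mem_fixAlg.1 hb1).2.mono hVK) hbf h9
    have h11 : HasBr V f := by
      obtain ⟨y, hy, hy0⟩ := h10
      refine ⟨y, hy, fun h0 => hy0 ?_⟩
      rw [coeff_resS]
      split_ifs
      · exact h0
      · rfl
    have h12 : V ⊔ R = S ⊔ R := by
      apply le_antisymm (sup_le hVSR le_sup_right)
      exact sup_le_sup_right hlt.le _
    have h13 : V.relIndex (V ⊔ R) < n := by
      rw [h12, ← hSn]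
      have h14 := Subgroup.relIndex_mul_relIndex S V (S ⊔ R) hlt.le hVSR
      have h15 : 1 < S.relIndex V := by
        have h16 : S.relIndex V ≠ 0 := relIndex_ne S V
        have h17 : S.relIndex V ≠ 1 := by
          intro h
          rw [Subgroup.relIndex_eq_one] at h
          exact absurd h (not_le_of_gt hlt)
        omega
      have h18 : 0 < V.relIndex (S ⊔ R) := Nat.pos_of_ne_zero (relIndex_ne _ _)
      nlinarith
    have h19 := ih _ h13 V rfl (hVK.trans inf_le_left) hVp h11
    rwa [h12] at h19

end Pool.Agent.Lib.P0c8ca5.Ps
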