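import Mathlib
import Pool.Agent.Lib.P0c8ca5C.EqD
import Pool.Agent.Lib.P0c8ca5N.Blk2
import Pool.Agent.Lib.P0c8ca5S.Psv

/-!
# Local conditions: p-solvable local subgroups
-/

namespace Pool.Agent.Lib.P0c8ca5.Ps

open MonoidAlgebra
open Pool.Agent.Lib.P0c8ca5.Cy

universe u v

variable {p : ℕ} {k : Type v} [Field k]

/-- the weight equality for the chain stabilizers implies Navarro's equality for `(G, H, e)` -/
theorem navarro_loc [Fact p.Prime] [CharP k p] [IsAlgClosed k]
    {A : Type u} [Group A] [Fintype A] {G H : Subgroup A} (hn : G.Normal) (hGH : G ≤ H)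
    (hp : ∀ x : A, ∃ n : ℕ, x ^ p ^ n ∈ G) {e : MonoidAlgebra k A}
    (he : IsBlock G e) (hinv : InvBy ⊤ e)
    (hfix : ∀ Q : Subgroup A, Q ≤ H → IsPGroup p Q → G ⊔ Q = H →
      (∃ E, IsDefectGroup p ⊤ e E ∧ Q ≤ E) →
      ∀ K : Subgroup A, G ⊓ Subgroup.centralizer (Q : Set A) ≤ K →
        K ≤ G ⊓ Subgroup.normalizer (Q : Set A) →
        ∀ c : MonoidAlgebra k A, (∀ x, c.coeff x ≠ 0 → e.coeff x ≠ 0) →
        (∀ x, c.coeff x ≠ 0 → x ∈ Subgroup.centralizer (Q : Set A)) →
        SuppIn (G ⊓ Subgroup.centralizer (Q : Set A)) c →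
        InvBy (Subgroup.normalizer (Q : Set A)) c → c * c = c → WEq p K c) :
    NavarroEq p G H e := by
  classical
  have : Fintype (Subgroup A) := Fintype.ofFinite _
  have hnG : H ≤ Subgroup.normalizer (G : Set A) := fun x _ => mem_norm_of_normal G x
  have hinvH : InvBy H e := hinv.mono le_top
  have hpH : ∀ x ∈ H, ∃ n : ℕ, x ^ p ^ n ∈ G := fun x _ => hp x
  have heH : IsBlock H e := isBlock_up' hGH hnG hpH he hinvH
  -- the weight equality for the chain stabilizers
  have hW : ∀ σ : Finset (Subgroup A), σ.Nonempty → IsChain (· ≤ ·) (σ : Set (Subgroup A)) →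
      (∀ Q ∈ σ, Q ∈ Supp p G H) → WEq p (G ⊓ stab H σ) (cS (σ.sup id) e) := by
    intro σ hne hσ hσS
    set Q := σ.sup id with hQdef
    have hQσ : Q ∈ σ := sup_mem_chain hne hσ
    have hQS := hσS Q hQσ
    obtain ⟨hQH, hQp, hGQ⟩ := hQS
    have hHn : ∀ R ∈ σ, stab H σ ≤ Subgroup.normalizer (R : Set A) := fun R hR x hx =>
      (mem_stab.1 hx).2 R hR
    have hCS : H ⊓ Subgroup.centralizer (Q : Set A) ≤ stab H σ := by
      intro x hx
      rw [mem_stab]
      refine ⟨hx.1, fun R hR => ?_⟩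
      have hRQ : R ≤ Q := Finset.le_sup (f := id) hR
      exact Subgroup.centralizer_le_normalizer _ (Subgroup.centralizer_le hRQ hx.2)
    have hctx : Ctx p H (stab H σ) Q e :=
      { hHX := fun x hx => (mem_stab.1 hx).1
        hS := hQp
        hHS := hHn Q hQσ
        hCS := hCS
        supp := heH.suppIn
        inv := hinvH }
    have hsub : ∀ x, (cS Q e).coeff x ≠ 0 → e.coeff x ≠ 0 := by
      intro x hx h0
      apply hx
      rw [coeff_resS]
      split_ifs
      · exact h0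
      · rfl
    have hcen : ∀ x, (cS Q e).coeff x ≠ 0 → x ∈ Subgroup.centralizer (Q : Set A) := by
      intro x hx
      by_contra h0
      exact hx (coeff_resS_of_notMem _ h0)
    have hcC : SuppIn (G ⊓ Subgroup.centralizer (Q : Set A)) (cS Q e) := fun x hx =>
      Subgroup.mem_inf.2 ⟨he.suppIn x (hsub x hx), hcen x hx⟩
    have hCK : G ⊓ Subgroup.centralizer (Q : Set A) ≤ G ⊓ stab H σ :=
      le_inf inf_le_left ((inf_le_inf_right _ hGH).trans hCS)
    have hcinv : InvBy (Subgroup.normalizer (Q : Set A)) (cS Q e) := by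
      refine resS_invBy ?_ (hinv.mono le_top)
      intro x hx
      have h1 : cg x Q = Q := cg_eq_self_iff.2 hx
      rw [← cg_eq_self_iff, Blk2A.cg_centralizer, h1]
    have hcc : cS Q e * cS Q e = cS Q e := hctx.cS_idem hQH he.idem
    by_cases hbr : HasBr Q e
    · exact hfix Q hQH hQp hGQ (exists_defect_ge (p := p) hQp hbr) _ hCK
        (inf_le_inf_left _ (hHn Q hQσ)) _ hsub hcen hcC hcinv hcc
    · have h0 : cS Q e = 0 := by
        ext y
        by_contra hy
        exact hbr ⟨y, hcen y hy, hsub y hy⟩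
      rw [h0]
      exact weq_zero (p := p) _
  -- the conclusion
  intro T hT1 hT2
  let S : Finset (Subgroup A) := Finset.univ.filter (fun Q => Q ∈ Supp p G H)
  have hS : ∀ Q, Q ∈ S ↔ Q ∈ Supp p G H := by intro Q; simp [S]
  have h1 := inv_of_chains hGH hnG hpH he.suppIn hinvH he.idem hW S hS
  have h2 := sum_DZ_supp hGH hnG hpH he hinvH T hT1 hT2 S hS
  have hpos : 0 < Nat.card H := Nat.card_pos
  exact Nat.eq_of_mul_eq_mul_left hpos (h1.trans h2.symm)

/-- **General form**: the local subgroups are p-solvable or satisfy `LocU`. -/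
theorem navarro_V_rel [Fact p.Prime] [CharP k p] [IsAlgClosed k]
    (hB : BaseHyp.{u, v} p k (fun _ => True))
    {A : Type u} [Group A] [Fintype A] {G H : Subgroup A} (hn : G.Normal) (hGH : G ≤ H)
    (hp : ∀ x : A, ∃ n : ℕ, x ^ p ^ n ∈ G) {e : MonoidAlgebra k A}
    (he : IsBlock G e) (hinv : InvBy ⊤ e)
    (hfix : ∀ Q : Subgroup A, Q ≤ H → G ⊔ Q = H →
      (∃ E, IsDefectGroup p ⊤ e E ∧ Q ≤ E) →
      PSolv p ↥(G ⊓ Subgroup.normalizer (Q : Set A)) ∨ LocU p G e Q) :
    NavarroEq p G H e := by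
  apply navarro_loc hn hGH hp he hinv
  intro Q hQH hQp hGQ hQE K hCK hKN c hsub hcen hcC hcinv hcc
  rcases hfix Q hQH hGQ hQE with h | h
  · exact weq_psolv (h.of_section (IsSection.of_le hKN)) (hcC.mono hCK)
      (hcinv.mono (hKN.trans inf_le_right)) hcc
  · exact weq_locU hB hQp hCK hKN hsub hcen hcC (hcinv.mono (hKN.trans inf_le_right)) hcc h

theorem navarro_V [Fact p.Prime] [CharP k p] [IsAlgClosed k]
    (hB : BaseHyp.{u, v} p k (fun _ => True))
    {A : Type u} [Group A] [Fintype A] {G : Subgroup A} (hn : G.Normal)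
    (hp : ∀ x : A, ∃ n : ℕ, x ^ p ^ n ∈ G) {e : MonoidAlgebra k A}
    (he : IsBlock G e) (hinv : InvBy ⊤ e)
    (hfix : ∀ Q : Subgroup A, G ⊔ Q = ⊤ → (∃ E, IsDefectGroup p ⊤ e E ∧ Q ≤ E) →
      PSolv p ↥(G ⊓ Subgroup.normalizer (Q : Set A)) ∨ LocU p G e Q) :
    NavarroEq p G ⊤ e :=
  navarro_V_rel hB hn le_top hp he hinv (fun Q _ h1 h2 => hfix Q h1 h2)

theorem IsSection.of_iso {G G' : Type*} [Group G] [Group G'] (f : G ≃* G') : IsSection G' G :=
  IsSection.of_surjective f.toMonoidHom f.surjective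

/-- the defect groups are conjugate: the condition for the subgroups of one defect group.  `Sp S` is
the condition `G S = H` or `S ≤ G` fails. -/
theorem navarro_mix [Fact p.Prime] [CharP k p] [IsAlgClosed k]
    (hB : BaseHyp.{u, v} p k (fun _ => True))
    {A : Type u} [Group A] [Fintype A] {G : Subgroup A} (hn : G.Normal)
    (hp : ∀ x : A, ∃ n : ℕ, x ^ p ^ n ∈ G) {e : MonoidAlgebra k A}
    (he : IsBlock G e) (hinv : InvBy ⊤ e) {E : Subgroup A} (hE : IsDefectGroup p ⊤ e E)
    {H : Subgroup A} (hGH : G ≤ H)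
    (Sp : Subgroup A → Prop) (hSp : ∀ (x : A) (S : Subgroup A), Sp S → Sp (cg x S))
    (hSH : ∀ S : Subgroup A, G ⊔ S = H → Sp S)
    (hloc : ∀ Q ≤ E, Sp Q → PSolv p ↥(G ⊓ Subgroup.normalizer (Q : Set A)) ∨
      ∀ S ≤ Q, Sp S → IsCyclic ↥((E ⊓ G) ⊓ Subgroup.centralizer (S : Set A)) ∨
        ¬ p ∣ Nat.card ↥(Opc p G S)) : NavarroEq p G H e := by
  classical
  have hnG : (⊤ : Subgroup A) ≤ Subgroup.normalizer (G : Set A) := fun x _ =>
    mem_norm_of_normal G x
  have heT : IsBlock (⊤ : Subgroup A) e := isBlock_up' le_top hnG (fun x _ => hp x) he hinv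
  -- all defect groups
  have h2 : ∀ (E' : Subgroup A), IsDefectGroup p ⊤ e E' → ∀ Q ≤ E', Sp Q →
      PSolv p ↥(G ⊓ Subgroup.normalizer (Q : Set A)) ∨ ∀ S ≤ Q, Sp S →
        IsCyclic ↥((E' ⊓ G) ⊓ Subgroup.centralizer (S : Set A)) ∨
          ¬ p ∣ Nat.card ↥(Opc p G S) := by
    intro E' hE' Q hQ hQs
    obtain ⟨x, rfl⟩ := Rk.defect_conj heT hE hE'
    have h3 : ∀ S ≤ cg x E, cg x⁻¹ S ≤ E := by
      intro S hS
      have := cg_le_cg (g := x⁻¹) hS
      rwa [cg_cg, inv_mul_cancel, cg_one] at this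
    rcases hloc _ (h3 Q hQ) (hSp _ _ hQs) with h5 | h5
    · left
      have h6 : G ⊓ Subgroup.normalizer (Q : Set A)
          = cg x (G ⊓ Subgroup.normalizer ((cg x⁻¹ Q : Subgroup A) : Set A)) := by
        ext y
        rw [mem_cg, Subgroup.mem_inf, Subgroup.mem_inf]
        have e1 : x⁻¹ * y * x ∈ G ↔ y ∈ G := by
          constructor
          · intro h
            have := hn.conj_mem _ h x
            have e2 : x * (x⁻¹ * y * x) * x⁻¹ = y := by group
            rwa [e2] at this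
          · intro h
            have := hn.conj_mem _ h x⁻¹
            rwa [inv_inv] at this
        have e3 : x⁻¹ * y * x ∈ Subgroup.normalizer ((cg x⁻¹ Q : Subgroup A) : Set A) ↔
            y ∈ Subgroup.normalizer (Q : Set A) := by
          rw [← cg_eq_self_iff, ← cg_eq_self_iff, cg_cg]
          have e4 : x⁻¹ * y * x * x⁻¹ = x⁻¹ * y := by group
          have e5 : cg (x⁻¹ * y) Q = cg x⁻¹ (cg y Q) := by rw [cg_cg]
          rw [e4, e5]
          constructor
          · intro h
            have h8 := congrArg (cg x) h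
            have e6 : ∀ S : Subgroup A, cg x (cg x⁻¹ S) = S := by
              intro S
              rw [cg_cg, mul_inv_cancel, cg_one]
            rwa [e6, e6] at h8
          · intro h
            rw [h]
        rw [e1, e3]
      rw [h6]
      exact h5.of_section (IsSection.of_iso (Subgroup.equivMapOfInjective _
        (MulAut.conj x).toMonoidHom (MulAut.conj x).injective))
    · right
      intro S hS hSs
      have h7 : cg x⁻¹ S ≤ cg x⁻¹ Q := cg_le_cg hS
      rcases h5 _ h7 (hSp _ _ hSs) with h5 | h5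
      · left
        have h6 : (cg x E ⊓ G) ⊓ Subgroup.centralizer (S : Set A)
            = cg x ((E ⊓ G) ⊓ Subgroup.centralizer ((cg x⁻¹ S : Subgroup A) : Set A)) := by
          rw [cg_inf, cg_inf, cg_normal x G, ← cent_conj]
        rw [h6]
        have h9 := (Subgroup.equivMapOfInjective ((E ⊓ G) ⊓
          Subgroup.centralizer ((cg x⁻¹ S : Subgroup A) : Set A)) (MulAut.conj x).toMonoidHom
          (MulAut.conj x).injective)
        exact isCyclic_of_surjective h9 h9.surjective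
      · right
        intro h6
        apply h5
        have h7 := (h6.trans (Subgroup.card_dvd_of_le (opc_conj_le hn x S)))
        rwa [card_cg] at h7
  have hmeet : ∀ P L : Subgroup A, IsPGroup p P → ¬ p ∣ Nat.card L → P ⊓ L = ⊥ := by
    intro P L hP hL
    have h1 : IsPGroup p ↥(P ⊓ L) := hP.to_le inf_le_left
    by_contra h
    have : Nontrivial ↥(P ⊓ L) := (Subgroup.nontrivial_iff_ne_bot _).2 h
    obtain ⟨n, hn0, hn'⟩ := h1.nontrivial_iff_card.mp this
    apply hL
    have h2 : p ∣ Nat.card ↥(P ⊓ L) := hn'.symm ▸ dvd_pow_self _ (ne_of_gt hn0)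
    exact h2.trans (Subgroup.card_dvd_of_le inf_le_right)
  apply navarro_V_rel hB hn hGH hp he hinv
  rintro Q hQH hGQ ⟨E₀, hE₀, hQE₀⟩
  rcases h2 E₀ hE₀ Q hQE₀ (hSH Q hGQ) with h | h0
  · exact Or.inl h
  by_cases hps : PSolv p ↥(G ⊓ Subgroup.normalizer (Q : Set A))
  · exact Or.inl hps
  right
  refine locU_of_cent_rel hn hGH (hE₀.isPGroup.to_le hQE₀) hQH hGQ ?_ ?_
  · intro S hSQ hGS
    rcases h0 S hSQ (hSH S hGS) with h | h
    · left
      have h3 : (Q ⊓ G) ⊓ Subgroup.centralizer (S : Set A)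
          ≤ (E₀ ⊓ G) ⊓ Subgroup.centralizer (S : Set A) :=
        inf_le_inf_right _ (inf_le_inf_right _ hQE₀)
      exact isCyclic_of_injective (Subgroup.inclusion h3) (Subgroup.inclusion_injective h3)
    · right
      exact hmeet _ _ (hE₀.isPGroup.to_le hQE₀) h
  · intro E' hE' hQE
    rcases (h2 E' hE' Q hQE (hSH Q hGQ)).resolve_left hps Q le_rfl (hSH Q hGQ) with h | h
    · have h3 : E' ⊓ Opc p G Q ≤ (E' ⊓ G) ⊓ Subgroup.centralizer (Q : Set A) :=
        le_inf (le_inf inf_le_left (inf_le_right.trans ((opc_le G Q).trans inf_le_left)))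
          (inf_le_right.trans ((opc_le G Q).trans inf_le_right))
      exact isCyclic_of_injective (Subgroup.inclusion h3) (Subgroup.inclusion_injective h3)
    · rw [hmeet _ _ hE'.isPGroup h]
      exact isCyclic_of_subsingleton

end Pool.Agent.Lib.P0c8ca5.Ps
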