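import Mathlib
import Pool.Agent.Lib.P0c8ca5S.Loc
import Pool.Agent.Lib.P0c8ca5S.BrUp

/-!
# Local conditions modulo a normal p-subgroup of the local subgroup
-/

namespace Pool.Agent.Lib.P0c8ca5.Ps

open MonoidAlgebra
open Pool.Agent.Lib.P0c8ca5.Cy

universe u v

variable {p : ℕ} {k : Type v} [Field k]

/-- The hypothesis on `Q`: as `LocU`, modulo a p-group `R`, `Q ≤ R ≤ N(Q)`, that is normalized by
`N_G(Q)`. -/
def LocR (p : ℕ) {A : Type u} [Group A] (G : Subgroup A) (e : MonoidAlgebra k A)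
    (Q : Subgroup A) : Prop :=
  ∃ R M N H : Subgroup A, IsPGroup p R ∧ Q ≤ R ∧ R ≤ Subgroup.normalizer (Q : Set A) ∧
    G ⊓ Subgroup.normalizer (Q : Set A) ≤ Subgroup.normalizer (R : Set A) ∧
    Hyp3 p M N H (G ⊓ Subgroup.normalizer (Q : Set A)) ∧
    (∀ x ∈ G, x ∈ Subgroup.centralizer (Q : Set A) → ¬ p ∣ orderOf x → x ∈ M) ∧
    ∀ E, IsDefectGroup p ⊤ e E → R ≤ E → IsCyclic ↥(sec (E ⊓ M) R)

theorem LocU.locR {A : Type u} [Group A] {G : Subgroup A} {e : MonoidAlgebra k A}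
    {Q : Subgroup A} (hQ : IsPGroup p Q) (h : LocU p G e Q) : LocR p G e Q := by
  obtain ⟨M, N, H, h1, h2, h3⟩ := h
  exact ⟨Q, M, N, H, hQ, le_rfl, Subgroup.le_normalizer, inf_le_right, h1, h2, h3⟩

theorem hasBr_sub {A : Type u} [Group A] {P : Subgroup A} {c e : MonoidAlgebra k A}
    (hsub : ∀ x, c.coeff x ≠ 0 → e.coeff x ≠ 0) (h : HasBr P c) : HasBr P e := by
  obtain ⟨y, hy, hy0⟩ := h
  exact ⟨y, hy, hsub y hy0⟩

/-- the weight equality for the chain stabilizers -/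
theorem weq_locR [Fact p.Prime] [CharP k p] [IsAlgClosed k]
    (hB : BaseHyp.{u, v} p k (fun _ => True))
    {A : Type u} [Group A] [Fintype A] {G : Subgroup A} {e c : MonoidAlgebra k A}
    (hG : G.Normal)
    {Q K : Subgroup A} (hCK : G ⊓ Subgroup.centralizer (Q : Set A) ≤ K)
    (hKQ : K ≤ G ⊓ Subgroup.normalizer (Q : Set A)) (hsub : ∀ x, c.coeff x ≠ 0 → e.coeff x ≠ 0)
    (hcen : ∀ x, c.coeff x ≠ 0 → x ∈ Subgroup.centralizer (Q : Set A))
    (hcC : SuppIn (G ⊓ Subgroup.centralizer (Q : Set A)) c)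
    (hcN : InvBy (Subgroup.normalizer (Q : Set A)) c)
    (hcc : c * c = c) (hU : LocR p G e Q) : WEq p K c := by
  classical
  obtain ⟨R₀, M, N, H, hR₀p, hQR₀, hR₀Q, hGR₀, hMN, hreg, hcyc⟩ := hU
  have hcinv : InvBy K c := hcN.mono (hKQ.trans inf_le_right)
  -- the support
  have hCn : G ⊓ Subgroup.centralizer (Q : Set A) ≤
      Subgroup.normalizer ((Opc p G Q : Subgroup A) : Set A) :=
    opc_norm (inf_le_left.trans Subgroup.le_normalizer)
      (inf_le_right.trans (Subgroup.centralizer_le_normalizer _))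
  have hcO : SuppIn (Opc p G Q) c :=
    supp_in_of_pQuotient (p := p) (opc_le G Q) hCn (fun x hx => opc_pow hx)
      (mem_fixAlg.2 ⟨hcC, hcinv.mono hCK⟩) hcc
  have hOM : Opc p G Q ≤ M ⊓ K := by
    refine le_inf ?_ ((opc_le G Q).trans hCK)
    rw [Opc, Subgroup.closure_le]
    rintro x ⟨h1, h2, h3⟩
    exact hreg x h1 h2 h3
  have hcM : SuppIn (M ⊓ K) c := hcO.mono hOM
  have hcK : SuppIn K c := hcM.mono inf_le_right
  have hKR₀ : K ≤ Subgroup.normalizer (R₀ : Set A) := hKQ.trans hGR₀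
  have hh := hMN.sub hKQ
  -- modulo `R`
  set R : Subgroup A := R₀ ⊓ K with hR
  have hRp : IsPGroup p R := hR₀p.to_le inf_le_left
  have hRK : R ≤ K := inf_le_right
  have hRn : K ≤ Subgroup.normalizer (R : Set A) := by
    intro x hx
    have h1 := hKR₀ hx
    rw [← cg_eq_self_iff] at h1 ⊢
    rw [hR, cg_inf, h1, cg_of_mem hx]
  have : Fintype (NQ R) := Fintype.ofFinite _
  apply weq_infl hRK hRn hRp hcK
  have hh' := hh.sec R
  refine weq_star3 hB hh' (proj_suppIn hcM R) (proj_invBy' hcinv) ?_ ?_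
  · rw [← proj_mul hRp (hcinv.mono hRK) (hcinv.mono hRK), hcc]
  · intro P' hP' hPp' hbr
    obtain ⟨P, hRP, hPK, hPp, hbrP, hsec⟩ := hasBr_infl_idem (p := p) hRK hRn hRp hcK hcinv
      (hP'.trans (sec_mono inf_le_right)) hPp' hbr
    refine ⟨?_, trivial⟩
    -- the part in `M`
    set P₁ : Subgroup A := P ⊓ M with hP₁
    have hP₁p : IsPGroup p P₁ := hPp.to_le inf_le_left
    have hsec₁ : sec P₁ R = P' := by
      apply le_antisymm
      · rw [← hsec]
        exact sec_mono inf_le_left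
      · intro w hw
        obtain ⟨m, hm, hm', rfl⟩ := mem_sec.1 (hP' hw)
        rw [← hsec] at hw
        obtain ⟨x, hx, hx', h3⟩ := mem_sec.1 hw
        rw [qm_eq_iff] at h3
        have h4 : m ∈ P := by
          have h5 := P.mul_mem hx (P.inv_mem (hRP h3))
          have e1 : x * (m⁻¹ * x)⁻¹ = m := by group
          rwa [e1] at h5
        exact qm_mem_sec _ (Subgroup.mem_inf.2 ⟨h4, (Subgroup.mem_inf.1 hm).1⟩)
    -- the Brauer map for `P R₀`
    have hPQ : P ≤ Subgroup.normalizer (Q : Set A) := hPK.trans (hKQ.trans inf_le_right)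
    have hPR₀ : P ≤ Subgroup.normalizer (R₀ : Set A) := hPK.trans hKR₀
    have hbr' : HasBr (P ⊔ R₀) c := by
      -- the group `N_G(Q) R₀`
      set Y : Subgroup A := (G ⊓ Subgroup.normalizer (Q : Set A)) ⊔ R₀ with hY
      have hYQ : Y ≤ Subgroup.normalizer (Q : Set A) := sup_le inf_le_right hR₀Q
      have hYR : Y ≤ Subgroup.normalizer (R₀ : Set A) := sup_le hGR₀ Subgroup.le_normalizer
      have hcY : SuppIn Y c := hcC.mono ((inf_le_inf_left _
        (Subgroup.centralizer_le_normalizer _)).trans le_sup_left)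
      exact hasBr_sup_normal (p := p) (H := Y) (R := R₀) le_sup_right hYR hR₀p hcY
        (hcN.mono hYQ) hcc _ P rfl ((hPK.trans hKQ).trans le_sup_left) hPp hbrP
    have hsup : IsPGroup p ↥(P ⊔ R₀) := hPp.to_sup_of_normal_right' hR₀p hPR₀
    obtain ⟨E, hE, hle⟩ := exists_defect_ge (p := p) hsup (hasBr_sub hsub hbr')
    have h1 := hcyc E hE (le_sup_right.trans hle)
    rw [← hsec₁]
    refine isCyclic_sec_gen (S := R₀) ?_ (inf_le_left.trans hPR₀)
      (inf_le_left.trans (hPK.trans hRn))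
      (le_inf (inf_le_left.trans (le_sup_left.trans hle)) inf_le_right) h1
    exact le_inf inf_le_right (inf_le_left.trans (inf_le_left.trans hPK))

/-- **General form**: the local subgroups are p-solvable or satisfy `LocR`. -/
theorem navarro_R_rel [Fact p.Prime] [CharP k p] [IsAlgClosed k]
    (hB : BaseHyp.{u, v} p k (fun _ => True))
    {A : Type u} [Group A] [Fintype A] {G H : Subgroup A} (hn : G.Normal) (hGH : G ≤ H)
    (hp : ∀ x : A, ∃ n : ℕ, x ^ p ^ n ∈ G) {e : MonoidAlgebra k A}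
    (he : IsBlock G e) (hinv : InvBy ⊤ e)
    (hfix : ∀ Q : Subgroup A, Q ≤ H → G ⊔ Q = H →
      (∃ E, IsDefectGroup p ⊤ e E ∧ Q ≤ E) →
      PSolv p ↥(G ⊓ Subgroup.normalizer (Q : Set A)) ∨ LocR p G e Q) :
    NavarroEq p G H e := by
  apply navarro_loc hn hGH hp he hinv
  intro Q hQH hQp hGQ hQE K hCK hKN c hsub hcen hcC hcinv hcc
  rcases hfix Q hQH hGQ hQE with h | h
  · exact weq_psolv (h.of_section (IsSection.of_le hKN)) (hcC.mono hCK)
      (hcinv.mono (hKN.trans inf_le_right)) hcc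
  · exact weq_locR hB hn hCK hKN hsub hcen hcC hcinv hcc h

end Pool.Agent.Lib.P0c8ca5.Ps
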