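import Mathlib
import Pool.Agent.Lib.P0c8ca5S.LocR

/-!
# Local conditions modulo a normal p-subgroup `V` of the ambient group
-/

namespace Pool.Agent.Lib.P0c8ca5.Ps

open MonoidAlgebra
open Pool.Agent.Lib.P0c8ca5.Cy

universe u v

variable {p : ℕ}

/-- a homomorphism with kernel in `R` to a cyclic group -/
theorem isCyclic_sec_of_hom {A : Type u} [Group A] {P R : Subgroup A} {C : Type*} [Group C]
    (hc : IsCyclic C) (f : P →* C) (hker : ∀ x : P, f x = 1 → (x : A) ∈ R)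
    (hPRn : P ≤ Subgroup.normalizer (R : Set A)) : IsCyclic ↥(sec P R) := by
  have h1 : IsCyclic f.range := isCyclic_of_injective f.range.subtype
    (Subgroup.subtype_injective _)
  obtain ⟨⟨_, u, rfl⟩, hu⟩ := h1
  let g : ↥P →* NQ R :=
    { toFun := fun x => qm R x (hPRn x.2)
      map_one' := qm_eq_one_iff.2 R.one_mem
      map_mul' := fun x y => rfl }
  refine ⟨⟨⟨qm R u (hPRn u.2), qm_mem_sec _ u.2⟩, ?_⟩⟩
  rintro ⟨w, hw⟩
  obtain ⟨y, hy, hy', rfl⟩ := mem_sec.1 hw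
  obtain ⟨n, hn⟩ := Subgroup.mem_zpowers_iff.1 (hu ⟨f ⟨y, hy⟩, ⟨⟨y, hy⟩, rfl⟩⟩)
  have h2 : f u ^ n = f ⟨y, hy⟩ := congrArg Subtype.val hn
  have h3 : ((u ^ n)⁻¹ * ⟨y, hy⟩ : P) = (u ^ n)⁻¹ * ⟨y, hy⟩ := rfl
  have h4 : f ((u ^ n)⁻¹ * ⟨y, hy⟩) = 1 := by
    rw [map_mul, map_inv, map_zpow, h2, inv_mul_cancel]
  have h5 := hker _ h4
  refine Subgroup.mem_zpowers_iff.2 ⟨n, Subtype.ext ?_⟩
  rw [Subgroup.coe_zpow]
  change (g u) ^ n = g ⟨y, hy⟩
  rw [← map_zpow]
  change qm R ((u ^ n : ↥P) : A) _ = qm R y _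
  rw [qm_eq_iff]
  exact h5

variable {k : Type v} [Field k]

theorem locR_of_quot {A : Type u} [Group A] [Finite A] [Fact p.Prime] {G : Subgroup A}
    {e : MonoidAlgebra k A} {Q V : Subgroup A} [hV : V.Normal] (hVp : IsPGroup p V)
    (hQp : IsPGroup p Q)
    (h : ∀ E, IsDefectGroup p ⊤ e E → Q ≤ E →
      IsCyclic ↥(sec (E.map (QuotientGroup.mk' V) ⊓ (G.map (QuotientGroup.mk' V) ⊓
        Subgroup.normalizer (Q.map (QuotientGroup.mk' V) : Set (A ⧸ V))))
          (Q.map (QuotientGroup.mk' V)))) : LocR p G e Q := by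
  set π := QuotientGroup.mk' V with hπ
  have hGG : ∀ (G' : Subgroup A), Hyp3 p G' G' G' G' := fun G' => HypExt.hyp3
    ⟨le_rfl, Subgroup.le_normalizer, ⟨le_rfl, Subgroup.le_normalizer,
      ⟨1, Subgroup.one_mem _, by rw [Subgroup.zpowers_one_eq_bot, sup_bot_eq]⟩, by
        rw [Subgroup.relIndex_self]
        intro h
        exact (Fact.out : p.Prime).one_lt.ne' (Nat.dvd_one.1 h)⟩,
      fun x hx => ⟨0, by rw [pow_zero, pow_one]; exact hx⟩⟩
  set R : Subgroup A := Q ⊔ (V ⊓ Subgroup.normalizer (Q : Set A)) with hR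
  have hVQ : IsPGroup p ↥(V ⊓ Subgroup.normalizer (Q : Set A)) := hVp.to_le inf_le_left
  have hRp : IsPGroup p R := hQp.to_sup_of_normal_left' hVQ inf_le_right
  have hRQ : R ≤ Subgroup.normalizer (Q : Set A) := sup_le Subgroup.le_normalizer inf_le_right
  have hNR : Subgroup.normalizer (Q : Set A) ≤ Subgroup.normalizer (R : Set A) := by
    intro x hx
    have h1 : cg x Q = Q := cg_eq_self_iff.2 hx
    have h2 : cg x V = V := cg_normal x V
    have h3 : cg x (Subgroup.normalizer (Q : Set A)) = Subgroup.normalizer (Q : Set A) :=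
      cg_of_mem hx
    rw [← cg_eq_self_iff, hR, cg_sup, cg_inf, h1, h2, h3]
  refine ⟨R, _, _, _, hRp, le_sup_left, hRQ, inf_le_right.trans hNR, hGG _, ?_, ?_⟩
  · intro x hx hxQ _
    exact Subgroup.mem_inf.2 ⟨hx, Subgroup.centralizer_le_normalizer _ hxQ⟩
  · intro E hE hRE
    have hc := h E hE (le_sup_left.trans hRE)
    -- the homomorphism
    have hπn : ∀ x ∈ Subgroup.normalizer (Q : Set A),
        π x ∈ Subgroup.normalizer (Q.map π : Set (A ⧸ V)) := by
      intro x hx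
      exact Subgroup.le_normalizer_map π ⟨x, hx, rfl⟩
    set P : Subgroup A := E ⊓ (G ⊓ Subgroup.normalizer (Q : Set A)) with hP
    have hPQ : P ≤ Subgroup.normalizer (Q : Set A) := inf_le_right.trans inf_le_right
    let f : P →* ↥(sec (E.map π ⊓ (G.map π ⊓
        Subgroup.normalizer (Q.map π : Set (A ⧸ V)))) (Q.map π)) :=
      { toFun := fun x => ⟨qm (Q.map π) (π x) (hπn x (hPQ x.2)), qm_mem_sec _
          (Subgroup.mem_inf.2 ⟨⟨x, x.2.1, rfl⟩, Subgroup.mem_inf.2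
            ⟨⟨x, x.2.2.1, rfl⟩, hπn x (hPQ x.2)⟩⟩)⟩
        map_one' := Subtype.ext (qm_eq_one_iff.2 (by
          change π 1 ∈ _
          rw [map_one]
          exact Subgroup.one_mem _))
        map_mul' := fun x y => Subtype.ext rfl }
    refine isCyclic_sec_of_hom hc f ?_ (hPQ.trans hNR)
    intro x hx
    have h1 : qm (Q.map π) (π x) (hπn x (hPQ x.2)) = 1 := congrArg Subtype.val hx
    rw [qm_eq_one_iff] at h1
    obtain ⟨q, hq, hqx⟩ := h1
    have h2 : q⁻¹ * (x : A) ∈ V := by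
      rw [← QuotientGroup.eq]
      exact hqx
    have h3 : q⁻¹ * (x : A) ∈ Subgroup.normalizer (Q : Set A) :=
      Subgroup.mul_mem _ (Subgroup.inv_mem _ (Subgroup.le_normalizer hq)) (hPQ x.2)
    have h4 : (x : A) = q * (q⁻¹ * x) := by group
    rw [h4]
    exact R.mul_mem ((le_sup_left : Q ≤ R) hq)
      ((le_sup_right : V ⊓ Subgroup.normalizer (Q : Set A) ≤ R) ⟨h2, h3⟩)

theorem map_cg {A B : Type*} [Group A] [Group B] (π : A →* B) (x : A) (E : Subgroup A) :
    (cg x E).map π = cg (π x) (E.map π) := by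
  ext y
  constructor
  · rintro ⟨z, hz, rfl⟩
    rw [mem_cg]
    exact ⟨x⁻¹ * z * x, mem_cg.1 hz, by rw [map_mul, map_mul, map_inv]⟩
  · intro hy
    obtain ⟨z, hz, hzy⟩ := mem_cg.1 hy
    refine ⟨x * z * x⁻¹, mem_cg.2 ?_, ?_⟩
    · have e1 : x⁻¹ * (x * z * x⁻¹) * x = z := by group
      rw [e1]
      exact hz
    · rw [map_mul, map_mul, map_inv, hzy]
      group

/-- a bound for the ranks of the images of the subgroups of `E` -/
theorem rank_images {A B : Type*} [Group A] [Group B] [Finite A] [Finite B] (π : A →* B)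
    {E : Subgroup A} {m : ℕ} (hr : ∀ N : Subgroup A, N ≤ E → Group.rank ↥(N.map π) ≤ m) (x : A) :
    ∀ N' : Subgroup B, N' ≤ (cg x E).map π → Group.rank N' ≤ m := by
  intro N' hN'
  rw [map_cg] at hN'
  have h1 : cg (π x)⁻¹ N' ≤ E.map π := by
    have := cg_le_cg (g := (π x)⁻¹) hN'
    rwa [cg_cg, inv_mul_cancel, cg_one] at this
  have h2 : (E ⊓ (cg (π x)⁻¹ N').comap π).map π = cg (π x)⁻¹ N' := by
    apply le_antisymm
    · rintro _ ⟨z, hz, rfl⟩
      exact hz.2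
    · intro y hy
      obtain ⟨z, hz, rfl⟩ := h1 hy
      exact ⟨z, ⟨hz, hy⟩, rfl⟩
  have h3 := hr (E ⊓ (cg (π x)⁻¹ N').comap π) inf_le_left
  rw [h2] at h3
  have h4 : Group.rank N' = Group.rank ↥(cg (π x)⁻¹ N') :=
    Group.rank_congr (Subgroup.equivMapOfInjective N' (MulAut.conj (π x)⁻¹).toMonoidHom
      (MulAut.conj (π x)⁻¹).injective)
  rw [h4]
  exact h3

/-- the subgroups of `E V / V` can be generated by `d(A / G) + 1` elements -/
theorem navarro_rankV [Fact p.Prime] [CharP k p] [IsAlgClosed k]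
    (hB : BaseHyp.{u, v} p k (fun _ => True))
    {A : Type u} [Group A] [Fintype A] {G : Subgroup A} [hn : G.Normal]
    (hG : IsPGroup p (A ⧸ G)) (hp : ∀ x : A, ∃ n : ℕ, x ^ p ^ n ∈ G) {e : MonoidAlgebra k A}
    (he : IsBlock G e) (hinv : InvBy ⊤ e) {E : Subgroup A} (hE : IsDefectGroup p ⊤ e E)
    {V : Subgroup A} [hV : V.Normal] (hVp : IsPGroup p V) (hVG : V ≤ G)
    (hr : ∀ N : Subgroup A, N ≤ E →
      Group.rank ↥(N.map (QuotientGroup.mk' V)) ≤ Group.rank (A ⧸ G) + 1) :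
    NavarroEq p G ⊤ e := by
  have hnG : (⊤ : Subgroup A) ≤ Subgroup.normalizer (G : Set A) := fun x _ =>
    mem_norm_of_normal G x
  have heT : IsBlock (⊤ : Subgroup A) e := isBlock_up' le_top hnG (fun x _ => hp x) he hinv
  set π := QuotientGroup.mk' V with hπ
  have hnm : (G.map π).Normal := hn.map π (QuotientGroup.mk'_surjective V)
  let ε : (A ⧸ V) ⧸ G.map π ≃* A ⧸ G := QuotientGroup.quotientQuotientEquivQuotient V G hVG
  have hGV : IsPGroup p ((A ⧸ V) ⧸ G.map π) := hG.of_equiv ε.symm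
  have hrk : Group.rank ((A ⧸ V) ⧸ G.map π) = Group.rank (A ⧸ G) := Group.rank_congr ε
  apply navarro_R_rel hB hn le_top hp he hinv
  rintro Q - hGQ ⟨E₀, hE₀, hQE₀⟩
  right
  refine locR_of_quot hVp (hE₀.isPGroup.to_le hQE₀) (fun E' hE' hQE' => ?_)
  obtain ⟨x, rfl⟩ := Rk.defect_conj heT hE hE'
  refine isCyclic_sec_mono inf_le_left ?_
  refine isCyclic_sec_of_rank hGV (hE'.isPGroup.map π) ?_ (Subgroup.map_mono hQE') ?_
  · intro N' hN'
    rw [hrk]
    exact rank_images π hr x N' hN'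
  · rw [← Subgroup.map_sup, hGQ]
    exact Subgroup.map_top_of_surjective π (QuotientGroup.mk'_surjective V)

theorem rank_metaV {A : Type u} [Group A] [Finite A] {G : Subgroup A}
    [hn : G.Normal] (hG : G ≠ ⊤) {E V : Subgroup A} [hV : V.Normal]
    (hE : ∃ u v : A ⧸ V, v ∈ Subgroup.normalizer (Subgroup.zpowers u : Set (A ⧸ V)) ∧
      E.map (QuotientGroup.mk' V) = Subgroup.zpowers u ⊔ Subgroup.zpowers v) :
    ∀ N : Subgroup A, N ≤ E →
      Group.rank ↥(N.map (QuotientGroup.mk' V)) ≤ Group.rank (A ⧸ G) + 1 := by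
  intro N hN
  obtain ⟨u, v, huv, hE⟩ := hE
  have h1 : Nontrivial (A ⧸ G) := by
    by_contra h
    rw [not_nontrivial_iff_subsingleton] at h
    apply hG
    rw [eq_top_iff]
    intro x _
    rw [← QuotientGroup.eq_one_iff]
    exact Subsingleton.elim _ _
  have h2 := Group.rank_pos (A ⧸ G)
  have h4 : N.map (QuotientGroup.mk' V) ≤ Subgroup.zpowers u ⊔ Subgroup.zpowers v := by
    rw [← hE]
    exact Subgroup.map_mono hN
  have h3 := rank_le_two huv h4
  omega

/-- the subgroups of `E V / V` can be generated by two elements, `H > G` -/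
theorem navarro_gtV [Fact p.Prime] [CharP k p] [IsAlgClosed k]
    (hB : BaseHyp.{u, v} p k (fun _ => True))
    {A : Type u} [Group A] [Fintype A] {G : Subgroup A} [hn : G.Normal]
    (hp : ∀ x : A, ∃ n : ℕ, x ^ p ^ n ∈ G) {e : MonoidAlgebra k A}
    (he : IsBlock G e) (hinv : InvBy ⊤ e) {E : Subgroup A} (hE : IsDefectGroup p ⊤ e E)
    {V : Subgroup A} [hV : V.Normal] (hVp : IsPGroup p V) (hVG : V ≤ G)
    (hr : ∀ N : Subgroup A, N ≤ E → Group.rank ↥(N.map (QuotientGroup.mk' V)) ≤ 2)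
    {H : Subgroup A} (hGH : G < H) : NavarroEq p G H e := by
  have hnG : (⊤ : Subgroup A) ≤ Subgroup.normalizer (G : Set A) := fun x _ =>
    mem_norm_of_normal G x
  have heT : IsBlock (⊤ : Subgroup A) e := isBlock_up' le_top hnG (fun x _ => hp x) he hinv
  set π := QuotientGroup.mk' V with hπ
  have hnm : (G.map π).Normal := hn.map π (QuotientGroup.mk'_surjective V)
  apply navarro_R_rel hB hn hGH.le hp he hinv
  rintro Q - hGQ ⟨E₀, hE₀, hQE₀⟩
  right
  have hQG : ¬ Q.map π ≤ G.map π := by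
    intro h
    have h1 : Q ≤ G := by
      intro x hx
      obtain ⟨g, hg, hgx⟩ := h ⟨x, hx, rfl⟩
      have h2 : g⁻¹ * x ∈ V := by
        rw [← QuotientGroup.eq]
        exact hgx
      have h3 := G.mul_mem hg (hVG h2)
      rwa [mul_inv_cancel_left] at h3
    rw [sup_eq_left.2 h1] at hGQ
    exact hGH.ne hGQ
  refine locR_of_quot hVp (hE₀.isPGroup.to_le hQE₀) (fun E' hE' hQE' => ?_)
  obtain ⟨x, rfl⟩ := Rk.defect_conj heT hE hE'
  exact isCyclic_sec_of_rank_two (hE'.isPGroup.map π) (rank_images π hr x)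
    (Subgroup.map_mono hQE') hQG

end Pool.Agent.Lib.P0c8ca5.Ps
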